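import Pool.Agent.Helper76.MedDefs

/-!
Interfaces between the modules of the solution of MP_4596be_lc.
-/

namespace Pool.Agent.Helper76.Med

/-! ### History systems (module 3 interface) -/

/-- A history system: finitely many instructions `Fin g`; `isInit` marks the initial instructions,
`E a b` says that `b` may follow `a`; each instruction may push a symbol on one of the `K` stacks
(`some (k, Sum.inl x)`), or pop the stack `k` and check that the popped symbol is `o`
(`some (k, Sum.inr o)`, with `o = none` for `stack is empty`), or do nothing (`none`). -/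
structure Hist where
  g : ℕ
  K : ℕ
  G : ℕ
  isInit : Fin g → Bool
  E : Fin g → Fin g → Bool
  op : Fin g → Option (Fin K × (Fin G ⊕ Option (Fin G)))
  op_init : ∀ a, isInit a = true → op a = none

namespace Hist

variable (H : Hist)

/-- effect of an operation on the stacks -/
def app (o : Option (Fin H.K × (Fin H.G ⊕ Option (Fin H.G)))) (s : Fin H.K → List (Fin H.G)) :
    Fin H.K → List (Fin H.G) :=
  match o with
  | none => s
  | some (k, Sum.inl x) => Function.update s k (x :: s k)
  | some (k, Sum.inr _) => Function.update s k (s k).tail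

/-- is the operation allowed with these stacks? -/
def OpOK (o : Option (Fin H.K × (Fin H.G ⊕ Option (Fin H.G)))) (s : Fin H.K → List (Fin H.G)) :
    Prop :=
  match o with
  | none => True
  | some (_, Sum.inl _) => True
  | some (k, Sum.inr x) => (s k).head? = x

/-- the stacks before the `n`-th instruction -/
def stk (y : ℕ → Fin H.g) : ℕ → Fin H.K → List (Fin H.G)
  | 0 => fun _ => []
  | n + 1 => H.app (H.op (y n)) (stk y n)

/-- the set of infinite histories -/
def Runs : Set (ℕ → Fin H.g) :=
  {y | H.isInit (y 0) = true ∧ (∀ n, H.isInit (y (n + 1)) = false) ∧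
    (∀ n, H.E (y n) (y (n + 1)) = true) ∧ ∀ n, H.OpOK (H.op (y n)) (H.stk y n)}

end Hist

/-- MODULE 3 TARGET -/
def Module3Target : Prop :=
  ∀ T : List Bool → Bool, Computable T →
    ∃ H : Hist, MedLE {x : ℕ → Bool | ∀ n, T (seg x n) = true} H.Runs ∧
      MedLE H.Runs {x : ℕ → Bool | ∀ n, T (seg x n) = true}

/-! ### Runs in absolute coordinates (module 2 interface) -/

/-- configuration in absolute coordinates: state, tape, position of the head -/
structure ACfg (Q S : Type) where
  q : Q
  tape : ℤ → S
  pos : ℤ

/-- one step in absolute coordinates -/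
def astep {Q S : Type} (δ : Q → S → Option (Q × S × SignType)) (c : ACfg Q S) :
    Option (ACfg Q S) :=
  (δ c.q (c.tape c.pos)).map fun r =>
    ⟨r.1, Function.update c.tape c.pos r.2.1, c.pos + (r.2.2 : ℤ)⟩

/-- the configuration after `n` steps (`none` after halting) -/
def arun {Q S : Type} (δ : Q → S → Option (Q × S × SignType)) (c : ACfg Q S) :
    ℕ → Option (ACfg Q S)
  | 0 => some c
  | n + 1 => (arun δ c n).bind (astep δ)

/-- The configuration after `n` steps together with the leftmost and the rightmost position of the
head so far. -/
def vrun {Q S : Type} (δ : Q → S → Option (Q × S × SignType)) (c : ACfg Q S) :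
    ℕ → Option (ACfg Q S × ℤ × ℤ)
  | 0 => some (c, c.pos, c.pos)
  | n + 1 => (vrun δ c n).bind fun v =>
      (astep δ v.1).map fun d => (d, min v.2.1 d.pos, max v.2.2 d.pos)

/-- the contents of the interval `[lo, hi]` of the tape, as a list -/
def window {S : Type} (tape : ℤ → S) (lo hi : ℤ) : List S :=
  (List.range (hi + 1 - lo).toNat).map fun j => tape (lo + j)

/-- MODULE 2 TARGET: from longer and longer initial segments of the code of a configuration `c`
one can compute the contents of the visited interval of the tape at larger and larger times. -/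
def Module2Target : Prop :=
  ∀ (nq ns : ℕ) (δ : Fin nq → Fin ns → Option (Fin nq × Fin ns × SignType)),
    ∃ sim : List Bool → List (Fin ns), Computable sim ∧
      ∀ c : Fin nq × (ℤ → Fin ns), c ∈ immortal δ →
        (∀ k, sim (seg (code c) k) = [] ∨
          ∃ t v, vrun δ ⟨c.1, c.2, 0⟩ t = some v ∧
            sim (seg (code c) k) = window v.1.tape v.2.1 v.2.2) ∧
        (∀ T, ∃ k t v, T ≤ t ∧ vrun δ ⟨c.1, c.2, 0⟩ t = some v ∧
            sim (seg (code c) k) = window v.1.tape v.2.1 v.2.2)

end Pool.Agent.Helper76.Med
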