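import Pool.Agent.Helper76.MedSearch

/-!
Module 5 of MP_4596be_lc: immortal configurations of the nested-search machine.
-/

namespace Pool.Agent.Helper76.Med

variable {A S C : Type} {I : IA A S C} {dat : ℤ → A}

open Function

variable (I dat) in
/-- never halting -/
def Imm (c : Cf A S C) : Prop := ¬ HIn I dat Set.univ c

theorem Imm.of_RIn {Z : Set ℤ} {c c' : Cf A S C} (h : Imm I dat c) (hr : RIn I dat Z c c') :
    Imm I dat c' := fun hh => h (HIn.of_RIn (hr.mono (Set.subset_univ _)) hh)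

theorem Imm.not_HIn {Z : Set ℤ} {c : Cf A S C} (h : Imm I dat c) : ¬ HIn I dat Z c :=
  fun hh => h (hh.mono (Set.subset_univ _))

/-- the cells `p + D j` with `a ≤ j ≤ b` -/
def zint (D : Bool) (p : ℤ) (a b : ℤ) : Set ℤ := {x | ∃ j : ℤ, a ≤ j ∧ j ≤ b ∧ x = p + dz D * j}

theorem zset_sub_zint {D : Bool} {p : ℤ} {n : ℕ} {a b : ℤ} (ha : a ≤ 0) (hb : (n : ℤ) ≤ b + 1) :
    zset D p n ⊆ zint D p a b := by
  rintro x ⟨j, hj, rfl⟩
  exact ⟨j, by omega, by omega, rfl⟩

/-- what happens after a finite zone has been searched -/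
theorem after (κ : Kap S) (acc : C) (fg : ℤ → Fg S C) (m : ℤ)
    (hnb : fg m ≠ .blank) (himm : Imm I dat ⟨.chk κ acc, fg, m⟩) :
    ∃ (κ₂ : Kap S) (acc₂ : C) (fg₂ : ℤ → Fg S C) (p₂ : ℤ) (c' : Cf A S C),
      stp I dat ⟨.chk κ acc, fg, m⟩ = some c' ∧
      c'.p ∈ zint κ.dir m (-1) 1 ∧
      RIn I dat (zint κ.dir m (-1) 1) c' ⟨.chk κ₂ acc₂, fg₂, p₂⟩ ∧
      κ₂.dir = !κ.dir ∧
      (∀ x, x ≠ m → x ≠ m + dz κ.dir → fg₂ x = fg x) ∧
      ((p₂ = m ∧ fg₂ m = .blank) ∨
        (p₂ = m - dz κ.dir ∧ κ.m ≠ .fwd ∧ (κ₂.m = .fwd ∨ fg₂ m = .blank))) := by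
  have hns : stp I dat ⟨.chk κ acc, fg, m⟩ ≠ none := fun h => himm (HIn.now h)
  obtain ⟨D, mo, s⟩ := κ
  cases hf : fg m with
  | blank => exact absurd hf hnb
  | x D' =>
    cases mo with
    | back => exact absurd (by simp [stp, hf, tr]) hns
    | fin => exact absurd (by simp [stp, hf, tr]) hns
    | fwd =>
      by_cases hD : D' = D ∧ I.ok D s (dat m) acc = true
      swap
      · exact absurd (by simp only [stp, hf, tr, if_neg hD, Option.map_none]) hns
      obtain ⟨rfl, hok⟩ := hD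
      simp only [dir_fwd]
      have hm1 : m + dz D' ∈ zint D' m (-1) 1 := ⟨1, by omega, by omega, by ring⟩
      have hm0 : m ∈ zint D' m (-1) 1 := ⟨0, by omega, by omega, by ring⟩
      have hne : m ≠ m + dz D' := by
        obtain h | h := dz_cases D' <;> rw [h] <;> omega
      have e : m + dz D' - dz D' = m := by ring
      by_cases hb : fg (m + dz D') = .blank
      · refine ⟨⟨D', .back, I.upd D' s (dat m) acc⟩, I.zero,
          update (update fg (m + dz D') (.x D')) m .blank, m, _, step_chk_x_ok hf hok, hm1, ?_, rfl,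
          ?_, ?_⟩
        · refine RIn.head (step_ext_blank hb) (by simpa [e] using hm0) ?_
          rw [e]
          refine RIn.head (step_er ?_) hm0 RIn.refl
          rw [update_of_ne hne, hf]
        · intro x h1 h2
          rw [update_of_ne h1, update_of_ne h2]
        · left
          exact ⟨rfl, by simp⟩
      · refine ⟨⟨D', .fin, I.upd D' s (dat m) acc⟩, I.zero,
          update fg m .blank, m, _, step_chk_x_ok hf hok, hm1, ?_, rfl,
          ?_, ?_⟩
        · refine RIn.head (step_ext_nonblank hb) (by simpa [e] using hm0) ?_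
          rw [e]
          exact RIn.head (step_er hf) hm0 RIn.refl
        · intro x h1 h2
          rw [update_of_ne h1]
        · left
          exact ⟨rfl, by simp⟩
  | ret κ' acc' =>
    cases mo with
    | fwd => exact absurd (by simp [stp, hf, tr]) hns
    | back =>
      by_cases hD : κ'.dir = D
      swap
      · exact absurd (by simp only [stp, hf, tr, if_neg hD, Option.map_none]) hns
      simp only [dir_back]
      have hm1 : m + dz D ∈ zint (!D) m (-1) 1 := ⟨-1, by omega, by omega, by rw [dz_not]; ring⟩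
      refine ⟨⟨D, .fwd, s⟩, I.zero, fg, m + dz D, _, step_back_ret hf hD, hm1, RIn.refl, by simp,
        fun x _ _ => rfl, Or.inr ⟨by rw [dz_not]; ring, by simp, Or.inl rfl⟩⟩
    | fin =>
      by_cases hD : κ'.dir = D
      swap
      · exact absurd (by simp only [stp, hf, tr, if_neg hD, Option.map_none]) hns
      simp only [dir_fin]
      have hm1 : m + dz D ∈ zint (!D) m (-1) 1 := ⟨-1, by omega, by omega, by rw [dz_not]; ring⟩
      refine ⟨κ', I.add acc' s, update fg m .blank, m + dz D, _, step_fin_ret hf hD, hm1,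
        RIn.refl, by simp [hD], ?_, Or.inr ⟨by rw [dz_not]; ring, by simp, Or.inr (by simp)⟩⟩
      intro x h1 h2
      rw [update_of_ne h1]

/-- one macro step: an immortal search of a finite zone is completed and a search in the other
direction is started -/
theorem big_step (κ : Kap S) (acc : C) (fg : ℤ → Fg S C) (p : ℤ) (n : ℕ)
    (hbl : ∀ j : ℕ, j < n → fg (p + dz κ.dir * j) = .blank)
    (hnb : fg (p + dz κ.dir * n) ≠ .blank)
    (himm : Imm I dat ⟨.chk κ acc, fg, p⟩) :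
    Good I dat κ.dir (zset κ.dir p n) ∧
    ∃ (κ₂ : Kap S) (acc₂ : C) (fg₂ : ℤ → Fg S C) (p₂ : ℤ) (c' : Cf A S C),
      stp I dat ⟨.chk κ acc, fg, p⟩ = some c' ∧
      c'.p ∈ zint κ.dir p (-1) (n + 1) ∧
      RIn I dat (zint κ.dir p (-1) (n + 1)) c' ⟨.chk κ₂ acc₂, fg₂, p₂⟩ ∧
      κ₂.dir = !κ.dir ∧
      (∀ x, x ≠ p + dz κ.dir * n → x ≠ p + dz κ.dir * (n + 1) → fg₂ x = fg x) ∧
      ((p₂ = p + dz κ.dir * n ∧ fg₂ (p + dz κ.dir * n) = .blank) ∨
        (p₂ = p + dz κ.dir * (n - 1) ∧ κ.m ≠ .fwd ∧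
          (κ₂.m = .fwd ∨ fg₂ (p + dz κ.dir * n) = .blank))) := by
  rcases search (I := I) (dat := dat) n κ acc fg p hbl hnb with ⟨hr, hg⟩ | ⟨hh, -⟩
  swap
  · exact absurd hh himm.not_HIn
  refine ⟨hg, ?_⟩
  obtain ⟨κ₂, acc₂, fg₂, p₂, c', h1, h2, h3, h4, h5, h6⟩ :=
    after κ _ fg _ hnb (himm.of_RIn hr)
  have s1 : zset κ.dir p (n + 1) ⊆ zint κ.dir p (-1) (n + 1) :=
    zset_sub_zint (by omega) (by push_cast; omega)
  have s2 : zint κ.dir (p + dz κ.dir * n) (-1) 1 ⊆ zint κ.dir p (-1) (n + 1) := by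
    rintro x ⟨j, hj1, hj2, rfl⟩
    exact ⟨n + j, by omega, by omega, by ring⟩
  have hall : ∃ c₁, stp I dat ⟨.chk κ acc, fg, p⟩ = some c₁ ∧ c₁.p ∈ zint κ.dir p (-1) (n + 1) ∧
      RIn I dat (zint κ.dir p (-1) (n + 1)) c₁ ⟨.chk κ₂ acc₂, fg₂, p₂⟩ := by
    rcases Relation.ReflTransGen.cases_head hr with h | ⟨c, hc, hc'⟩
    · rw [h]
      exact ⟨c', h1, s2 h2, h3.mono s2⟩
    · exact ⟨c, hc.1, s1 hc.2, (RIn.mono s1 hc').trans (RIn.head h1 (s2 h2) (h3.mono s2))⟩
  obtain ⟨c₁, g1, g2, g3⟩ := hall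
  refine ⟨κ₂, acc₂, fg₂, p₂, c₁, g1, g2, g3, h4, ?_, ?_⟩
  · intro x hx1 hx2
    exact h5 x hx1 (by
      have : p + dz κ.dir * (n : ℤ) + dz κ.dir = p + dz κ.dir * (n + 1) := by ring
      rw [this]; exact hx2)
  · rcases h6 with h | ⟨h, h'⟩
    · exact Or.inl h
    · right
      exact ⟨by rw [h]; ring, h'⟩

/-! ### runs with the visited interval -/

variable (I dat) in
/-- one step, recording the visited interval -/
noncomputable def vs (v : Cf A S C × ℤ × ℤ) : Option (Cf A S C × ℤ × ℤ) :=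
  (stp I dat v.1).map fun d => (d, min v.2.1 d.p, max v.2.2 d.p)

variable (I dat) in
/-- `n` steps, recording the visited interval -/
noncomputable def vr : ℕ → Cf A S C × ℤ × ℤ → Option (Cf A S C × ℤ × ℤ)
  | 0, v => some v
  | n + 1, v => (vs I dat v).bind (vr n)

theorem vr_add (m n : ℕ) (v : Cf A S C × ℤ × ℤ) :
    vr I dat (m + n) v = (vr I dat m v).bind (vr I dat n) := by
  induction m generalizing v with
  | zero => simp [vr]
  | succ m ih =>
    rw [Nat.succ_add, vr, vr, Option.bind_assoc]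
    congr 1
    funext w
    exact ih w

theorem vs_of_stp {c c' : Cf A S C} {lo hi : ℤ} (h : stp I dat c = some c') :
    vs I dat (c, lo, hi) = some (c', min lo c'.p, max hi c'.p) := by
  simp [vs, h]

theorem vr_RIn {Z W : Set ℤ} (hZ : Z ⊆ W) {c c' : Cf A S C} (hr : RIn I dat Z c c') :
    ∀ lo hi : ℤ, lo ∈ W → hi ∈ W → ∃ n lo' hi', vr I dat n (c, lo, hi) = some (c', lo', hi') ∧
      ∀ m ≤ n, ∀ w, vr I dat m (c, lo, hi) = some w → w.2.1 ∈ W ∧ w.2.2 ∈ W := by
  induction hr using Relation.ReflTransGen.head_induction_on with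
  | refl =>
    intro lo hi h1 h2
    refine ⟨0, lo, hi, rfl, ?_⟩
    intro m hm w hw
    obtain rfl : m = 0 := by omega
    simp only [vr, Option.some.injEq] at hw
    subst hw
    exact ⟨h1, h2⟩
  | @head a b hab hbc ih =>
    intro lo hi h1 h2
    have hb : b.p ∈ W := hZ hab.2
    have h1' : min lo b.p ∈ W := by
      rcases min_choice lo b.p with h | h <;> rw [h] <;> assumption
    have h2' : max hi b.p ∈ W := by
      rcases max_choice hi b.p with h | h <;> rw [h] <;> assumption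
    obtain ⟨n, lo', hi', h3, h4⟩ := ih _ _ h1' h2'
    refine ⟨n + 1, lo', hi', ?_, ?_⟩
    · rw [vr, vs_of_stp hab.1]
      exact h3
    · intro m hm w hw
      rcases m with _ | m
      · simp only [vr, Option.some.injEq] at hw
        subst hw
        exact ⟨h1, h2⟩
      · rw [vr, vs_of_stp hab.1] at hw
        exact h4 m (by omega) w hw

/-- a version of `vr_RIn` for a run with a first step -/
theorem vr_RIn' {Z W : Set ℤ} (hZ : Z ⊆ W) {c c₁ c' : Cf A S C} (h1 : stp I dat c = some c₁)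
    (hp : c₁.p ∈ Z) (hr : RIn I dat Z c₁ c') (lo hi : ℤ) (hlo : lo ∈ W) (hhi : hi ∈ W) :
    ∃ n lo' hi', 1 ≤ n ∧ vr I dat n (c, lo, hi) = some (c', lo', hi') ∧
      ∀ m ≤ n, ∀ w, vr I dat m (c, lo, hi) = some w → w.2.1 ∈ W ∧ w.2.2 ∈ W := by
  have hb : c₁.p ∈ W := hZ hp
  have h1' : min lo c₁.p ∈ W := by
    rcases min_choice lo c₁.p with h | h <;> rw [h] <;> assumption
  have h2' : max hi c₁.p ∈ W := by
    rcases max_choice hi c₁.p with h | h <;> rw [h] <;> assumption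
  obtain ⟨n, lo', hi', h3, h4⟩ := vr_RIn hZ hr _ _ h1' h2'
  refine ⟨n + 1, lo', hi', by omega, ?_, ?_⟩
  · rw [vr, vs_of_stp h1]
    exact h3
  · intro m hm w hw
    rcases m with _ | m
    · simp only [vr, Option.some.injEq] at hw
      subst hw
      exact ⟨hlo, hhi⟩
    · rw [vr, vs_of_stp h1] at hw
      exact h4 m (by omega) w hw

/-! ### infinite zones -/

/-- the cells `p + D j` with `j ≥ a` -/
def zinf (D : Bool) (p : ℤ) (a : ℤ) : Set ℤ := {x | ∃ j : ℤ, a ≤ j ∧ x = p + dz D * j}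

theorem zset_sub_zinf {D : Bool} {p : ℤ} {n : ℕ} : zset D p n ⊆ zinf D p 0 := by
  rintro x ⟨j, hj, rfl⟩
  exact ⟨j, by omega, rfl⟩

/-- in an infinite zone an immortal child runs through all stages -/
theorem inf_stage (κ : Kap S) (acc : C) (fg : ℤ → Fg S C) (p : ℤ)
    (hbl : ∀ j : ℕ, fg (p + dz κ.dir * j) = .blank)
    (himm : Imm I dat ⟨.chk κ acc, fg, p⟩) (W : Set ℤ) (hW : zinf κ.dir p 0 ⊆ W)
    (lo hi : ℤ) (hlo : lo ∈ W) (hhi : hi ∈ W) (k : ℕ) :
    ∃ n lo' hi', k ≤ n ∧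
      vr I dat n (⟨.chk κ acc, fg, p⟩, lo, hi) = some (stage I dat κ acc fg p k, lo', hi') ∧
      (∀ m ≤ n, ∀ w, vr I dat m (⟨.chk κ acc, fg, p⟩, lo, hi) = some w →
        w.2.1 ∈ W ∧ w.2.2 ∈ W) ∧
      RIn I dat (zinf κ.dir p 0) ⟨.chk κ acc, fg, p⟩ (stage I dat κ acc fg p k) ∧
      ∀ k' < k, chkk I dat κ.dir p k' ∧ Good I dat κ.dir (zset κ.dir (p + dz κ.dir) k') := by
  induction k with
  | zero =>
    have h0 : fg p = .blank := by simpa using hbl 0
    have h1 : fg (p + dz κ.dir) = .blank := by simpa using hbl 1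
    have hr : RIn I dat (zinf κ.dir p 0) ⟨.chk κ acc, fg, p⟩ (stage I dat κ acc fg p 0) :=
      start_child κ acc fg p _ h0 h1 ⟨0, by omega, by simp⟩ ⟨1, by omega, by simp⟩
    obtain ⟨n, lo', hi', h2, h3⟩ := vr_RIn hW hr lo hi hlo hhi
    exact ⟨n, lo', hi', by omega, h2, h3, hr, by simp⟩
  | succ k ih =>
    obtain ⟨n, lo', hi', h1, h2, h3, h4, h5⟩ := ih
    rcases stage_step κ acc fg p k (search _) (search _) (fun j _ _ => hbl j) with
      ⟨c', g1, g2, g3, g4, g5⟩ | ⟨g1, -⟩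
    swap
    · exact absurd g1 (himm.of_RIn h4).not_HIn
    have hw := h3 n le_rfl _ h2
    obtain ⟨n', lo'', hi'', f1, f2, f3⟩ :=
      vr_RIn' (zset_sub_zinf.trans hW) g1 g2 g3 lo' hi' hw.1 hw.2
    refine ⟨n + n', lo'', hi'', by omega, ?_, ?_, ?_, ?_⟩
    · rw [vr_add, h2]
      exact f2
    · intro m hm w hw'
      by_cases hmn : m ≤ n
      · exact h3 m hmn w hw'
      · obtain ⟨m', rfl⟩ : ∃ m', m = n + m' := ⟨m - n, by omega⟩
        rw [vr_add, h2] at hw'
        exact f3 m' (by omega) w hw'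
    · exact h4.trans (RIn.head g1 (zset_sub_zinf g2) (g3.mono zset_sub_zinf))
    · intro k' hk'
      rcases Nat.lt_succ_iff_lt_or_eq.1 hk' with h | h
      · exact h5 k' h
      · rw [h]; exact ⟨g5, g4⟩

/-- an immortal search of an infinite zone: the zone is good -/
theorem inf_good (κ : Kap S) (acc : C) (fg : ℤ → Fg S C) (p : ℤ)
    (hbl : ∀ j : ℕ, fg (p + dz κ.dir * j) = .blank)
    (himm : Imm I dat ⟨.chk κ acc, fg, p⟩) : Good I dat κ.dir (zinf κ.dir p 0) := by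
  rintro i ⟨j, hj, rfl⟩ k ⟨j', hj', h'⟩
  have hjj : j' = j + (k + 1) := by
    obtain h | h := dz_cases κ.dir <;> rw [h] at h' <;> omega
  obtain ⟨j, rfl⟩ := Int.eq_ofNat_of_zero_le hj
  obtain ⟨n, lo', hi', -, -, -, -, h5⟩ := inf_stage κ acc fg p hbl himm Set.univ
    (Set.subset_univ _) 0 0 trivial trivial (j + k + 3)
  rcases j with _ | j
  · simpa using (h5 k (by omega)).1
  · refine (h5 (j + k + 2) (by omega)).2 _ ⟨j, by omega, by push_cast; ring⟩ k
      ⟨j + k + 1, by omega, by push_cast; ring⟩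

/-- a search of an infinite zone, good in both directions, never halts -/
theorem imm_of_good (κ : Kap S) (acc : C) (fg : ℤ → Fg S C) (p : ℤ)
    (hbl : ∀ j : ℕ, fg (p + dz κ.dir * j) = .blank)
    (hg : ∀ D, Good I dat D (zinf κ.dir p 0)) (n : ℕ) (lo hi : ℤ) :
    (vr I dat n (⟨.chk κ acc, fg, p⟩, lo, hi)).isSome := by
  have key : ∀ k, ∃ n lo' hi', k ≤ n ∧
      vr I dat n (⟨.chk κ acc, fg, p⟩, lo, hi) = some (stage I dat κ acc fg p k, lo', hi') := by
    intro k
    induction k with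
    | zero =>
      have h0 : fg p = .blank := by simpa using hbl 0
      have h1 : fg (p + dz κ.dir) = .blank := by simpa using hbl 1
      have hr : RIn I dat Set.univ ⟨.chk κ acc, fg, p⟩ (stage I dat κ acc fg p 0) :=
        start_child κ acc fg p _ h0 h1 trivial trivial
      obtain ⟨n, lo', hi', h2, h3⟩ := vr_RIn (W := Set.univ) le_rfl hr lo hi trivial trivial
      exact ⟨n, lo', hi', by omega, h2⟩
    | succ k ih =>
      obtain ⟨n, lo', hi', h1, h2⟩ := ih
      rcases stage_step κ acc fg p k (search (I := I) (dat := dat) _) (search _)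
        (fun j _ _ => hbl j) with
        ⟨c', g1, g2, g3, g4, g5⟩ | ⟨-, g1⟩
      swap
      · exact absurd (fun D => (hg D).mono _ _ zset_sub_zinf) g1
      obtain ⟨n', lo'', hi'', f1, f2, f3⟩ :=
        vr_RIn' (W := Set.univ) (Set.subset_univ _) g1 g2 g3 lo' hi' trivial trivial
      refine ⟨n + n', lo'', hi'', by omega, ?_⟩
      rw [vr_add, h2]
      exact f2
  obtain ⟨m, lo', hi', h1, h2⟩ := key n
  obtain ⟨m', rfl⟩ : ∃ m', m = n + m' := ⟨m - n, by omega⟩
  rw [vr_add] at h2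
  cases h : vr I dat n (⟨.chk κ acc, fg, p⟩, lo, hi) with
  | none => rw [h] at h2; simp at h2
  | some w => rfl

/-! ### the visited interval, shrunk by 5 on both sides, is good -/

/-- condition on the visited interval at the start of a search -/
def Vis (D : Bool) (fg : ℤ → Fg S C) (p : ℤ) (x : ℤ) : Prop :=
  ∃ j : ℤ, -5 ≤ j ∧ x = p + dz D * j ∧
    ∀ n : ℕ, fg (p + dz D * n) ≠ .blank → j ≤ n + 4

theorem vis_step {κ κ₂ : Kap S} {fg fg₂ : ℤ → Fg S C} {p p₂ : ℤ} {n : ℕ}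
    (hbl : ∀ j : ℕ, j < n → fg (p + dz κ.dir * j) = .blank)
    (g4 : κ₂.dir = !κ.dir)
    (g5 : ∀ x, x ≠ p + dz κ.dir * n → x ≠ p + dz κ.dir * (n + 1) → fg₂ x = fg x)
    (g6 : (p₂ = p + dz κ.dir * n ∧ fg₂ (p + dz κ.dir * n) = .blank) ∨
        p₂ = p + dz κ.dir * (n - 1))
    {x : ℤ} (hx : x ∈ zint κ.dir p (-5) (n + 4)) : Vis κ₂.dir fg₂ p₂ x := by
  obtain ⟨j, hj1, hj2, rfl⟩ := hx
  have hblank : ∀ i : ℕ, i < n → fg₂ (p + dz κ.dir * i) = .blank := by
    intro i hi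
    rw [g5, hbl i hi]
    · obtain h | h := dz_cases κ.dir <;> rw [h] <;> omega
    · obtain h | h := dz_cases κ.dir <;> rw [h] <;> omega
  rw [g4]
  rcases g6 with ⟨rfl, hm⟩ | rfl
  · refine ⟨n - j, by omega, by rw [dz_not]; ring, ?_⟩
    intro n₂ hn₂
    by_contra hlt
    apply hn₂
    rcases Nat.eq_zero_or_pos n₂ with rfl | hpos
    · simpa using hm
    · have e : p + dz κ.dir * (n : ℤ) + dz (!κ.dir) * (n₂ : ℤ) =
          p + dz κ.dir * ((n - n₂ : ℕ) : ℤ) := by
        rw [dz_not, Nat.cast_sub (by omega)]; ring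
      rw [e]
      exact hblank _ (by omega)
  · refine ⟨n - 1 - j, by omega, by rw [dz_not]; ring, ?_⟩
    intro n₂ hn₂
    by_contra hlt
    apply hn₂
    have e : p + dz κ.dir * ((n : ℤ) - 1) + dz (!κ.dir) * (n₂ : ℤ) =
        p + dz κ.dir * ((n - 1 - n₂ : ℕ) : ℤ) := by
      rw [dz_not, Nat.cast_sub (by omega), Nat.cast_sub (by omega)]; push_cast; ring
    rw [e]
    exact hblank _ (by omega)

theorem good_all (t : ℕ) : ∀ (κ : Kap S) (acc : C) (fg : ℤ → Fg S C) (p lo hi : ℤ)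
    (w : Cf A S C × ℤ × ℤ), Imm I dat ⟨.chk κ acc, fg, p⟩ →
    Vis κ.dir fg p lo → Vis κ.dir fg p hi →
    vr I dat t (⟨.chk κ acc, fg, p⟩, lo, hi) = some w →
    ∃ D', Good I dat D' (Set.Icc (w.2.1 + 5) (w.2.2 - 5)) := by
  induction t using Nat.strong_induction_on with
  | _ t ih =>
  intro κ acc fg p lo hi w himm hlo hhi hw
  by_cases hfin : ∃ n : ℕ, fg (p + dz κ.dir * n) ≠ .blank
  · -- finite zone
    classical
    obtain ⟨n, hnb, hbl⟩ : ∃ n : ℕ, fg (p + dz κ.dir * n) ≠ .blank ∧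
        ∀ j : ℕ, j < n → fg (p + dz κ.dir * j) = .blank :=
      ⟨Nat.find hfin, Nat.find_spec hfin, fun j hj => not_not.1 (Nat.find_min hfin hj)⟩
    obtain ⟨hg, κ₂, acc₂, fg₂, p₂, c', g1, g2, g3, g4, g5, g6⟩ :=
      big_step κ acc fg p n hbl hnb himm
    have hsub : zint κ.dir p (-1) (n + 1) ⊆ zint κ.dir p (-5) (n + 4) := by
      rintro x ⟨j, h1, h2, rfl⟩
      exact ⟨j, by omega, by omega, rfl⟩
    have hlo' : lo ∈ zint κ.dir p (-5) (n + 4) := by
      obtain ⟨j, h1, h2, h3⟩ := hlo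
      exact ⟨j, h1, h3 n hnb, h2⟩
    have hhi' : hi ∈ zint κ.dir p (-5) (n + 4) := by
      obtain ⟨j, h1, h2, h3⟩ := hhi
      exact ⟨j, h1, h3 n hnb, h2⟩
    obtain ⟨m, lo', hi', hm1, hm2, hm3⟩ := vr_RIn' hsub g1 g2 g3 lo hi hlo' hhi'
    by_cases htm : t ≤ m
    · refine ⟨κ.dir, hg.mono _ _ ?_⟩
      obtain ⟨⟨a, ha1, ha2, ha3⟩, ⟨b, hb1, hb2, hb3⟩⟩ := hm3 t htm w hw
      rintro x ⟨hx1, hx2⟩
      rw [ha3] at hx1
      rw [hb3] at hx2
      obtain h | h := dz_cases κ.dir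
      · rw [h] at hx1 hx2
        exact ⟨(x - p).toNat, by omega, by rw [h]; omega⟩
      · rw [h] at hx1 hx2
        exact ⟨(p - x).toNat, by omega, by rw [h]; omega⟩
    · obtain ⟨t', rfl⟩ : ∃ t', t = m + t' := ⟨t - m, by omega⟩
      rw [vr_add, hm2] at hw
      have hvis : ∀ x ∈ zint κ.dir p (-5) (n + 4), Vis κ₂.dir fg₂ p₂ x := fun x hx =>
        vis_step hbl g4 g5 (g6.imp id fun h => h.1) hx
      have hw2 := hm3 m le_rfl _ hm2
      exact ih t' (by omega) κ₂ acc₂ fg₂ p₂ lo' hi' w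
        ((himm.of_RIn (RIn.head g1 g2 g3))) (hvis _ hw2.1) (hvis _ hw2.2) hw
  · -- infinite zone
    simp only [not_exists, not_not] at hfin
    have hsub : zinf κ.dir p 0 ⊆ zinf κ.dir p (-5) := by
      rintro x ⟨j, h1, rfl⟩
      exact ⟨j, by omega, rfl⟩
    have hlo' : lo ∈ zinf κ.dir p (-5) := by
      obtain ⟨j, h1, h2, h3⟩ := hlo
      exact ⟨j, h1, h2⟩
    have hhi' : hi ∈ zinf κ.dir p (-5) := by
      obtain ⟨j, h1, h2, h3⟩ := hhi
      exact ⟨j, h1, h2⟩
    obtain ⟨n, lo', hi', hn, -, h3, -, -⟩ :=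
      inf_stage κ acc fg p hfin himm _ hsub lo hi hlo' hhi' t
    obtain ⟨⟨a, ha1, ha3⟩, ⟨b, hb1, hb3⟩⟩ := h3 t hn w hw
    refine ⟨κ.dir, (inf_good κ acc fg p hfin himm).mono _ _ ?_⟩
    rintro x ⟨hx1, hx2⟩
    rw [ha3] at hx1
    rw [hb3] at hx2
    obtain h | h := dz_cases κ.dir
    · rw [h] at hx1 hx2
      exact ⟨x - p, by omega, by rw [h]; omega⟩
    · rw [h] at hx1 hx2
      exact ⟨p - x, by omega, by rw [h]; omega⟩

/-! ### the visited interval grows -/

/-- an immortal search has arbitrarily long blank zones later on -/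
theorem grow (N : ℕ) : ∀ (κ : Kap S) (acc : C) (fg : ℤ → Fg S C) (p : ℤ),
    Imm I dat ⟨.chk κ acc, fg, p⟩ →
    ∃ (κ' : Kap S) (acc' : C) (fg' : ℤ → Fg S C) (p' : ℤ),
      RIn I dat Set.univ ⟨.chk κ acc, fg, p⟩ ⟨.chk κ' acc', fg', p'⟩ ∧
      ∀ j : ℕ, j < N → fg' (p' + dz κ'.dir * j) = .blank := by
  induction N with
  | zero => exact fun κ acc fg p _ => ⟨κ, acc, fg, p, RIn.refl, by simp⟩
  | succ N ih =>
    intro κ₀ acc₀ fg₀ p₀ himm₀
    obtain ⟨κ, acc, fg, p, hr, hbl⟩ := ih κ₀ acc₀ fg₀ p₀ himm₀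
    have himm := himm₀.of_RIn hr
    by_cases hfin : ∃ n : ℕ, fg (p + dz κ.dir * n) ≠ .blank
    swap
    · simp only [not_exists, not_not] at hfin
      exact ⟨κ, acc, fg, p, hr, fun j _ => hfin j⟩
    classical
    obtain ⟨n, hnb, hbl'⟩ : ∃ n : ℕ, fg (p + dz κ.dir * n) ≠ .blank ∧
        ∀ j : ℕ, j < n → fg (p + dz κ.dir * j) = .blank :=
      ⟨Nat.find hfin, Nat.find_spec hfin, fun j hj => not_not.1 (Nat.find_min hfin hj)⟩
    have hNn : N ≤ n := by
      by_contra h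
      exact hnb (hbl n (by omega))
    obtain ⟨-, κ₂, acc₂, fg₂, p₂, c', g1, g2, g3, g4, g5, g6⟩ :=
      big_step κ acc fg p n hbl' hnb himm
    have hr₂ : RIn I dat Set.univ ⟨.chk κ₀ acc₀, fg₀, p₀⟩ ⟨.chk κ₂ acc₂, fg₂, p₂⟩ :=
      hr.trans ((RIn.head g1 g2 g3).mono (Set.subset_univ _))
    have himm₂ := himm₀.of_RIn hr₂
    have hblank : ∀ i : ℕ, i < n → fg₂ (p + dz κ.dir * i) = .blank := by
      intro i hi
      rw [g5, hbl' i hi]
      · obtain h | h := dz_cases κ.dir <;> rw [h] <;> omega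
      · obtain h | h := dz_cases κ.dir <;> rw [h] <;> omega
    rcases g6 with ⟨rfl, hm⟩ | ⟨rfl, hmo, hcase⟩
    · refine ⟨κ₂, acc₂, fg₂, _, hr₂, ?_⟩
      intro j hj
      rcases Nat.eq_zero_or_pos j with rfl | hpos
      · simpa using hm
      · have e : p + dz κ.dir * (n : ℤ) + dz κ₂.dir * (j : ℤ) =
            p + dz κ.dir * ((n - j : ℕ) : ℤ) := by
          rw [g4, dz_not, Nat.cast_sub (by omega)]; ring
        rw [e]
        exact hblank _ (by omega)
    -- second macro step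
    by_cases hfin₂ : ∃ n₂ : ℕ, fg₂ (p + dz κ.dir * (n - 1) + dz κ₂.dir * n₂) ≠ .blank
    swap
    · simp only [not_exists, not_not] at hfin₂
      exact ⟨κ₂, acc₂, fg₂, _, hr₂, fun j _ => hfin₂ j⟩
    obtain ⟨n₂, hnb₂, hbl₂⟩ : ∃ n₂ : ℕ,
        fg₂ (p + dz κ.dir * (n - 1) + dz κ₂.dir * n₂) ≠ .blank ∧
        ∀ j : ℕ, j < n₂ → fg₂ (p + dz κ.dir * (n - 1) + dz κ₂.dir * j) = .blank :=
      ⟨Nat.find hfin₂, Nat.find_spec hfin₂, fun j hj => not_not.1 (Nat.find_min hfin₂ hj)⟩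
    have hnn : n ≤ n₂ := by
      by_contra h
      apply hnb₂
      have e : p + dz κ.dir * ((n : ℤ) - 1) + dz κ₂.dir * (n₂ : ℤ) =
          p + dz κ.dir * ((n - 1 - n₂ : ℕ) : ℤ) := by
        rw [g4, dz_not, Nat.cast_sub (by omega), Nat.cast_sub (by omega)]; push_cast; ring
      rw [e]
      exact hblank _ (by omega)
    obtain ⟨-, κ₃, acc₃, fg₃, p₃, c'', f1, f2, f3, f4, f5, f6⟩ :=
      big_step κ₂ acc₂ fg₂ _ n₂ hbl₂ hnb₂ himm₂
    have hr₃ : RIn I dat Set.univ ⟨.chk κ₀ acc₀, fg₀, p₀⟩ ⟨.chk κ₃ acc₃, fg₃, p₃⟩ :=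
      hr₂.trans ((RIn.head f1 f2 f3).mono (Set.subset_univ _))
    have hblank₃ : ∀ i : ℕ, i < n₂ →
        fg₃ (p + dz κ.dir * (n - 1) + dz κ₂.dir * i) = .blank := by
      intro i hi
      rw [f5, hbl₂ i hi]
      · obtain h | h := dz_cases κ₂.dir <;> rw [h] <;> omega
      · obtain h | h := dz_cases κ₂.dir <;> rw [h] <;> omega
    have f4' : κ₃.dir = κ.dir := by rw [f4, g4, Bool.not_not]
    refine ⟨κ₃, acc₃, fg₃, p₃, hr₃, ?_⟩
    rcases f6 with ⟨rfl, hm₃⟩ | ⟨rfl, hmo₃, hcase₃⟩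
    · intro j hj
      rcases Nat.eq_zero_or_pos j with rfl | hpos
      · simpa using hm₃
      · have e : p + dz κ.dir * ((n : ℤ) - 1) + dz κ₂.dir * (n₂ : ℤ) + dz κ₃.dir * (j : ℤ) =
            p + dz κ.dir * (n - 1) + dz κ₂.dir * ((n₂ - j : ℕ) : ℤ) := by
          rw [f4', g4, dz_not, Nat.cast_sub (by omega)]; ring
        rw [e]
        exact hblank₃ _ (by omega)
    · have hm : fg₂ (p + dz κ.dir * n) = .blank := by
        rcases hcase with h | h
        · exact absurd h hmo₃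
        · exact h
      intro j hj
      by_cases hjn : j < n₂
      · have e : p + dz κ.dir * ((n : ℤ) - 1) + dz κ₂.dir * ((n₂ : ℤ) - 1) + dz κ₃.dir * (j : ℤ) =
            p + dz κ.dir * (n - 1) + dz κ₂.dir * ((n₂ - 1 - j : ℕ) : ℤ) := by
          rw [f4', g4, dz_not, Nat.cast_sub (by omega), Nat.cast_sub (by omega)]; push_cast; ring
        rw [e]
        exact hblank₃ _ (by omega)
      · have hj' : j = n₂ := by omega
        subst hj'
        have e : p + dz κ.dir * ((n : ℤ) - 1) + dz κ₂.dir * ((j : ℤ) - 1) + dz κ₃.dir * (j : ℤ) =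
            p + dz κ.dir * n := by
          rw [f4', g4, dz_not]; ring
        rw [e, f5, hm]
        · rw [g4, dz_not]
          obtain h | h := dz_cases κ.dir <;> rw [h] <;> omega
        · rw [g4, dz_not]
          obtain h | h := dz_cases κ.dir <;> rw [h] <;> omega

theorem vr_mono (n : ℕ) : ∀ (c : Cf A S C) (lo hi : ℤ) (w : Cf A S C × ℤ × ℤ),
    vr I dat n (c, lo, hi) = some w → lo ≤ c.p → c.p ≤ hi →
    w.2.1 ≤ lo ∧ hi ≤ w.2.2 ∧ w.2.1 ≤ w.1.p ∧ w.1.p ≤ w.2.2 := by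
  induction n with
  | zero =>
    intro c lo hi w hw h1 h2
    simp only [vr, Option.some.injEq] at hw
    subst hw
    exact ⟨le_rfl, le_rfl, h1, h2⟩
  | succ n ih =>
    intro c lo hi w hw h1 h2
    rw [vr] at hw
    cases h : stp I dat c with
    | none => simp [vs, h] at hw
    | some c' =>
      rw [vs_of_stp h] at hw
      obtain ⟨g1, g2, g3, g4⟩ := ih c' _ _ w hw (min_le_right _ _) (le_max_right _ _)
      exact ⟨g1.trans (min_le_left _ _), (le_max_left _ _).trans g2, g3, g4⟩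

/-- the visited interval becomes arbitrarily long (search states) -/
theorem grow_vis (N : ℕ) (κ : Kap S) (acc : C) (fg : ℤ → Fg S C) (p lo hi : ℤ)
    (himm : Imm I dat ⟨.chk κ acc, fg, p⟩) (hlo : lo ≤ p) (hhi : p ≤ hi) :
    ∃ t w, vr I dat t (⟨.chk κ acc, fg, p⟩, lo, hi) = some w ∧ (N : ℤ) ≤ w.2.2 - w.2.1 := by
  obtain ⟨κ', acc', fg', p', hr, hbl⟩ := grow (N + 2) κ acc fg p himm
  obtain ⟨n, lo', hi', h1, -⟩ := vr_RIn (W := Set.univ) le_rfl hr lo hi trivial trivial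
  have hmono := vr_mono n _ _ _ _ h1 hlo hhi
  have himm' := himm.of_RIn hr
  have hb0 : fg' p' = .blank := by simpa using hbl 0 (by omega)
  have hb1 : fg' (p' + dz κ'.dir) = .blank := by simpa using hbl 1 (by omega)
  have r1 : RIn I dat Set.univ ⟨.chk κ' acc', fg', p'⟩ (stage I dat κ' acc' fg' p' 0) :=
    start_child κ' acc' fg' p' _ hb0 hb1 trivial trivial
  rcases stages κ' acc' fg' p' (N + 2) (fun m _ => search (I := I) (dat := dat) m) hbl N le_rfl
    with ⟨r2, -⟩ | ⟨h, -⟩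
  swap
  · exact absurd h (himm'.of_RIn r1).not_HIn
  rcases stage_read κ' acc' fg' p' N (search _) (fun j _ hj => hbl j (by omega)) with
    ⟨r3, -⟩ | ⟨h, -⟩
  swap
  · exact absurd h ((himm'.of_RIn r1).of_RIn r2).not_HIn
  have r4 := (r1.trans (r2.mono (Set.subset_univ _))).trans (r3.mono (Set.subset_univ _))
  obtain ⟨n', lo'', hi'', h2, -⟩ := vr_RIn (W := Set.univ) le_rfl r4 lo' hi' trivial trivial
  have hmono' := vr_mono n' _ _ _ _ h2 hmono.2.2.1 hmono.2.2.2
  refine ⟨n + n', _, by rw [vr_add, h1]; exact h2, ?_⟩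
  simp only at hmono hmono' ⊢
  obtain h | h := dz_cases κ'.dir <;> rw [h] at hmono' <;> omega

/-! ### arbitrary initial states -/

theorem stp_near {c c' : Cf A S C} (h : stp I dat c = some c') :
    c'.p ≤ c.p + 1 ∧ c.p - 1 ≤ c'.p := by
  simp only [stp, Option.map_eq_some_iff] at h
  obtain ⟨r, -, rfl⟩ := h
  obtain ⟨q, f, s⟩ := r
  cases s <;> simp <;> omega

theorem vr_near (n : ℕ) : ∀ (c : Cf A S C) (lo hi a : ℤ) (w : Cf A S C × ℤ × ℤ),
    vr I dat n (c, lo, hi) = some w → c.p - a ≤ lo → hi ≤ c.p + a → 0 ≤ a →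
    w.1.p - (a + n) ≤ w.2.1 ∧ w.2.2 ≤ w.1.p + (a + n) := by
  induction n with
  | zero =>
    intro c lo hi a w hw h1 h2 h0
    simp only [vr, Option.some.injEq] at hw
    subst hw
    simp only [Nat.cast_zero, add_zero]
    exact ⟨h1, h2⟩
  | succ n ih =>
    intro c lo hi a w hw h1 h2 h0
    rw [vr] at hw
    cases h : stp I dat c with
    | none => simp [vs, h] at hw
    | some c' =>
      rw [vs_of_stp h] at hw
      have hn := stp_near h
      obtain ⟨g1, g2⟩ := ih c' _ _ (a + 1) w hw (by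
        rcases min_choice lo c'.p with h | h <;> rw [h] <;> omega) (by
        rcases max_choice hi c'.p with h | h <;> rw [h] <;> omega) (by omega)
      push_cast
      constructor <;> omega

/-- an immortal configuration is in a search state after at most two steps -/
theorem to_chk (c : Cf A S C) (himm : Imm I dat c) :
    ∃ n ≤ 2, ∀ lo hi, ∃ (κ : Kap S) (acc : C) (fg : ℤ → Fg S C) (p lo' hi' : ℤ),
      vr I dat n (c, lo, hi) = some (⟨.chk κ acc, fg, p⟩, lo', hi') ∧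
      Imm I dat ⟨.chk κ acc, fg, p⟩ := by
  have hns : ∀ c : Cf A S C, Imm I dat c → stp I dat c ≠ none := fun c hi h => hi (HIn.now h)
  -- one step cases
  have hwr : ∀ (κ : Kap S) (acc : C) (fg : ℤ → Fg S C) (p : ℤ), Imm I dat ⟨.wr κ acc, fg, p⟩ →
      ∃ κ' acc' fg' p', stp I dat ⟨.wr κ acc, fg, p⟩ = some ⟨.chk κ' acc', fg', p'⟩ := by
    intro κ acc fg p hi
    cases hf : fg p with
    | blank => exact ⟨_, _, _, _, step_wr_blank hf⟩
    | x D => exact absurd (by simp [stp, hf, tr]) (hns _ hi)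
    | ret κ' acc' => exact absurd (by simp [stp, hf, tr]) (hns _ hi)
  have her : ∀ (D : Bool) (m : Mode) (s : S) (fg : ℤ → Fg S C) (p : ℤ),
      Imm I dat ⟨.er D m s, fg, p⟩ →
      ∃ κ' acc' fg' p', stp I dat ⟨.er D m s, fg, p⟩ = some ⟨.chk κ' acc', fg', p'⟩ := by
    intro D m s fg p hi
    cases hf : fg p with
    | blank => exact absurd (by simp [stp, hf, tr]) (hns _ hi)
    | x D' =>
      by_cases hD : D' = D
      · subst hD
        exact ⟨_, _, _, _, step_er hf⟩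
      · exact absurd (by simp [stp, hf, tr, hD]) (hns _ hi)
    | ret κ' acc' => exact absurd (by simp [stp, hf, tr]) (hns _ hi)
  have himmstep : ∀ {c c' : Cf A S C}, Imm I dat c → stp I dat c = some c' → Imm I dat c' :=
    fun hi h => hi.of_RIn (RIn.head (Z := Set.univ) h trivial RIn.refl)
  obtain ⟨q, fg, p⟩ := c
  cases q with
  | chk κ acc => exact ⟨0, by omega, fun lo hi => ⟨κ, acc, fg, p, lo, hi, rfl, himm⟩⟩
  | wr κ acc =>
    obtain ⟨κ', acc', fg', p', h⟩ := hwr κ acc fg p himm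
    exact ⟨1, by omega, fun lo hi => ⟨κ', acc', fg', p', _, _,
      by simp only [vr, vs_of_stp h, Option.bind_some]; rfl, himmstep himm h⟩⟩
  | er D m s =>
    obtain ⟨κ', acc', fg', p', h⟩ := her D m s fg p himm
    exact ⟨1, by omega, fun lo hi => ⟨κ', acc', fg', p', _, _,
      by simp only [vr, vs_of_stp h, Option.bind_some]; rfl, himmstep himm h⟩⟩
  | look κ acc a =>
    by_cases hf : fg p = .blank
    · have h1 := step_look_blank (I := I) (dat := dat) (κ := κ) (acc := acc) (a := a) hf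
      have i1 := himmstep himm h1
      obtain ⟨κ', acc', fg', p', h⟩ := hwr _ _ _ _ i1
      exact ⟨2, by omega, fun lo hi => ⟨κ', acc', fg', p', _, _,
        by simp only [vr, vs_of_stp h1, vs_of_stp h, Option.bind_some]; rfl, himmstep i1 h⟩⟩
    · have h := step_look_nonblank (I := I) (dat := dat) (κ := κ) (acc := acc) (a := a) hf
      exact ⟨1, by omega, fun lo hi => ⟨κ, _, fg, p, _, _,
        by simp only [vr, vs_of_stp h, Option.bind_some]; rfl, himmstep himm h⟩⟩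
  | ext D s =>
    by_cases hf : fg p = .blank
    · have h1 := step_ext_blank (I := I) (dat := dat) (D := D) (s := s) hf
      have i1 := himmstep himm h1
      obtain ⟨κ', acc', fg', p', h⟩ := her _ _ _ _ _ i1
      exact ⟨2, by omega, fun lo hi => ⟨κ', acc', fg', p', _, _,
        by simp only [vr, vs_of_stp h1, vs_of_stp h, Option.bind_some]; rfl, himmstep i1 h⟩⟩
    · have h1 := step_ext_nonblank (I := I) (dat := dat) (D := D) (s := s) hf
      have i1 := himmstep himm h1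
      obtain ⟨κ', acc', fg', p', h⟩ := her _ _ _ _ _ i1
      exact ⟨2, by omega, fun lo hi => ⟨κ', acc', fg', p', _, _,
        by simp only [vr, vs_of_stp h1, vs_of_stp h, Option.bind_some]; rfl, himmstep i1 h⟩⟩

/-- MAIN 1: the visited interval of an immortal configuration, shrunk by 5 on both sides,
is good in one of the two directions -/
theorem vis_good (c : Cf A S C) (himm : Imm I dat c) (t : ℕ) (w : Cf A S C × ℤ × ℤ)
    (hw : vr I dat t (c, c.p, c.p) = some w) :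
    ∃ D', Good I dat D' (Set.Icc (w.2.1 + 5) (w.2.2 - 5)) := by
  obtain ⟨n, hn, h⟩ := to_chk c himm
  obtain ⟨κ, acc, fg, p, lo', hi', h1, h2⟩ := h c.p c.p
  have hnear := fun m w' hw' => vr_near (I := I) (dat := dat) m c c.p c.p 0 w' hw' (by omega)
    (by omega) le_rfl
  by_cases ht : t ≤ n
  · have hb := hnear t w hw
    refine ⟨true, ?_⟩
    intro x hx
    have h3 := hx.1
    have h4 := hx.2
    exfalso
    omega
  · obtain ⟨t', rfl⟩ : ∃ t', t = n + t' := ⟨t - n, by omega⟩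
    rw [vr_add, h1] at hw
    have hb := hnear n _ h1
    have hm := vr_mono n _ _ _ _ h1 le_rfl le_rfl
    simp only [zero_add] at hb hm
    have hvis : ∀ x : ℤ, p - 2 ≤ x → x ≤ p + 2 → Vis κ.dir fg p x := by
      intro x hx1 hx2
      refine ⟨dz κ.dir * (x - p), ?_, ?_, ?_⟩
      · obtain h | h := dz_cases κ.dir <;> rw [h] <;> omega
      · obtain h | h := dz_cases κ.dir <;> rw [h] <;> ring
      · intro n _
        obtain h | h := dz_cases κ.dir <;> rw [h] <;> omega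
    exact good_all t' κ acc fg p lo' hi' w h2 (hvis _ (by omega) (by omega))
      (hvis _ (by omega) (by omega)) hw

/-- MAIN 2: the visited interval of an immortal configuration grows beyond all bounds -/
theorem vis_grow (c : Cf A S C) (himm : Imm I dat c) (N : ℕ) :
    ∃ t w, vr I dat t (c, c.p, c.p) = some w ∧ (N : ℤ) ≤ w.2.2 - w.2.1 := by
  obtain ⟨n, hn, h⟩ := to_chk c himm
  obtain ⟨κ, acc, fg, p, lo', hi', h1, h2⟩ := h c.p c.p
  have hm := vr_mono n _ _ _ _ h1 le_rfl le_rfl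
  obtain ⟨t, w, h3, h4⟩ := grow_vis N κ acc fg p lo' hi' h2 hm.2.2.1 hm.2.2.2
  exact ⟨n + t, w, by rw [vr_add, h1]; exact h3, h4⟩

end Pool.Agent.Helper76.Med
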