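import Pool.Agent.Helper76.MedDefs

/-!
Transitivity of Medvedev reducibility (handoff 17 of MP_4596be_lc, written by helper35).
-/

namespace Pool.Agent.Helper76.Med

/-- A functional which is never wrong and eventually defined on the initial segments of `y`
maps `y` to `x`. -/
theorem Maps.of_weak {α β : Type} {ψ : List α × ℕ → Option β} {y : ℕ → α} {x : ℕ → β}
    (h1 : ∀ n k, ψ (seg y k, n) = none ∨ ψ (seg y k, n) = some (x n))
    (h2 : ∀ n, ∃ k, ψ (seg y k, n) = some (x n)) : Maps ψ y x := by
  classical
  intro n
  exact ⟨Nat.find (h2 n), Nat.find_spec (h2 n),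
    fun j hj => (h1 n j).resolve_right (Nat.find_min (h2 n) hj)⟩

theorem length_seg {α : Type} (x : ℕ → α) (k : ℕ) : (seg x k).length = k := by
  simp [seg]

theorem seg_succ {α : Type} (x : ℕ → α) (k : ℕ) : seg x (k + 1) = seg x k ++ [x k] := by
  simp [seg, List.range_succ]

theorem take_seg {α : Type} (x : ℕ → α) {j k : ℕ} (h : j ≤ k) : (seg x k).take j = seg x j := by
  apply List.ext_getElem
  · simp [seg, h]
  · intro i h1 h2
    simp [seg]

section
variable {α β γ : Type}

/-- first defined value of `φ (·, n)` along the initial segments of `σ` of length `≤ j` -/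
def hat (φ : List α × ℕ → Option β) (σ : List α) (n : ℕ) (j : ℕ) : Option β :=
  Nat.rec (φ (σ.take 0, n)) (fun i acc => acc <|> φ (σ.take (i + 1), n)) j

theorem hat_succ (φ : List α × ℕ → Option β) (σ : List α) (n j : ℕ) :
    hat φ σ n (j + 1) = (hat φ σ n j <|> φ (σ.take (j + 1), n)) := rfl

/-- the list of the values computed from the initial segment `σ`, at most `m` of them -/
def pre (φ : List α × ℕ → Option β) (σ : List α) (m : ℕ) : List β :=
  Nat.rec [] (fun i acc =>
    if acc.length = i then Option.casesOn (hat φ σ i σ.length) acc (fun v => acc ++ [v])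
    else acc) m

theorem pre_succ (φ : List α × ℕ → Option β) (σ : List α) (m : ℕ) :
    pre φ σ (m + 1) = if (pre φ σ m).length = m then
      Option.casesOn (hat φ σ m σ.length) (pre φ σ m) (fun v => pre φ σ m ++ [v])
      else pre φ σ m := rfl

theorem hat_seg {φ : List α × ℕ → Option β} {y : ℕ → α} {x : ℕ → β} {n k : ℕ}
    (hk : φ (seg y k, n) = some (x n)) (hj : ∀ j < k, φ (seg y j, n) = none) (K : ℕ) :
    ∀ j ≤ K, hat φ (seg y K) n j = if k ≤ j then some (x n) else none := by
  intro j
  induction j with
  | zero =>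
    intro _
    have : hat φ (seg y K) n 0 = φ (seg y 0, n) := by
      change φ ((seg y K).take 0, n) = _
      rw [take_seg y (Nat.zero_le K)]
    rw [this]
    split
    · rename_i h
      have : k = 0 := by omega
      subst this
      exact hk
    · rename_i h
      exact hj 0 (by omega)
  | succ j ih =>
    intro hjK
    rw [hat_succ, ih (by omega), take_seg y hjK]
    by_cases h1 : k ≤ j
    · rw [if_pos h1, if_pos (by omega)]
      rfl
    · rw [if_neg h1]
      by_cases h2 : k ≤ j + 1
      · have : k = j + 1 := by omega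
        subst this
        rw [if_pos le_rfl, hk]
        rfl
      · rw [if_neg h2, hj (j + 1) (by omega)]
        rfl

theorem pre_seg {φ : List α × ℕ → Option β} {z : ℕ → α} {y : ℕ → β} (h : Maps φ z y) (K m₀ : ℕ)
    (hm₀ : ∀ i < m₀, ∃ k ≤ K, φ (seg z k, i) = some (y i)) (m : ℕ) :
    ∃ l ≤ m, pre φ (seg z K) m = seg y l ∧ (m ≤ m₀ → l = m) ∧ (m₀ ≤ m → m₀ ≤ l) := by
  induction m with
  | zero => exact ⟨0, le_rfl, rfl, fun _ => rfl, fun h => h⟩
  | succ m ih =>
    obtain ⟨l, hl, h1, h2, h3⟩ := ih
    rw [pre_succ, h1, length_seg, length_seg]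
    by_cases hlm : l = m
    · subst hlm
      rw [if_pos rfl]
      obtain ⟨k, hk, hkj⟩ := h l
      rw [hat_seg hk hkj K K le_rfl]
      by_cases hkK : k ≤ K
      · rw [if_pos hkK]
        exact ⟨l + 1, le_rfl, (seg_succ y l).symm, fun _ => rfl, fun h => h⟩
      · rw [if_neg hkK]
        refine ⟨l, by omega, rfl, fun h4 => ?_, fun h4 => ?_⟩
        · exfalso
          obtain ⟨k', hk', hk''⟩ := hm₀ l (by omega)
          rcases lt_or_ge k' k with hlt | hge
          · rw [hkj k' hlt] at hk''
            exact absurd hk'' (by simp)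
          · omega
        · by_contra h5
          obtain ⟨k', hk', hk''⟩ := hm₀ l (by omega)
          rcases lt_or_ge k' k with hlt | hge
          · rw [hkj k' hlt] at hk''
            exact absurd hk'' (by simp)
          · omega
    · rw [if_neg hlm]
      refine ⟨l, by omega, rfl, fun h4 => ?_, fun h4 => ?_⟩
      · exact absurd (h2 (by omega)) hlm
      · by_cases h5 : m₀ ≤ m
        · exact h3 h5
        · exact absurd (h2 (by omega)) hlm

end

section
variable {α β γ : Type} [Primcodable α] [Primcodable β] [Primcodable γ]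

theorem computable_hat {δ : Type} [Primcodable δ] {φ : List α × ℕ → Option β} (hφ : Computable φ)
    {f : δ → List α} {g : δ → ℕ} (hf : Computable f) (hg : Computable g) :
    Computable fun d => hat φ (f d) (g d) (f d).length := by
  have h1 : Computable fun d => φ ((f d).take 0, g d) :=
    hφ.comp (Computable.pair (Primrec.list_take.to_comp.comp (Computable.const 0) hf) hg)
  have h2 : Computable₂ fun (d : δ) (p : ℕ × Option β) =>
      (p.2 <|> φ ((f d).take (p.1 + 1), g d)) := by
    have h3 : Computable fun q : δ × (ℕ × Option β) => φ ((f q.1).take (q.2.1 + 1), g q.1) :=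
      hφ.comp (Computable.pair (Primrec.list_take.to_comp.comp
        (Computable.succ.comp (Computable.fst.comp Computable.snd)) (hf.comp Computable.fst))
        (hg.comp Computable.fst))
    exact (Primrec.option_orElse.to_comp.comp (Computable.snd.comp Computable.snd) h3)
  exact Computable.nat_rec (Computable.list_length.comp hf) h1 h2

theorem computable_pre {δ : Type} [Primcodable δ] {φ : List α × ℕ → Option β} (hφ : Computable φ)
    {f : δ → List α} (hf : Computable f) :
    Computable fun d => pre φ (f d) (f d).length := by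
  have h2 : Computable₂ fun (d : δ) (p : ℕ × List β) =>
      (if p.2.length = p.1 then
        (Option.casesOn (hat φ (f d) p.1 (f d).length) p.2 (fun v => p.2 ++ [v]) : List β)
        else p.2) := by
    have h3 : Computable fun q : δ × (ℕ × List β) => hat φ (f q.1) q.2.1 (f q.1).length :=
      computable_hat hφ (hf.comp Computable.fst) (Computable.fst.comp Computable.snd)
    have h4 : Computable fun q : δ × (ℕ × List β) =>
        (Option.casesOn (hat φ (f q.1) q.2.1 (f q.1).length) q.2.2 (fun v => q.2.2 ++ [v]) :
          List β) :=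
      Computable.option_casesOn h3 (Computable.snd.comp Computable.snd)
        (Primrec.list_concat.to_comp.comp
          (Computable.snd.comp (Computable.snd.comp Computable.fst)) Computable.snd)
    have h5 : Computable fun q : δ × (ℕ × List β) => decide (q.2.2.length = q.2.1) :=
      (PrimrecPred.comp (p := fun r : ℕ × ℕ => r.1 = r.2) Primrec.eq
        (f := fun q : δ × (ℕ × List β) => (q.2.2.length, q.2.1))
        ((Primrec.list_length.comp (Primrec.snd.comp Primrec.snd)).pair
          (Primrec.fst.comp Primrec.snd))).decide.to_comp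
    refine (Computable.cond h5 h4 (Computable.snd.comp Computable.snd)).of_eq fun q => ?_
    by_cases h : q.2.2.length = q.2.1 <;> simp [h]
  exact Computable.nat_rec (Computable.list_length.comp hf) (Computable.const []) h2

/-- Medvedev reducibility is transitive. -/
theorem MedLE.trans {P : Set (ℕ → γ)} {Q : Set (ℕ → β)} {R : Set (ℕ → α)} :
    MedLE P Q → MedLE Q R → MedLE P R := by
  rintro ⟨φ₁, hφ₁, h₁⟩ ⟨φ₂, hφ₂, h₂⟩
  refine ⟨fun p => hat φ₁ (pre φ₂ p.1 p.1.length) p.2 (pre φ₂ p.1 p.1.length).length, ?_, ?_⟩
  · exact computable_hat hφ₁ (computable_pre hφ₂ Computable.fst) Computable.snd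
  · intro z hz
    obtain ⟨y, hy, hzy⟩ := h₂ z hz
    obtain ⟨x, hx, hyx⟩ := h₁ y hy
    refine ⟨x, hx, Maps.of_weak ?_ ?_⟩
    · intro n K
      obtain ⟨l, hl, h1, -, -⟩ := pre_seg hzy K 0 (by simp) K
      obtain ⟨k, hk, hkj⟩ := hyx n
      simp only [length_seg, h1]
      rw [hat_seg hk hkj l l le_rfl]
      split
      · right; rfl
      · left; rfl
    · intro n
      obtain ⟨k, hk, hkj⟩ := hyx n
      have hzy' := hzy
      choose kk hkk _ using hzy
      let K : ℕ := k + (Finset.range k).sup kk
      have hK : ∀ i < k, kk i ≤ K := fun i hi =>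
        (Finset.le_sup (f := kk) (Finset.mem_range.2 hi)).trans (Nat.le_add_left _ _)
      obtain ⟨l, hl, h1, -, h3⟩ := pre_seg hzy' K k
        (fun i hi => ⟨kk i, hK i hi, hkk i⟩) K
      refine ⟨K, ?_⟩
      simp only [length_seg, h1]
      rw [hat_seg hk hkj l l le_rfl, if_pos (h3 (Nat.le_add_right _ _))]

end

end Pool.Agent.Helper76.Med
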