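import Mathlib
import Pool.Agent.Helper76.MedInterface
import Pool.Agent.Helper76.MedTrans

/-!
Module 2 of MP_4596be_lc (handoff 17, written by helper35): simulation of a Turing machine on the
code of a configuration, by a zipper.
-/

namespace Pool.Agent.Helper76.Med

namespace Mod2

/-! ### Immortal configurations and `vrun` -/

section
variable {Q S : Type} (δ : Q → S → Option (Q × S × SignType))

theorem iterate_eq_vrun (c : Q × (ℤ → S)) (n : ℕ) :
    ((fun o => Option.bind o (step δ))^[n] (some c)) =
      (vrun δ ⟨c.1, c.2, 0⟩ n).map fun v => (v.1.q, fun i => v.1.tape (i + v.1.pos)) := by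
  induction n with
  | zero => simp [vrun]
  | succ n ih =>
    rw [Function.iterate_succ_apply', ih, vrun]
    cases h : vrun δ ⟨c.1, c.2, 0⟩ n with
    | none => rfl
    | some v =>
      simp only [Option.map_some, Option.bind_some, step, astep, Option.map_map, zero_add]
      congr 1
      funext r
      simp only [Function.comp_apply, Prod.mk.injEq, true_and]
      funext i
      simp only [Function.update_apply]
      by_cases hi : i + (r.2.2 : ℤ) = 0
      · rw [if_pos hi, if_pos (by omega)]
      · rw [if_neg hi, if_neg (by intro h; apply hi; omega)]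
        congr 1
        ring

theorem vrun_isSome {c : Q × (ℤ → S)} (hc : c ∈ immortal δ) (n : ℕ) :
    ∃ v, vrun δ ⟨c.1, c.2, 0⟩ n = some v := by
  have h := hc n
  rw [iterate_eq_vrun, Option.isSome_map] at h
  exact Option.isSome_iff_exists.1 h

end

/-! ### The simulation -/

variable {nq ns : ℕ}

/-- state, cells to the left, current cell, cells to the right, numbers of cells fetched on the
left and on the right -/
abbrev St (nq ns : ℕ) := Fin nq × List (Fin ns) × Fin ns × List (Fin ns) × ℕ × ℕ

/-- search in a constant list -/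
def look (L : List (Fin ns)) (p : Fin ns → Bool) : Option (Fin ns) := L.find? p

/-- the symbol of the cell number `i` according to the prefix `σ` -/
def fetch (ns : ℕ) (σ : List Bool) (i : ℕ) : Option (Fin ns) :=
  (List.finRange ns).find? fun j => σ.getD (2 * Nat.pair i j + 1) false

/-- the state according to the prefix `σ` -/
def fetchQ (nq : ℕ) (σ : List Bool) : Option (Fin nq) :=
  (List.finRange nq).find? fun j => σ.getD (2 * j) false

/-- initial state of the simulation -/
def ini (nq ns : ℕ) (σ : List Bool) : Option (St nq ns) :=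
  (fetchQ nq σ).bind fun q => (fetch ns σ 0).map fun a => (q, [], a, [], 0, 0)

/-- coding of the moves by numbers -/
def mv : SignType → ℕ
  | SignType.zero => 0
  | SignType.pos => 1
  | SignType.neg => 2

/-- the transition function with numbers for the moves -/
def tab (δ : Fin nq → Fin ns → Option (Fin nq × Fin ns × SignType)) (p : Fin nq × Fin ns) :
    Option (Fin nq × Fin ns × ℕ) :=
  (δ p.1 p.2).map fun r => (r.1, r.2.1, mv r.2.2)

/-- one step, after the lookup in the table -/
def st1 (σ : List Bool) (s : St nq ns) (r : Fin nq × Fin ns × ℕ) : Option (St nq ns) :=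
  if r.2.2 = 0 then some (r.1, s.2.1, r.2.1, s.2.2.2.1, s.2.2.2.2.1, s.2.2.2.2.2)
  else if r.2.2 = 1 then
    Option.casesOn s.2.2.2.1.head?
      ((fetch ns σ (2 * (s.2.2.2.2.2 + 1))).map fun a =>
        (r.1, r.2.1 :: s.2.1, a, [], s.2.2.2.2.1, s.2.2.2.2.2 + 1))
      (fun a => some (r.1, r.2.1 :: s.2.1, a, s.2.2.2.1.tail, s.2.2.2.2.1, s.2.2.2.2.2))
  else
    Option.casesOn s.2.1.head?
      ((fetch ns σ (2 * s.2.2.2.2.1 + 1)).map fun a =>
        (r.1, [], a, r.2.1 :: s.2.2.2.1, s.2.2.2.2.1 + 1, s.2.2.2.2.2))
      (fun a => some (r.1, s.2.1.tail, a, r.2.1 :: s.2.2.2.1, s.2.2.2.2.1, s.2.2.2.2.2))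

/-- one step of the simulation, if possible -/
def st2 (δ : Fin nq → Fin ns → Option (Fin nq × Fin ns × SignType)) (σ : List Bool)
    (s : St nq ns) : Option (St nq ns) :=
  (tab δ (s.1, s.2.2.1)).bind fun r => st1 σ s r

/-- `n` steps of the simulation -/
def iter (δ : Fin nq → Fin ns → Option (Fin nq × Fin ns × SignType)) (σ : List Bool) (n : ℕ) :
    Option (St nq ns) :=
  Nat.rec (ini nq ns σ) (fun _ o => o.map fun s => (st2 δ σ s).getD s) n

/-- the output -/
def out (s : St nq ns) : List (Fin ns) := s.2.1.reverse ++ s.2.2.1 :: s.2.2.2.1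

/-- the simulation -/
def sim (δ : Fin nq → Fin ns → Option (Fin nq × Fin ns × SignType)) (σ : List Bool) :
    List (Fin ns) :=
  ((iter δ σ σ.length).map out).getD []

/-! ### Computability -/

theorem primrec_find {α β : Type} [Primcodable α] [Primcodable β] (L : List β) (p : α → β → Bool)
    (hp : ∀ j ∈ L, Primrec fun a => p a j) : Primrec fun a => L.find? (p a) := by
  induction L with
  | nil => simpa using Primrec.const none
  | cons j L ih =>
    have h1 : Primrec fun a => p a j := hp j (by simp)
    have h2 := ih fun i hi => hp i (by simp [hi])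
    refine (Primrec.cond h1 (Primrec.const (some j)) h2).of_eq fun a => ?_
    cases h : p a j <;> simp [h]

theorem primrec_fetch {α : Type} [Primcodable α] {f : α → List Bool} {g : α → ℕ}
    (hf : Primrec f) (hg : Primrec g) : Primrec fun a => fetch ns (f a) (g a) := by
  apply primrec_find
  intro j _
  exact (Primrec.list_getD false).comp hf (Primrec.nat_double_succ.comp
    (Primrec₂.natPair.comp hg (Primrec.const _)))

theorem primrec_fetchQ {α : Type} [Primcodable α] {f : α → List Bool}
    (hf : Primrec f) : Primrec fun a => fetchQ nq (f a) := by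
  apply primrec_find
  intro j _
  exact (Primrec.list_getD false).comp hf (Primrec.const _)

theorem primrec_ini {α : Type} [Primcodable α] {f : α → List Bool}
    (hf : Primrec f) : Primrec fun a => ini nq ns (f a) := by
  refine Primrec.option_bind (primrec_fetchQ hf) ?_
  refine Primrec.option_map (primrec_fetch (hf.comp Primrec.fst) (Primrec.const 0)) ?_
  exact ((Primrec.snd.comp Primrec.fst).pair ((Primrec.const []).pair (Primrec.snd.pair
    ((Primrec.const []).pair ((Primrec.const 0).pair (Primrec.const 0))))))

theorem primrec_st1 : Primrec fun x : (List Bool × St nq ns) × (Fin nq × Fin ns × ℕ) =>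
    st1 x.1.1 x.1.2 x.2 := by
  have hσ : Primrec fun x : (List Bool × St nq ns) × (Fin nq × Fin ns × ℕ) => x.1.1 :=
    Primrec.fst.comp Primrec.fst
  have hs : Primrec fun x : (List Bool × St nq ns) × (Fin nq × Fin ns × ℕ) => x.1.2 :=
    Primrec.snd.comp Primrec.fst
  have hr : Primrec fun x : (List Bool × St nq ns) × (Fin nq × Fin ns × ℕ) => x.2 := Primrec.snd
  have hr1 := Primrec.fst.comp hr
  have hr2 := Primrec.fst.comp (Primrec.snd.comp hr)
  have hr3 := Primrec.snd.comp (Primrec.snd.comp hr)
  have hL := Primrec.fst.comp (Primrec.snd.comp hs)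
  have hR := Primrec.fst.comp (Primrec.snd.comp (Primrec.snd.comp (Primrec.snd.comp hs)))
  have hl := Primrec.fst.comp (Primrec.snd.comp (Primrec.snd.comp (Primrec.snd.comp
    (Primrec.snd.comp hs))))
  have hh := Primrec.snd.comp (Primrec.snd.comp (Primrec.snd.comp (Primrec.snd.comp
    (Primrec.snd.comp hs))))
  unfold st1
  refine Primrec.ite (Primrec.eq.comp hr3 (Primrec.const 0)) ?_
    (Primrec.ite (Primrec.eq.comp hr3 (Primrec.const 1)) ?_ ?_)
  · exact Primrec.option_some.comp (hr1.pair (hL.pair (hr2.pair (hR.pair (hl.pair hh)))))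
  · refine Primrec.option_casesOn (Primrec.list_head?.comp hR) ?_ ?_
    · refine Primrec.option_map (primrec_fetch hσ
        (Primrec.nat_double.comp (Primrec.succ.comp hh))) ?_
      exact ((hr1.comp Primrec.fst).pair ((Primrec.list_cons.comp (hr2.comp Primrec.fst)
        (hL.comp Primrec.fst)).pair (Primrec.snd.pair ((Primrec.const []).pair
        ((hl.comp Primrec.fst).pair (Primrec.succ.comp (hh.comp Primrec.fst)))))))
    · exact (Primrec.option_some.comp ((hr1.comp Primrec.fst).pair
        ((Primrec.list_cons.comp (hr2.comp Primrec.fst)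
        (hL.comp Primrec.fst)).pair (Primrec.snd.pair
        ((Primrec.list_tail.comp (hR.comp Primrec.fst)).pair
        ((hl.comp Primrec.fst).pair (hh.comp Primrec.fst)))))))
  · refine Primrec.option_casesOn (Primrec.list_head?.comp hL) ?_ ?_
    · refine Primrec.option_map (primrec_fetch hσ
        (Primrec.nat_double_succ.comp hl)) ?_
      exact ((hr1.comp Primrec.fst).pair ((Primrec.const []).pair (Primrec.snd.pair
        ((Primrec.list_cons.comp (hr2.comp Primrec.fst) (hR.comp Primrec.fst)).pair
        ((Primrec.succ.comp (hl.comp Primrec.fst)).pair (hh.comp Primrec.fst))))))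
    · exact (Primrec.option_some.comp ((hr1.comp Primrec.fst).pair
        ((Primrec.list_tail.comp (hL.comp Primrec.fst)).pair (Primrec.snd.pair
        ((Primrec.list_cons.comp (hr2.comp Primrec.fst) (hR.comp Primrec.fst)).pair
        ((hl.comp Primrec.fst).pair (hh.comp Primrec.fst)))))))

theorem primrec_st2 (δ : Fin nq → Fin ns → Option (Fin nq × Fin ns × SignType)) :
    Primrec fun x : List Bool × St nq ns => st2 δ x.1 x.2 := by
  refine Primrec.option_bind ((Primrec.dom_finite (tab δ)).comp
    ((Primrec.fst.comp Primrec.snd).pair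
      (Primrec.fst.comp (Primrec.snd.comp (Primrec.snd.comp Primrec.snd))))) ?_
  exact primrec_st1

theorem primrec_iter (δ : Fin nq → Fin ns → Option (Fin nq × Fin ns × SignType)) :
    Primrec fun σ : List Bool => iter δ σ σ.length := by
  refine Primrec.nat_rec' (h := fun (σ : List Bool) (p : ℕ × Option (St nq ns)) =>
      p.2.map fun s => (st2 δ σ s).getD s) Primrec.list_length (primrec_ini Primrec.id) ?_
  refine Primrec.option_map (Primrec.snd.comp Primrec.snd) ?_
  exact Primrec.option_getD.comp ((primrec_st2 δ).comp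
    ((Primrec.fst.comp Primrec.fst).pair Primrec.snd)) Primrec.snd

theorem computable_sim (δ : Fin nq → Fin ns → Option (Fin nq × Fin ns × SignType)) :
    Computable (sim δ) := by
  refine (Primrec.option_getD.comp (Primrec.option_map (primrec_iter δ) ?_)
    (Primrec.const [])).to_comp
  exact Primrec.list_append.comp (Primrec.list_reverse.comp
    (Primrec.fst.comp (Primrec.snd.comp Primrec.snd)))
    (Primrec.list_cons.comp (Primrec.fst.comp (Primrec.snd.comp (Primrec.snd.comp Primrec.snd)))
      (Primrec.fst.comp (Primrec.snd.comp (Primrec.snd.comp (Primrec.snd.comp Primrec.snd)))))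

/-! ### Correctness -/

theorem getD_seg (x : ℕ → Bool) (k n : ℕ) : (seg x k).getD n false = (decide (n < k) && x n) := by
  by_cases h : n < k
  · simp [seg, List.getD, h]
  · simp [seg, List.getD, h]

theorem intEquivNat_symm_even (n : ℕ) : Equiv.intEquivNat.symm (2 * n) = (n : ℤ) := by
  rw [Equiv.symm_apply_eq]
  rfl

theorem intEquivNat_symm_odd (n : ℕ) : Equiv.intEquivNat.symm (2 * n + 1) = -(n : ℤ) - 1 := by
  rw [Equiv.symm_apply_eq]
  have : -(n : ℤ) - 1 = Int.negSucc n := by omega
  rw [this]
  rfl

theorem window_eq {S : Type} (tape : ℤ → S) (lo hi : ℤ) :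
    window tape lo hi = (List.range (hi + 1 - lo).toNat).map fun j : ℕ => tape (lo + (j : ℤ)) := by
  unfold window
  rw [List.bind_eq_flatMap, List.map_flatMap]
  simp only [List.pure_def, List.map_cons, List.map_nil]
  exact List.map_eq_flatMap.symm

theorem code_odd (c : Fin nq × (ℤ → Fin ns)) (i j : ℕ) :
    code c (2 * Nat.pair i j + 1) = decide ((c.2 (Equiv.intEquivNat.symm i) : ℕ) = j) := by
  have h1 : (2 * Nat.pair i j + 1) % 2 = 1 := by omega
  have h2 : (2 * Nat.pair i j + 1) / 2 = Nat.pair i j := by omega
  simp [code, h1, h2]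

theorem code_even (c : Fin nq × (ℤ → Fin ns)) (j : ℕ) :
    code c (2 * j) = decide ((c.1 : ℕ) = j) := by
  simp [code]

theorem find_fin {n : ℕ} (p : Fin n → Bool) (a : Fin n) (h : ∀ j, p j = true → j = a) :
    ((List.finRange n).find? p = none ∨ (List.finRange n).find? p = some a) ∧
      (p a = true → (List.finRange n).find? p = some a) := by
  cases hf : (List.finRange n).find? p with
  | none =>
    refine ⟨Or.inl rfl, fun ha => ?_⟩
    have := List.find?_eq_none.1 hf a (List.mem_finRange a)
    exact absurd ha this
  | some b =>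
    have hb := List.find?_some hf
    rw [h b hb]
    exact ⟨Or.inr rfl, fun _ => rfl⟩

theorem fetch_seg (c : Fin nq × (ℤ → Fin ns)) (k i : ℕ) :
    (fetch ns (seg (code c) k) i = none ∨
      fetch ns (seg (code c) k) i = some (c.2 (Equiv.intEquivNat.symm i))) ∧
    (2 * Nat.pair i ns + 1 < k →
      fetch ns (seg (code c) k) i = some (c.2 (Equiv.intEquivNat.symm i))) := by
  have h := find_fin (fun j : Fin ns => (seg (code c) k).getD (2 * Nat.pair i j + 1) false)
    (c.2 (Equiv.intEquivNat.symm i)) (by
      intro j hj
      rw [getD_seg, code_odd] at hj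
      simp only [Bool.and_eq_true, decide_eq_true_eq] at hj
      exact (Fin.ext hj.2).symm)
  refine ⟨h.1, fun hk => h.2 ?_⟩
  rw [getD_seg, code_odd]
  have h1 : Nat.pair i (c.2 (Equiv.intEquivNat.symm i)) < Nat.pair i ns :=
    Nat.pair_lt_pair_right i (c.2 (Equiv.intEquivNat.symm i)).2
  simp only [decide_true, Bool.and_true, decide_eq_true_eq]
  omega

theorem fetchQ_seg (c : Fin nq × (ℤ → Fin ns)) (k : ℕ) :
    (fetchQ nq (seg (code c) k) = none ∨
      fetchQ nq (seg (code c) k) = some c.1) ∧
    (2 * nq < k → fetchQ nq (seg (code c) k) = some c.1) := by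
  have h := find_fin (fun j : Fin nq => (seg (code c) k).getD (2 * j) false)
    c.1 (by
      intro j hj
      rw [getD_seg, code_even] at hj
      simp only [Bool.and_eq_true, decide_eq_true_eq] at hj
      exact (Fin.ext hj.2).symm)
  refine ⟨h.1, fun hk => h.2 ?_⟩
  rw [getD_seg, code_even]
  have h1 := c.1.2
  simp only [decide_true, Bool.and_true, decide_eq_true_eq]
  omega

/-- the state `s` represents the extended configuration `v` -/
structure Rep (c₀ : ℤ → Fin ns) (s : St nq ns) (v : ACfg (Fin nq) (Fin ns) × ℤ × ℤ) : Prop where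
  hq : s.1 = v.1.q
  ha : s.2.2.1 = v.1.tape v.1.pos
  hL : ∀ (j : ℕ) (h : j < s.2.1.length), s.2.1[j] = v.1.tape (v.1.pos - 1 - j)
  hR : ∀ (j : ℕ) (h : j < s.2.2.2.1.length), s.2.2.2.1[j] = v.1.tape (v.1.pos + 1 + j)
  hlo : v.2.1 = v.1.pos - s.2.1.length
  hhi : v.2.2 = v.1.pos + s.2.2.2.1.length
  hnl : v.2.1 = -(s.2.2.2.2.1 : ℤ)
  hnr : v.2.2 = s.2.2.2.2.2
  hout : ∀ z, z < v.2.1 ∨ v.2.2 < z → v.1.tape z = c₀ z

theorem Rep.out_eq {c₀ : ℤ → Fin ns} {s : St nq ns} {v : ACfg (Fin nq) (Fin ns) × ℤ × ℤ}
    (h : Rep c₀ s v) : out s = window v.1.tape v.2.1 v.2.2 := by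
  obtain ⟨q, L, a, R, nl, nr⟩ := s
  obtain ⟨⟨q', tape, pos⟩, lo, hi⟩ := v
  obtain ⟨hq, ha, hL, hR, hlo, hhi, hnl, hnr, hout⟩ := h
  simp only at hq ha hL hR hlo hhi hnl hnr hout
  have hlen : (hi + 1 - lo).toNat = L.length + 1 + R.length := by omega
  rw [window_eq]
  simp only [out, hlen]
  apply List.ext_getElem
  · simp
    omega
  · intro j h1 h2
    simp only [List.getElem_map, List.getElem_range]
    rw [List.getElem_append]
    split
    · rename_i h3
      rw [List.length_reverse] at h3
      rw [List.getElem_reverse, hL]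
      congr 1
      omega
    · rename_i h3
      rw [List.length_reverse] at h3
      simp only [List.length_reverse]
      rw [List.getElem_cons]
      split
      · rename_i h4
        rw [ha]
        congr 1
        omega
      · rename_i h4
        rw [hR]
        congr 1
        omega

/-- the next extended configuration -/
def nxt (v : ACfg (Fin nq) (Fin ns) × ℤ × ℤ) (r : Fin nq × Fin ns × SignType) :
    ACfg (Fin nq) (Fin ns) × ℤ × ℤ :=
  (⟨r.1, Function.update v.1.tape v.1.pos r.2.1, v.1.pos + (r.2.2 : ℤ)⟩,
    min v.2.1 (v.1.pos + (r.2.2 : ℤ)), max v.2.2 (v.1.pos + (r.2.2 : ℤ)))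

/-- cell numbers fetched by a step from `s` -/
def Avail (c : Fin nq × (ℤ → Fin ns)) (σ : List Bool) (s : St nq ns) : Prop :=
  fetch ns σ (2 * (s.2.2.2.2.2 + 1)) = some (c.2 (Equiv.intEquivNat.symm
    (2 * (s.2.2.2.2.2 + 1)))) ∧
  fetch ns σ (2 * s.2.2.2.2.1 + 1) = some (c.2 (Equiv.intEquivNat.symm (2 * s.2.2.2.2.1 + 1)))

theorem st1_correct (c : Fin nq × (ℤ → Fin ns)) (k : ℕ) (s : St nq ns)
    (v : ACfg (Fin nq) (Fin ns) × ℤ × ℤ) (h : Rep c.2 s v) (r : Fin nq × Fin ns × SignType) :
    (st1 (seg (code c) k) s (r.1, r.2.1, mv r.2.2) = none ∨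
      ∃ s', st1 (seg (code c) k) s (r.1, r.2.1, mv r.2.2) = some s' ∧ Rep c.2 s' (nxt v r) ∧
        s'.2.2.2.2.1 ≤ s.2.2.2.2.1 + 1 ∧ s'.2.2.2.2.2 ≤ s.2.2.2.2.2 + 1) ∧
    (Avail c (seg (code c) k) s →
      st1 (seg (code c) k) s (r.1, r.2.1, mv r.2.2) ≠ none) := by
  obtain ⟨q, L, a, R, nl, nr⟩ := s
  obtain ⟨⟨q', tape, pos⟩, lo, hi⟩ := v
  obtain ⟨hq, ha, hL, hR, hlo, hhi, hnl, hnr, hout⟩ := h
  obtain ⟨r1, r2, r3⟩ := r
  simp only at hq ha hL hR hlo hhi hnl hnr hout
  simp only [Avail]
  cases r3 with
  | zero =>
    simp only [st1, mv, if_true]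
    refine ⟨Or.inr ⟨_, rfl, ⟨rfl, ?_, ?_, ?_, ?_, ?_, ?_, ?_, ?_⟩, Nat.le_succ _, Nat.le_succ _⟩,
      fun _ => by simp⟩
    · simp [nxt]
    · intro j hj
      simp only [nxt, SignType.zero_eq_zero, SignType.coe_zero, add_zero]
      rw [hL j hj, Function.update_of_ne (by omega)]
    · intro j hj
      simp only [nxt, SignType.zero_eq_zero, SignType.coe_zero, add_zero]
      rw [hR j hj, Function.update_of_ne (by omega)]
    · simp only [nxt, SignType.zero_eq_zero, SignType.coe_zero, add_zero]
      omega
    · simp only [nxt, SignType.zero_eq_zero, SignType.coe_zero, add_zero]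
      omega
    · simp only [nxt, SignType.zero_eq_zero, SignType.coe_zero, add_zero]
      omega
    · simp only [nxt, SignType.zero_eq_zero, SignType.coe_zero, add_zero]
      omega
    · intro z hz
      simp only [nxt, SignType.zero_eq_zero, SignType.coe_zero, add_zero] at hz ⊢
      rw [Function.update_of_ne (by omega)]
      exact hout z (by omega)
  | pos =>
    have hf := fetch_seg c k (2 * (nr + 1))
    have hcell : Equiv.intEquivNat.symm (2 * (nr + 1)) = (nr : ℤ) + 1 := by
      rw [intEquivNat_symm_even]; push_cast; rfl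
    cases R with
    | nil =>
      simp only [List.length_nil, Nat.cast_zero, add_zero] at hhi
      have key : ∀ b, b = c.2 (Equiv.intEquivNat.symm (2 * (nr + 1))) →
          Rep c.2 ((r1, r2 :: L, b, [], nl, nr + 1) : St nq ns)
            (nxt (⟨q', tape, pos⟩, lo, hi) (r1, r2, SignType.pos)) := by
        intro b hb
        rw [hcell] at hb
        refine ⟨rfl, ?_, ?_, ?_, ?_, ?_, ?_, ?_, ?_⟩
        · simp only [nxt, SignType.pos_eq_one, SignType.coe_one]
          rw [Function.update_of_ne (by omega), hb, hout (pos + 1) (by omega)]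
          exact congrArg c.2 (by omega)
        · intro j hj
          simp only [nxt, SignType.pos_eq_one, SignType.coe_one]
          rw [List.getElem_cons]
          split
          · rename_i h4
            subst h4
            rw [show pos + 1 - 1 - ((0 : ℕ) : ℤ) = pos by push_cast; ring,
              Function.update_self]
          · rename_i h4
            rw [Function.update_of_ne (by omega), hL]
            congr 1
            omega
        · intro j hj
          exact absurd hj (Nat.not_lt_zero j)
        · simp only [nxt, SignType.pos_eq_one, SignType.coe_one, List.length_cons]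
          omega
        · simp only [nxt, SignType.pos_eq_one, SignType.coe_one, List.length_nil]
          omega
        · simp only [nxt, SignType.pos_eq_one, SignType.coe_one]
          omega
        · simp only [nxt, SignType.pos_eq_one, SignType.coe_one]
          omega
        · intro z hz
          simp only [nxt, SignType.pos_eq_one, SignType.coe_one] at hz ⊢
          rw [Function.update_of_ne (by omega)]
          exact hout z (by omega)
      simp only [st1, mv, one_ne_zero, if_false, if_true, List.head?_nil]
      refine ⟨?_, fun hav => ?_⟩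
      · rcases hf.1 with h1 | h1
        · left
          rw [h1]
          rfl
        · right
          rw [h1]
          exact ⟨_, rfl, key _ rfl, Nat.le_succ _, le_rfl⟩
      · rw [hav.1]
        simp
    | cons b R =>
      simp only [st1, mv, one_ne_zero, if_false, if_true, List.head?_cons, List.tail_cons]
      refine ⟨Or.inr ⟨_, rfl, ⟨rfl, ?_, ?_, ?_, ?_, ?_, ?_, ?_, ?_⟩, Nat.le_succ _, Nat.le_succ _⟩,
        fun _ => by simp⟩
      · simp only [nxt, SignType.pos_eq_one, SignType.coe_one]
        rw [Function.update_of_ne (by omega)]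
        have := hR 0 (by simp)
        simpa using this
      · intro j hj
        simp only [nxt, SignType.pos_eq_one, SignType.coe_one]
        rw [List.getElem_cons]
        split
        · rename_i h4
          subst h4
          rw [show pos + 1 - 1 - ((0 : ℕ) : ℤ) = pos by push_cast; ring,
            Function.update_self]
        · rename_i h4
          rw [Function.update_of_ne (by omega), hL]
          congr 1
          omega
      · intro j hj
        simp only [nxt, SignType.pos_eq_one, SignType.coe_one]
        rw [Function.update_of_ne (by omega)]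
        have := hR (j + 1) (by simpa using hj)
        rw [List.getElem_cons_succ] at this
        rw [this]
        congr 1
        push_cast
        ring
      · simp only [nxt, SignType.pos_eq_one, SignType.coe_one, List.length_cons] at *
        omega
      · simp only [nxt, SignType.pos_eq_one, SignType.coe_one, List.length_cons] at *
        omega
      · simp only [nxt, SignType.pos_eq_one, SignType.coe_one, List.length_cons] at *
        omega
      · simp only [nxt, SignType.pos_eq_one, SignType.coe_one, List.length_cons] at *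
        omega
      · intro z hz
        simp only [nxt, SignType.pos_eq_one, SignType.coe_one, List.length_cons] at *
        rw [Function.update_of_ne (by omega)]
        exact hout z (by omega)
  | neg =>
    have hf := fetch_seg c k (2 * nl + 1)
    have hcell : Equiv.intEquivNat.symm (2 * nl + 1) = -(nl : ℤ) - 1 := intEquivNat_symm_odd nl
    cases L with
    | nil =>
      simp only [List.length_nil, Nat.cast_zero, sub_zero] at hlo
      have key : ∀ b, b = c.2 (Equiv.intEquivNat.symm (2 * nl + 1)) →
          Rep c.2 ((r1, [], b, r2 :: R, nl + 1, nr) : St nq ns)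
            (nxt (⟨q', tape, pos⟩, lo, hi) (r1, r2, SignType.neg)) := by
        intro b hb
        rw [hcell] at hb
        refine ⟨rfl, ?_, ?_, ?_, ?_, ?_, ?_, ?_, ?_⟩
        · simp only [nxt, SignType.neg_eq_neg_one, SignType.coe_neg_one]
          rw [Function.update_of_ne (by omega), hb, hout (pos + -1) (by omega)]
          exact congrArg c.2 (by omega)
        · intro j hj
          exact absurd hj (Nat.not_lt_zero j)
        · intro j hj
          simp only [nxt, SignType.neg_eq_neg_one, SignType.coe_neg_one]
          rw [List.getElem_cons]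
          split
          · rename_i h4
            subst h4
            rw [show pos + -1 + 1 + ((0 : ℕ) : ℤ) = pos by push_cast; ring,
              Function.update_self]
          · rename_i h4
            rw [Function.update_of_ne (by omega), hR]
            congr 1
            omega
        · simp only [nxt, SignType.neg_eq_neg_one, SignType.coe_neg_one, List.length_nil]
          omega
        · simp only [nxt, SignType.neg_eq_neg_one, SignType.coe_neg_one, List.length_cons]
          omega
        · simp only [nxt, SignType.neg_eq_neg_one, SignType.coe_neg_one]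
          omega
        · simp only [nxt, SignType.neg_eq_neg_one, SignType.coe_neg_one]
          omega
        · intro z hz
          simp only [nxt, SignType.neg_eq_neg_one, SignType.coe_neg_one] at hz ⊢
          rw [Function.update_of_ne (by omega)]
          exact hout z (by omega)
      simp only [st1, mv, OfNat.ofNat_ne_zero, OfNat.ofNat_ne_one, if_false, List.head?_nil]
      refine ⟨?_, fun hav => ?_⟩
      · rcases hf.1 with h1 | h1
        · left
          rw [h1]
          rfl
        · right
          rw [h1]
          exact ⟨_, rfl, key _ rfl, le_rfl, Nat.le_succ _⟩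
      · rw [hav.2]
        simp
    | cons b L =>
      simp only [st1, mv, OfNat.ofNat_ne_zero, OfNat.ofNat_ne_one, if_false, List.head?_cons,
        List.tail_cons]
      refine ⟨Or.inr ⟨_, rfl, ⟨rfl, ?_, ?_, ?_, ?_, ?_, ?_, ?_, ?_⟩, Nat.le_succ _, Nat.le_succ _⟩,
        fun _ => by simp⟩
      · simp only [nxt, SignType.neg_eq_neg_one, SignType.coe_neg_one]
        rw [Function.update_of_ne (by omega)]
        have := hL 0 (by simp)
        simpa [sub_eq_add_neg] using this
      · intro j hj
        simp only [nxt, SignType.neg_eq_neg_one, SignType.coe_neg_one]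
        rw [Function.update_of_ne (by omega)]
        have := hL (j + 1) (by simpa using hj)
        rw [List.getElem_cons_succ] at this
        rw [this]
        congr 1
        push_cast
        ring
      · intro j hj
        simp only [nxt, SignType.neg_eq_neg_one, SignType.coe_neg_one]
        rw [List.getElem_cons]
        split
        · rename_i h4
          subst h4
          rw [show pos + -1 + 1 + ((0 : ℕ) : ℤ) = pos by push_cast; ring,
            Function.update_self]
        · rename_i h4
          rw [Function.update_of_ne (by omega), hR]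
          congr 1
          omega
      · simp only [nxt, SignType.neg_eq_neg_one, SignType.coe_neg_one, List.length_cons] at *
        omega
      · simp only [nxt, SignType.neg_eq_neg_one, SignType.coe_neg_one, List.length_cons] at *
        omega
      · simp only [nxt, SignType.neg_eq_neg_one, SignType.coe_neg_one, List.length_cons] at *
        omega
      · simp only [nxt, SignType.neg_eq_neg_one, SignType.coe_neg_one, List.length_cons] at *
        omega
      · intro z hz
        simp only [nxt, SignType.neg_eq_neg_one, SignType.coe_neg_one, List.length_cons] at *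
        rw [Function.update_of_ne (by omega)]
        exact hout z (by omega)

/-- `iter` at stage `n` represents the extended configuration at time `t`, with few fetches -/
def Good (δ : Fin nq → Fin ns → Option (Fin nq × Fin ns × SignType))
    (c : Fin nq × (ℤ → Fin ns)) (k n t : ℕ) : Prop :=
  ∃ s v, iter δ (seg (code c) k) n = some s ∧ vrun δ ⟨c.1, c.2, 0⟩ t = some v ∧ Rep c.2 s v ∧
    s.2.2.2.2.1 ≤ t ∧ s.2.2.2.2.2 ≤ t

theorem vrun_succ_eq {δ : Fin nq → Fin ns → Option (Fin nq × Fin ns × SignType)}
    {c : Fin nq × (ℤ → Fin ns)} {t : ℕ} {v : ACfg (Fin nq) (Fin ns) × ℤ × ℤ}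
    (hv : vrun δ ⟨c.1, c.2, 0⟩ t = some v) :
    vrun δ ⟨c.1, c.2, 0⟩ (t + 1) = (δ v.1.q (v.1.tape v.1.pos)).map (nxt v) := by
  rw [vrun, hv, Option.bind_some, astep, Option.map_map]
  rfl

theorem iter_succ (δ : Fin nq → Fin ns → Option (Fin nq × Fin ns × SignType)) (σ : List Bool)
    (n : ℕ) : iter δ σ (n + 1) = (iter δ σ n).map fun s => (st2 δ σ s).getD s := rfl

theorem Good.succ {δ : Fin nq → Fin ns → Option (Fin nq × Fin ns × SignType)}
    {c : Fin nq × (ℤ → Fin ns)} (hc : c ∈ immortal δ) {k n t : ℕ} (h : Good δ c k n t) :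
    (Good δ c k (n + 1) t ∨ Good δ c k (n + 1) (t + 1)) ∧
      (2 * Nat.pair (2 * t + 2) ns + 1 < k → Good δ c k (n + 1) (t + 1)) := by
  obtain ⟨s, v, hs, hv, hrep, hl, hr⟩ := h
  obtain ⟨v', hv'⟩ := vrun_isSome δ hc (t + 1)
  have hv2 := hv'
  rw [vrun_succ_eq hv, Option.map_eq_some_iff] at hv2
  obtain ⟨r, hr1, hr2⟩ := hv2
  have hst : st2 δ (seg (code c) k) s = st1 (seg (code c) k) s (r.1, r.2.1, mv r.2.2) := by
    rw [st2, tab, hrep.hq, hrep.ha, hr1]
    rfl
  obtain ⟨h1, h2⟩ := st1_correct c k s v hrep r
  have key : (∃ s', st1 (seg (code c) k) s (r.1, r.2.1, mv r.2.2) = some s' ∧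
      Rep c.2 s' (nxt v r) ∧
        s'.2.2.2.2.1 ≤ s.2.2.2.2.1 + 1 ∧ s'.2.2.2.2.2 ≤ s.2.2.2.2.2 + 1) →
      Good δ c k (n + 1) (t + 1) := by
    rintro ⟨s', hs', hrep', hl', hr'⟩
    refine ⟨s', v', ?_, hv', ?_, by omega, by omega⟩
    · rw [iter_succ, hs, Option.map_some, hst, hs']
      rfl
    · rw [← hr2]
      exact hrep'
  constructor
  · rcases h1 with h1 | h1
    · left
      refine ⟨s, v, ?_, hv, hrep, hl, hr⟩
      rw [iter_succ, hs, Option.map_some, hst, h1]
      rfl
    · right
      exact key h1
  · intro hk
    rcases h1 with h1 | h1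
    · exfalso
      refine h2 ⟨?_, ?_⟩ h1
      · refine (fetch_seg c k _).2 (lt_of_le_of_lt ?_ hk)
        have : Nat.pair (2 * (s.2.2.2.2.2 + 1)) ns ≤ Nat.pair (2 * t + 2) ns := by
          rcases Nat.lt_or_ge (2 * (s.2.2.2.2.2 + 1)) (2 * t + 2) with hlt | hge
          · exact (Nat.pair_lt_pair_left ns hlt).le
          · rw [show 2 * (s.2.2.2.2.2 + 1) = 2 * t + 2 by omega]
        omega
      · refine (fetch_seg c k _).2 (lt_of_le_of_lt ?_ hk)
        have : Nat.pair (2 * s.2.2.2.2.1 + 1) ns ≤ Nat.pair (2 * t + 2) ns :=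
          (Nat.pair_lt_pair_left ns (by omega)).le
        omega
    · exact key h1

theorem ini_good (δ : Fin nq → Fin ns → Option (Fin nq × Fin ns × SignType))
    (c : Fin nq × (ℤ → Fin ns)) (k : ℕ) :
    (iter δ (seg (code c) k) 0 = none ∨ Good δ c k 0 0) ∧
      (2 * nq < k → 2 * Nat.pair 0 ns + 1 < k → Good δ c k 0 0) := by
  obtain ⟨h1, h2⟩ := fetchQ_seg c k
  obtain ⟨h3, h4⟩ := fetch_seg c k 0
  have h0 : Equiv.intEquivNat.symm 0 = (0 : ℤ) := by
    have := intEquivNat_symm_even 0
    simpa using this
  rw [h0] at h3 h4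
  have key : fetchQ nq (seg (code c) k) = some c.1 → fetch ns (seg (code c) k) 0 = some (c.2 0) →
      Good δ c k 0 0 := by
    intro h5 h6
    refine ⟨(c.1, [], c.2 0, [], 0, 0), (⟨c.1, c.2, 0⟩, 0, 0), ?_, rfl,
      ⟨rfl, rfl, ?_, ?_, ?_, ?_, ?_, ?_, ?_⟩, le_rfl, le_rfl⟩
    · change ini nq ns (seg (code c) k) = _
      rw [ini, h5, Option.bind_some, h6]
      rfl
    · intro j hj
      exact absurd hj (Nat.not_lt_zero j)
    · intro j hj
      exact absurd hj (Nat.not_lt_zero j)
    · simp
    · simp
    · simp
    · simp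
    · intro z _
      rfl
  constructor
  · change ini nq ns (seg (code c) k) = none ∨ _
    rcases h1 with h1 | h1
    · left
      rw [ini, h1]
      rfl
    · rcases h3 with h3 | h3
      · left
        rw [ini, h1, Option.bind_some, h3]
        rfl
      · right
        exact key h1 h3
  · intro h5 h6
    exact key (h2 h5) (h4 h6)

theorem good_mono {δ : Fin nq → Fin ns → Option (Fin nq × Fin ns × SignType)}
    {c : Fin nq × (ℤ → Fin ns)} (hc : c ∈ immortal δ) {k n t : ℕ} (h : Good δ c k n t) (m : ℕ) :
    ∃ t', t ≤ t' ∧ Good δ c k (n + m) t' := by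
  induction m with
  | zero => exact ⟨t, le_rfl, h⟩
  | succ m ih =>
    obtain ⟨t', ht', hg⟩ := ih
    rcases (hg.succ hc).1 with h1 | h1
    · exact ⟨t', ht', h1⟩
    · exact ⟨t' + 1, by omega, h1⟩

theorem sim_of_good {δ : Fin nq → Fin ns → Option (Fin nq × Fin ns × SignType)}
    {c : Fin nq × (ℤ → Fin ns)} {k t : ℕ} (h : Good δ c k k t) :
    ∃ v, vrun δ ⟨c.1, c.2, 0⟩ t = some v ∧
      sim δ (seg (code c) k) = window v.1.tape v.2.1 v.2.2 := by
  obtain ⟨s, v, hs, hv, hrep, -, -⟩ := h
  refine ⟨v, hv, ?_⟩
  rw [sim, length_seg, hs, Option.map_some, Option.getD_some, hrep.out_eq]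

end Mod2

open Mod2 in
/-- MODULE 2 -/
theorem module2 : Module2Target := by
  intro nq ns δ
  refine ⟨sim δ, computable_sim δ, fun c hc => ⟨fun k => ?_, fun T => ?_⟩⟩
  · rcases (ini_good δ c k).1 with h | h
    · left
      have : ∀ n, iter δ (seg (code c) k) n = none := by
        intro n
        induction n with
        | zero => exact h
        | succ n ih => rw [iter_succ, ih]; rfl
      rw [sim, this]
      rfl
    · right
      obtain ⟨t, -, ht⟩ := good_mono hc h k
      rw [zero_add] at ht
      obtain ⟨v, hv, hs⟩ := sim_of_good ht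
      exact ⟨t, v, hv, hs⟩
  · let k := T + 2 * nq + 2 * Nat.pair (2 * T + 2) ns + 2
    have hpair : ∀ i ≤ 2 * T + 2, Nat.pair i ns ≤ Nat.pair (2 * T + 2) ns := by
      intro i hi
      rcases Nat.lt_or_ge i (2 * T + 2) with hlt | hge
      · exact (Nat.pair_lt_pair_left ns hlt).le
      · rw [show i = 2 * T + 2 by omega]
    have h0 : Good δ c k 0 0 := by
      refine (ini_good δ c k).2 (by omega) ?_
      have := hpair 0 (by omega)
      omega
    have hall : ∀ t ≤ T, Good δ c k t t := by
      intro t
      induction t with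
      | zero => intro _; exact h0
      | succ t ih =>
        intro ht
        refine ((ih (by omega)).succ hc).2 ?_
        have := hpair (2 * t + 2) (by omega)
        omega
    obtain ⟨t, htT, ht⟩ := good_mono hc (hall T le_rfl) (k - T)
    rw [show T + (k - T) = k by omega] at ht
    obtain ⟨v, hv, hs⟩ := sim_of_good ht
    exact ⟨k, t, v, htT, hv, hs⟩

end Pool.Agent.Helper76.Med
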