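import Pool.Agent.Helper76.MedDec
import Pool.Agent.Helper76.MedImm
import Pool.Agent.Helper76.MedMod2

/-!
Module 6 of MP_4596be_lc: assembly.
-/

namespace Pool.Agent.Helper76.Med

section Emb

variable {A S C : Type} (I : IA A S C) {nq ns : ℕ} (eQ : St A S C ≃ Fin nq)
  (eS : A × Fg S C ≃ Fin ns)

/-- the machine with states and symbols numbered -/
noncomputable def del (q : Fin nq) (s : Fin ns) : Option (Fin nq × Fin ns × SignType) :=
  (tr I (eQ.symm q) (eS.symm s).1 (eS.symm s).2).map fun r =>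
    (eQ r.1, eS ((eS.symm s).1, r.2.1), r.2.2)

/-- a configuration with data `dat` as a configuration of the numbered machine -/
def emb (dat : ℤ → A) (c : Cf A S C) : ACfg (Fin nq) (Fin ns) :=
  ⟨eQ c.q, fun i => eS (dat i, c.fg i), c.p⟩

theorem astep_emb (dat : ℤ → A) (c : Cf A S C) :
    astep (del I eQ eS) (emb eQ eS dat c) = (stp I dat c).map (emb eQ eS dat) := by
  unfold astep stp del emb
  simp only [Equiv.symm_apply_apply, Option.map_map]
  congr 1
  funext r
  simp only [Function.comp_apply, ACfg.mk.injEq, true_and, and_true]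
  funext i
  simp only [Function.update_apply]
  split_ifs with h
  · rw [h]
  · rfl

theorem vr_succ' (dat : ℤ → A) (n : ℕ) (v : Cf A S C × ℤ × ℤ) :
    vr I dat (n + 1) v = (vr I dat n v).bind (vs I dat) := by
  rw [vr_add]
  congr 1
  funext w
  simp only [vr]
  cases vs I dat w <;> rfl

theorem vrun_emb (dat : ℤ → A) (c : Cf A S C) (t : ℕ) :
    vrun (del I eQ eS) (emb eQ eS dat c) t =
      (vr I dat t (c, c.p, c.p)).map fun w => (emb eQ eS dat w.1, w.2.1, w.2.2) := by
  induction t with
  | zero => rfl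
  | succ t ih =>
    rw [vrun, ih, vr_succ']
    cases h : vr I dat t (c, c.p, c.p) with
    | none => rfl
    | some w =>
      simp only [Option.map_some, Option.bind_some, astep_emb, vs, Option.map_map]
      rfl

theorem eq_emb (c : Fin nq × (ℤ → Fin ns)) :
    (⟨c.1, c.2, 0⟩ : ACfg (Fin nq) (Fin ns)) =
      emb eQ eS (fun i => (eS.symm (c.2 i)).1) ⟨eQ.symm c.1, fun i => (eS.symm (c.2 i)).2, 0⟩ := by
  simp [emb]

/-- configurations of the numbered machine from which all finite runs exist are immortal -/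
theorem immortal_of_vrun {δ : Fin nq → Fin ns → Option (Fin nq × Fin ns × SignType)}
    {c : Fin nq × (ℤ → Fin ns)} (h : ∀ t, (vrun δ ⟨c.1, c.2, 0⟩ t).isSome) : c ∈ immortal δ := by
  intro n
  rw [Mod2.iterate_eq_vrun, Option.isSome_map]
  exact h n

theorem imm_of_immortal {c : Fin nq × (ℤ → Fin ns)} (hc : c ∈ immortal (del I eQ eS)) :
    Imm I (fun i => (eS.symm (c.2 i)).1)
      ⟨eQ.symm c.1, fun i => (eS.symm (c.2 i)).2, 0⟩ := by
  rintro ⟨c', hr, hn⟩
  obtain ⟨n, lo', hi', h1, -⟩ := vr_RIn (W := Set.univ) le_rfl hr 0 0 trivial trivial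
  obtain ⟨v, hv⟩ := Mod2.vrun_isSome _ hc (n + 1)
  rw [eq_emb eQ eS, vrun_emb, vr_succ', h1] at hv
  simp [vs, hn] at hv

end Emb

/-! ### finiteness -/

instance : Finite Sta := by
  refine Finite.of_injective (fun s : Sta => (match s with | .V => 0 | .W => 1 | .X => 2 : Fin 3)) ?_
  intro a b h
  cases a <;> cases b <;> first | rfl | (exact absurd h (by decide))

instance : Finite Mode := by
  refine Finite.of_injective
    (fun s : Mode => (match s with | .fwd => 0 | .back => 1 | .fin => 2 : Fin 3)) ?_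
  intro a b h
  cases a <;> cases b <;> first | rfl | (exact absurd h (by decide))

instance (H : Hist) : Finite (PS H) := by
  refine Finite.of_injective (fun s : PS H => (s.a, s.fr, s.st, s.al, s.um)) ?_
  rintro ⟨a, b, c, d, e⟩ ⟨a', b', c', d', e'⟩ h
  simp only [Prod.mk.injEq] at h
  obtain ⟨rfl, rfl, rfl, rfl, rfl⟩ := h
  rfl

instance (H : Hist) : Finite (AC H) := by
  refine Finite.of_injective (fun s : AC H => (s.w, s.vl, s.um)) ?_
  rintro ⟨a, b, c⟩ ⟨a', b', c'⟩ h
  simp only [Prod.mk.injEq] at h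
  obtain ⟨rfl, rfl, rfl⟩ := h
  rfl

instance {S : Type} [Finite S] : Finite (Kap S) := by
  refine Finite.of_injective (fun s : Kap S => (s.D, s.m, s.s)) ?_
  rintro ⟨a, b, c⟩ ⟨a', b', c'⟩ h
  simp only [Prod.mk.injEq] at h
  obtain ⟨rfl, rfl, rfl⟩ := h
  rfl

instance {S C : Type} [Finite S] [Finite C] : Finite (Fg S C) := by
  refine Finite.of_injective (fun s : Fg S C =>
    (match s with
      | .blank => Sum.inl none
      | .x D => Sum.inl (some D)
      | .ret κ acc => Sum.inr (κ, acc) : Option Bool ⊕ (Kap S × C))) ?_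
  intro a b h
  cases a <;> cases b <;> simp_all

instance {A S C : Type} [Finite A] [Finite S] [Finite C] : Finite (St A S C) := by
  refine Finite.of_injective (fun s : St A S C =>
    (match s with
      | .chk κ acc => Sum.inl (Sum.inl (κ, acc))
      | .look κ acc a => Sum.inl (Sum.inr (κ, acc, a))
      | .wr κ acc => Sum.inr (Sum.inl (κ, acc))
      | .ext D s => Sum.inr (Sum.inr (Sum.inl (D, s)))
      | .er D m s => Sum.inr (Sum.inr (Sum.inr (D, m, s))) :
      ((Kap S × C) ⊕ (Kap S × C × A)) ⊕ ((Kap S × C) ⊕ ((Bool × S) ⊕ (Bool × Mode × S))))) ?_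
  intro a b h
  cases a <;> cases b <;> simp_all

end Pool.Agent.Helper76.Med
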