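import Pool.Agent.Helper76.MedStr

/-!
Module 4 of MP_4596be_lc: closed form of the chains in a fully structured window.
-/

namespace Pool.Agent.Helper76.Med

/-! ### stacks of levels -/

/-- the levels of the pushes that are still on stack `k` before the `n`-th instruction -/
def lstk (H : Hist) (y : ℕ → Fin H.g) : ℕ → Fin H.K → List ℕ
  | 0, _ => []
  | n + 1, k =>
    match H.op (y n) with
    | none => lstk H y n k
    | some (k', Sum.inl _) => if k' = k then n :: lstk H y n k else lstk H y n k
    | some (k', Sum.inr _) => if k' = k then (lstk H y n k).tail else lstk H y n k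

section Lstk

variable {H : Hist} {y : ℕ → Fin H.g}

open Sys

theorem lstk_push {n : ℕ} {k : Fin H.K} (h : pushes H (y n) k) :
    lstk H y (n + 1) k = n :: lstk H y n k := by
  obtain ⟨x, hx⟩ := h
  rw [lstk, hx]
  simp

theorem lstk_pop {n : ℕ} {k : Fin H.K} (h : pops H (y n) k) :
    lstk H y (n + 1) k = (lstk H y n k).tail := by
  obtain ⟨x, hx⟩ := h
  rw [lstk, hx]
  simp

theorem lstk_other {n : ℕ} {k : Fin H.K} (h : ¬ pushes H (y n) k) (h' : ¬ pops H (y n) k) :
    lstk H y (n + 1) k = lstk H y n k := by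
  rw [lstk]
  rcases ho : H.op (y n) with _ | ⟨k', x | x⟩
  · rfl
  · simp only
    rw [if_neg]
    rintro rfl
    exact h ⟨x, ho⟩
  · simp only
    rw [if_neg]
    rintro rfl
    exact h' ⟨x, ho⟩

theorem not_push_pop {a : Fin H.g} {k : Fin H.K} (h : pushes H a k) (h' : pops H a k) : False := by
  obtain ⟨x, hx⟩ := h
  obtain ⟨x', hx'⟩ := h'
  rw [hx] at hx'
  simp at hx'

theorem lstk_lt {n : ℕ} {k : Fin H.K} : ∀ w ∈ lstk H y n k, w < n := by
  induction n with
  | zero => intro w hw; simp [lstk] at hw
  | succ n ih =>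
    intro w hw
    by_cases h : pushes H (y n) k
    · rw [lstk_push h] at hw
      rcases List.mem_cons.1 hw with rfl | hw
      · omega
      · have := ih w hw; omega
    · by_cases h' : pops H (y n) k
      · rw [lstk_pop h'] at hw
        have := ih w (List.mem_of_mem_tail hw); omega
      · rw [lstk_other h h'] at hw
        have := ih w hw; omega

theorem lstk_sorted {n : ℕ} {k : Fin H.K} : (lstk H y n k).Pairwise (· > ·) := by
  induction n with
  | zero => simp [lstk]
  | succ n ih =>
    by_cases h : pushes H (y n) k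
    · rw [lstk_push h]
      exact List.pairwise_cons.2 ⟨fun w hw => lstk_lt w hw, ih⟩
    · by_cases h' : pops H (y n) k
      · rw [lstk_pop h']
        exact ih.sublist (List.tail_sublist _)
      · rw [lstk_other h h']
        exact ih

theorem mem_lstk_self {v : ℕ} {k : Fin H.K} : v ∈ lstk H y (v + 1) k ↔ pushes H (y v) k := by
  constructor
  · intro h
    by_contra hn
    by_cases h' : pops H (y v) k
    · rw [lstk_pop h'] at h
      exact absurd (lstk_lt v (List.mem_of_mem_tail h)) (lt_irrefl v)
    · rw [lstk_other hn h'] at h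
      exact absurd (lstk_lt v h) (lt_irrefl v)
  · intro h
    rw [lstk_push h]
    simp

theorem mem_lstk_succ {u v : ℕ} (hvu : v ≤ u) {k : Fin H.K} :
    v ∈ lstk H y (u + 2) k ↔ v ∈ lstk H y (u + 1) k ∧
      ¬ (pops H (y (u + 1)) k ∧ ¬ ∃ w, v < w ∧ w ≤ u ∧ w ∈ lstk H y (u + 1) k) := by
  by_cases h : pushes H (y (u + 1)) k
  · have h' : ¬ pops H (y (u + 1)) k := fun h' => not_push_pop h h'
    rw [lstk_push h]
    simp only [List.mem_cons, h', false_and, not_false_eq_true, and_true]
    constructor
    · rintro (rfl | h)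
      · omega
      · exact h
    · exact Or.inr
  · by_cases h' : pops H (y (u + 1)) k
    · rw [lstk_pop h']
      simp only [h', true_and, not_not]
      have hs := lstk_sorted (H := H) (y := y) (n := u + 1) (k := k)
      have hlt := lstk_lt (H := H) (y := y) (n := u + 1) (k := k)
      cases hl : lstk H y (u + 1) k with
      | nil => simp
      | cons a t =>
        rw [hl] at hs hlt
        have hs' := List.pairwise_cons.1 hs
        simp only [List.tail_cons, List.mem_cons]
        constructor
        · intro hv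
          refine ⟨Or.inr hv, a, hs'.1 v hv, ?_, Or.inl rfl⟩
          have := hlt a (by simp)
          omega
        · rintro ⟨rfl | hv, w, hw1, hw2, rfl | hw3⟩
          · omega
          · have := hs'.1 w hw3; omega
          · exact hv
          · exact hv
    · rw [lstk_other h h']
      simp only [h', false_and, not_false_eq_true, and_true]

theorem forall₂_tail {α β : Type} {R : α → β → Prop} {l1 : List α} {l2 : List β}
    (h : List.Forall₂ R l1 l2) : List.Forall₂ R l1.tail l2.tail := by
  cases h with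
  | nil => simp
  | cons _ t => simpa using t

/-- the stack of symbols and the stack of levels -/
theorem stk_lstk {n : ℕ} {k : Fin H.K} :
    List.Forall₂ (fun v x => H.op (y v) = some (k, Sum.inl x)) (lstk H y n k) (H.stk y n k) := by
  induction n with
  | zero => simp [lstk, Hist.stk]
  | succ n ih =>
    rw [Hist.stk, lstk]
    unfold Hist.app
    rcases ho : H.op (y n) with _ | ⟨k', x | x⟩
    · exact ih
    · by_cases hk : k' = k
      · subst hk
        simp only [if_true, Function.update_self]
        exact List.Forall₂.cons ho ih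
      · simp only [if_neg hk]
        rw [Function.update_of_ne (Ne.symm hk)]
        exact ih
    · by_cases hk : k' = k
      · subst hk
        simp only [if_true, Function.update_self]
        exact forall₂_tail ih
      · simp only [if_neg hk]
        rw [Function.update_of_ne (Ne.symm hk)]
        exact ih

end Lstk

namespace Sys

variable {H : Hist} (Y : Sys H)

/-- fully structured windows avoiding the cell `0` -/
structure Full (y : ℕ → Fin H.g) (l r : ℤ) : Prop where
  nz : 0 < l ∨ r < 0
  leaf : ∀ x, l ≤ x → x ≤ r → (Y.lf x ↔ ¬ HH 1 x)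
  left : ∀ v x, l ≤ x → x ≤ r → LL v x → Y.sgm x = true
  right : ∀ v x, l ≤ x → x ≤ r → RR v x → Y.sgm x = false
  pay : ∀ v x, l ≤ x → x ≤ r → Lv v x → Y.pay x = y v

/-- closed form of the chain data -/
structure ChainAt (y : ℕ → Fin H.g) (x c : ℤ) : Prop where
  dR : ∀ v, RR v x → ¬ Y.al x c
  aL : ∀ v, LL v x → ∀ u, v ≤ u → HH (u + 2) (x - 2 ^ v) → x - 2 ^ v + 2 ^ u ≤ c →
    c < x - 2 ^ v + 2 ^ (u + 1) → Y.al x c ∧ ∀ k, (Y.um x c k ↔ v ∈ lstk H y (u + 1) k)
  dL : ∀ v, LL v x → ∀ t, Lv (t + 2) (x - 2 ^ v) → x - 2 ^ v + 2 ^ (t + 1) ≤ c → ¬ Y.al x c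

variable {Y} {y : ℕ → Fin H.g}

theorem Full.toSg {l r : ℤ} (h : Y.Full y l r) (n : ℕ) : Y.Sg l r n :=
  ⟨h.leaf, fun v _ => h.left v, fun v _ => h.right v⟩

theorem Full.ne_zero {l r : ℤ} (h : Y.Full y l r) {x : ℤ} (h1 : l ≤ x) (h2 : x ≤ r) : x ≠ 0 := by
  rcases h.nz with h | h <;> omega

theorem HH_LL {v : ℕ} {x : ℤ} (h : LL v x) : HH (v + 2) (x - 2 ^ v) := h

theorem exists_log {a : ℤ} {v : ℕ} (h : (2 : ℤ) ^ v ≤ a) :
    ∃ u, v ≤ u ∧ 2 ^ u ≤ a ∧ a < 2 ^ (u + 1) := by
  by_contra hcon
  have key : ∀ k : ℕ, (2 : ℤ) ^ (v + k) ≤ a := by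
    intro k
    induction k with
    | zero => exact h
    | succ k ih =>
      by_contra hlt
      exact hcon ⟨v + k, by omega, ih, by rw [← add_assoc] at hlt; omega⟩
  have h1 := key a.toNat
  have h2 : (2 : ℤ) ^ a.toNat ≤ 2 ^ (v + a.toNat) := two_pow_mono' (by omega)
  have h3 : a.toNat < 2 ^ a.toNat := Nat.lt_two_pow_self
  have h4 : ((a.toNat : ℕ) : ℤ) < 2 ^ a.toNat := by exact_mod_cast h3
  have := Int.self_le_toNat a
  omega

/-- chain steps are made exactly at the tops of the chain (1) -/
theorem cs_of {l r : ℤ} (hf : Y.Full y l r) {c : ℤ} (hc : c + 1 ≤ r)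
    (ihs : ∀ n x, l ≤ x → x ≤ c → Y.StatAt n x c)
    (ih : ∀ x, l ≤ x → x ≤ c → Y.ChainAt y x c) {x : ℤ} (hx : l ≤ x) (hxc : x ≤ c)
    {u v : ℕ} (hv : LL v x) (hvu : v ≤ u) (hg : HH (u + 2) (x - 2 ^ v))
    (hb : c + 1 = x - 2 ^ v + 2 ^ (u + 1)) : Y.cs x c := by
  have hPu := two_pow_pos' u
  have hSu := two_pow_succ' u
  have hPv := two_pow_pos' v
  have hSv := two_pow_succ' v
  refine ⟨((ih x hx hxc).aL v hv u hvu hg (by omega) (by omega)).1, ?_, ?_⟩
  · rw [hf.leaf _ (by omega) hc, not_not, hb]
    exact (hg.mono (by omega)).add_pow (by omega)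
  · rcases Nat.eq_or_lt_of_le hvu with rfl | hlt
    · left
      refine ⟨(ihs v x hx hxc).sV v le_rfl hv.lv (by omega), ?_⟩
      exact noVL (hf.toSg v) hc (ihs v) hx le_rfl hv.lv (by omega)
    · right
      have hvu2 := two_pow_lt_succ hlt
      constructor
      · intro hV
        by_cases h1 : c < x + 2 ^ (v + 1)
        · have := (ihs v x hx hxc).sW v le_rfl hv.lv (by omega) h1
          rw [hV] at this
          exact absurd this (by decide)
        · have := (ihs v x hx hxc).sX v le_rfl hv.lv (by omega)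
          rw [hV] at this
          exact absurd this (by decide)
      · have hLh : LL u (x - 2 ^ v + 2 ^ u) := LL_of_HH_add hg
        refine ⟨x - 2 ^ v + 2 ^ u, ⟨by omega, by omega, ?_, ?_⟩, ?_⟩
        · exact (ihs u _ (by omega) (by omega)).sV u le_rfl hLh.lv (by omega)
        · exact hf.left u _ (by omega) (by omega) hLh
        · rintro j ⟨hj1, hj2, hj3, hj4⟩
          obtain ⟨w, hw⟩ := exists_level (hf.ne_zero (by omega : l ≤ j) (by omega : j ≤ r))
          have hbu : HH (u + 1) (c + 1) := by
            rw [hb]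
            exact (hg.mono (by omega)).add_pow (by omega)
          by_cases hwu : w ≤ u + 1
          · have heq := visible_eq (l := l) (r := r) (ihs w) (by omega) hj2 le_rfl hw
              (hbu.mono hwu) hj3
            rcases Nat.lt_or_ge w u with hlt2 | hge
            · have := hf.right w j (by omega) (by omega) (by
                have : j = c + 1 - 2 ^ w := by omega
                rw [this]
                exact RR_of_HH_sub (hbu.mono (by omega)))
              rw [hj4] at this
              exact absurd this (by decide)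
            · rcases Nat.eq_or_lt_of_le hge with rfl | hlt3
              · omega
              · obtain rfl : w = u + 1 := by omega
                omega
          · exfalso
            have h1 := (hw.hh.mono (by omega : u + 2 ≤ w))
            have := hg.gap h1 (by omega)
            have h2 := two_pow_add_two u
            omega

/-- chain steps are made exactly at the tops of the chain (2) -/
theorem of_cs {l r : ℤ} (hf : Y.Full y l r) {c : ℤ} (hc : c + 1 ≤ r)
    (ihs : ∀ n x, l ≤ x → x ≤ c → Y.StatAt n x c)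
    (ih : ∀ x, l ≤ x → x ≤ c → Y.ChainAt y x c) {x : ℤ} (hx : l ≤ x) (hxc : x ≤ c)
    (hcs : Y.cs x c) : ∃ v u, LL v x ∧ v ≤ u ∧ HH (u + 2) (x - 2 ^ v) ∧
      c + 1 = x - 2 ^ v + 2 ^ (u + 1) := by
  obtain ⟨hal, hnl, hcase⟩ := hcs
  obtain ⟨v, hlv⟩ := exists_level (hf.ne_zero hx (by omega : x ≤ r))
  rcases Lv_or v hlv with hv | hv
  swap
  · exact absurd hal ((ih x hx hxc).dR v hv)
  have hPv := two_pow_pos' v
  have hSv := two_pow_succ' v
  obtain ⟨u, hvu, hu1, hu2⟩ := exists_log (a := c - (x - 2 ^ v)) (v := v) (by omega)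
  have hPu := two_pow_pos' u
  have hSu := two_pow_succ' u
  have hg : HH (u + 2) (x - 2 ^ v) := by
    rcases level_cases (u + 2) (x - 2 ^ v) with h | ⟨w, hw, h⟩
    · exact h
    · exfalso
      have hvw : v + 2 ≤ w := by
        by_contra hlt
        exact h.not_hh (by omega) (HH_LL hv)
      obtain ⟨t, rfl⟩ : ∃ t, w = t + 2 := ⟨w - 2, by omega⟩
      refine (ih x hx hxc).dL v hv t h ?_ hal
      have := two_pow_mono' (by omega : t + 1 ≤ u)
      omega
  refine ⟨v, u, hv, hvu, hg, ?_⟩
  by_contra hne
  have hlt : c + 1 < x - 2 ^ v + 2 ^ (u + 1) := by omega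
  rcases Nat.eq_or_lt_of_le hvu with rfl | hvu'
  · have hV := (ihs v x hx hxc).sV v le_rfl hlv (by omega)
    rcases hcase with ⟨-, h⟩ | ⟨h, -⟩
    · obtain ⟨w, -, -, -, h2⟩ := hasVL (hf.toSg v) hc (ihs v) hx hxc le_rfl hlv.hh (by omega) hnl
      exact h ⟨_, h2⟩
    · exact h hV
  · have hvu2 := two_pow_lt_succ hvu'
    have hnV : Y.stat x c ≠ .V := by
      intro hV
      by_cases h1 : c < x + 2 ^ (v + 1)
      · have := (ihs v x hx hxc).sW v le_rfl hlv (by omega) h1
        rw [hV] at this
        exact absurd this (by decide)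
      · have := (ihs v x hx hxc).sX v le_rfl hlv (by omega)
        rw [hV] at this
        exact absurd this (by decide)
    rcases hcase with ⟨h, -⟩ | ⟨-, z, hz1, hz2⟩
    · exact hnV h
    · have hLh : LL u (x - 2 ^ v + 2 ^ u) := LL_of_HH_add hg
      have hh : Y.VL x c (x - 2 ^ v + 2 ^ u) := by
        refine ⟨by omega, by omega, ?_, ?_⟩
        · exact (ihs u _ (by omega) (by omega)).sV u le_rfl hLh.lv (by omega)
        · exact hf.left u _ (by omega) (by omega) hLh
      obtain ⟨w, -, -, hw, h2⟩ := hasVL (hf.toSg u) hc (ihs u) (x := x - 2 ^ v + 2 ^ u)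
        (by omega) (by omega) le_rfl hLh.lv.hh (by omega) hnl
      have h3 : Y.VL x c (c + 1 - 2 ^ w) := by
        obtain ⟨a1, a2, a3, a4⟩ := h2
        exact ⟨by omega, a2, a3, a4⟩
      have e1 := hz2 _ hh
      have e2 := hz2 _ h3
      omega

/-- accumulated unmatched pushes at the tops of the chain -/
theorem UMb_iff {l r : ℤ} (hf : Y.Full y l r) {c : ℤ} (hc : c + 1 ≤ r)
    (ih : ∀ x, l ≤ x → x ≤ c → Y.ChainAt y x c) {x : ℤ} (hx : l ≤ x) (hxc : x ≤ c)
    {u v : ℕ} (hvu : v ≤ u) (hg : HH (u + 2) (x - 2 ^ v))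
    (hb : c + 1 = x - 2 ^ v + 2 ^ (u + 1)) (k : Fin H.K) :
    Y.UMb x c k ↔ ∃ w, v < w ∧ w ≤ u ∧ w ∈ lstk H y (u + 1) k := by
  have hPu := two_pow_pos' u
  have hSu := two_pow_succ' u
  have hPv := two_pow_pos' v
  have hSv := two_pow_succ' v
  constructor
  · rintro ⟨j, hj1, hj2, hj3, hj4⟩
    obtain ⟨w, hlw⟩ := exists_level (hf.ne_zero (by omega : l ≤ j) (by omega : j ≤ r))
    rcases Lv_or w hlw with hw | hw
    swap
    · exact absurd hj3 ((ih j (by omega) hj2).dR w hw)
    have hPw := two_pow_pos' w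
    rcases lt_trichotomy (j - 2 ^ w) (x - 2 ^ v) with h | h | h
    · exfalso
      by_cases hwu : w ≤ u + 2
      · have := ((HH_LL hw).mono (by omega : w ≤ w + 2)).gap (hg.mono hwu) h
        omega
      · have := hg.gap (hlw.hh.mono (by omega : u + 2 ≤ w)) (by omega)
        have h2 := two_pow_add_two u
        omega
    · have hvw : v < w := by
        by_contra hle
        have := two_pow_mono' (by omega : w ≤ v)
        omega
      have hwu : w ≤ u := by
        by_contra hlt
        have := two_pow_mono' (by omega : u + 1 ≤ w)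
        omega
      have := ((ih j (by omega) hj2).aL w hw u hwu (by rw [h]; exact hg) (by omega)
        (by omega)).2 k
      exact ⟨w, hvw, hwu, this.1 hj4⟩
    · exfalso
      obtain ⟨t, ht, hlt⟩ := near_level (v := u + 1) (hg.mono (by omega)) h (by omega)
      have hwt : w + 2 ≤ t := by
        by_contra hlt'
        exact hlt.not_hh (by omega) (HH_LL hw)
      obtain ⟨s, rfl⟩ : ∃ s, t = s + 2 := ⟨t - 2, by omega⟩
      have hbt : HH (s + 2) (c + 1) := by
        rw [hb]
        exact (hg.mono (by omega)).add_pow (by omega)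
      have hgap := hlt.hh.gap hbt (by omega)
      have hs1 := two_pow_succ' s
      have hs2 := two_pow_pos' s
      have hs3 := two_pow_add_two s
      exact (ih j (by omega) hj2).dL w hw s hlt (by omega) hj3
  · rintro ⟨w, hvw, hwu, hw⟩
    have h1 := two_pow_lt_succ hvw
    have h2 := two_pow_mono' hwu
    have e : x - 2 ^ v + 2 ^ w - 2 ^ w = x - 2 ^ v := by ring
    have hLw : LL w (x - 2 ^ v + 2 ^ w) := LL_of_HH_add (hg.mono (by omega))
    have := (ih (x - 2 ^ v + 2 ^ w) (by omega) (by omega)).aL w hLw u hwu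
      (by rw [e]; exact hg) (by omega) (by omega)
    exact ⟨x - 2 ^ v + 2 ^ w, by omega, by omega, this.1, (this.2 k).2 hw⟩

end Sys

end Pool.Agent.Helper76.Med
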