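import Pool.Agent.Helper76.MedIA

/-!
Module 4 of MP_4596be_lc: data carrying a history are good; good windows carry (an initial part of)
a history; decoding.
-/

namespace Pool.Agent.Helper76.Med

/-- the data of the window `[l,r]` are structured with origin `o` up to level `N`, the levels
carrying the instructions `y` -/
structure DStr (H : Hist) (dat : ℤ → Bool × Fin H.g) (l r : ℤ) (N : ℕ) (o : ℤ)
    (y : ℕ → Fin H.g) : Prop where
  leaf : ∀ x, l ≤ x → x ≤ r → (H.isInit (dat x).2 = true ↔ ¬ HH 1 (x - o))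
  left : ∀ v < N, ∀ x, l ≤ x → x ≤ r → LL v (x - o) → (dat x).1 = true
  right : ∀ v < N, ∀ x, l ≤ x → x ≤ r → RR v (x - o) → (dat x).1 = false
  pay : ∀ v < N, ∀ x, l ≤ x → x ≤ r → Lv v (x - o) → (dat x).2 = y v

theorem DStr.mono {H : Hist} {dat : ℤ → Bool × Fin H.g} {l r l' r' : ℤ} {N N' : ℕ} {o : ℤ}
    {y : ℕ → Fin H.g} (h : DStr H dat l r N o y) (hl : l ≤ l') (hr : r' ≤ r) (hN : N' ≤ N) :
    DStr H dat l' r' N' o y :=
  ⟨fun x h1 h2 => h.leaf x (by omega) (by omega),
   fun v hv x h1 h2 => h.left v (by omega) x (by omega) (by omega),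
   fun v hv x h1 h2 => h.right v (by omega) x (by omega) (by omega),
   fun v hv x h1 h2 => h.pay v (by omega) x (by omega) (by omega)⟩

section

variable {H : Hist} {dat : ℤ → Bool × Fin H.g}

theorem LL_neg {v : ℕ} {x : ℤ} : LL v (-x) ↔ RR v x := by
  unfold LL RR
  have e : -x - 2 ^ v = -(x + 2 ^ v) := by ring
  rw [e, dvd_neg]

theorem RR_neg {v : ℕ} {x : ℤ} : RR v (-x) ↔ LL v x := by
  rw [← LL_neg, neg_neg]

theorem HH_neg {v : ℕ} {x : ℤ} : HH v (-x) ↔ HH v x := dvd_neg

theorem Lv_neg {v : ℕ} {x : ℤ} : Lv v (-x) ↔ Lv v x := by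
  constructor
  · intro h
    rcases Lv_or v h with h | h
    · exact (LL_neg.1 h).lv
    · exact (RR_neg.1 h).lv
  · intro h
    rcases Lv_or v h with h | h
    · exact (RR_neg.2 h).lv
    · exact (LL_neg.2 h).lv

/-- data carrying the history `y` (origin 0) on the cells `≥ 1` are good in both directions -/
theorem good_of_history {y : ℕ → Fin H.g} (hy : y ∈ H.Runs)
    (hleaf : ∀ x, 1 ≤ x → (H.isInit (dat x).2 = true ↔ ¬ HH 1 x))
    (hleft : ∀ v x, 1 ≤ x → LL v x → (dat x).1 = true)
    (hright : ∀ v x, 1 ≤ x → RR v x → (dat x).1 = false)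
    (hpay : ∀ v x, 1 ≤ x → Lv v x → (dat x).2 = y v) (D : Bool) :
    Good (iaH H) dat D (Set.Ici 1) := by
  have key : ∀ N : ℤ, Good (iaH H) dat D (Set.Icc 1 N) := by
    intro N
    cases D with
    | true =>
      rw [good_iff]
      refine Sys.sound rules ⟨Or.inl (by omega), ?_, ?_, ?_, ?_⟩ hy
      · exact fun x h1 _ => hleaf x h1
      · exact fun v x h1 _ => hleft v x h1
      · exact fun v x h1 _ => hright v x h1
      · exact fun v x h1 _ => hpay v x h1
    | false =>
      rw [good_mirror, good_iff]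
      refine Sys.sound rules ⟨Or.inr (by omega), ?_, ?_, ?_, ?_⟩ hy
      · intro x h1 h2
        have := hleaf (-x) (by omega)
        rw [HH_neg] at this
        exact this
      · intro v x h1 h2 h3
        have := hright v (-x) (by omega) (RR_neg.2 h3)
        show (!(dat (-x)).1) = true
        rw [this]; rfl
      · intro v x h1 h2 h3
        have := hleft v (-x) (by omega) (LL_neg.2 h3)
        show (!(dat (-x)).1) = false
        rw [this]; rfl
      · intro v x h1 h2 h3
        exact hpay v (-x) (by omega) (Lv_neg.2 h3)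
  intro i hi k hk
  rcases le_total i (i + dz D * (k + 1)) with h | h
  · exact key (i + dz D * (k + 1)) i ⟨hi, h⟩ k ⟨hk, le_rfl⟩
  · exact key i i ⟨hi, le_rfl⟩ k ⟨hk, h⟩

/-- the conclusions about the history that a window gives at level `n` -/
def HistAt (H : Hist) (y : ℕ → Fin H.g) (n : ℕ) : Prop :=
  H.isInit (y 0) = true ∧ H.isInit (y (n + 1)) = false ∧ H.E (y n) (y (n + 1)) = true ∧
    H.OpOK (H.op (y (n + 1))) (H.stk y (n + 1))

theorem complete_right {l r : ℤ} (hg : Good (iaH H) dat true (Set.Icc l r)) (N : ℕ) :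
    ∃ o y, DStr H dat l r N o y ∧ ∀ n, 2 ^ (n + 4) ≤ r - l → HistAt H y n := by
  classical
  rw [good_iff] at hg
  -- a large level
  obtain ⟨M, hNM, hM⟩ : ∃ M : ℕ, N ≤ M ∧ r - l < 2 ^ M := by
    refine ⟨N + (r - l).toNat, by omega, ?_⟩
    have h2 : (2 : ℤ) ^ (r - l).toNat ≤ 2 ^ (N + (r - l).toNat) := two_pow_mono' (by omega)
    have h3 : (r - l).toNat < 2 ^ (r - l).toNat := Nat.lt_two_pow_self
    have h4 : (((r - l).toNat : ℕ) : ℤ) < 2 ^ (r - l).toNat := by exact_mod_cast h3
    have := Int.self_le_toNat (r - l)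
    omega
  obtain ⟨o, ho⟩ := Sys.exists_SgO rules hg M
  let y : ℕ → Fin H.g := fun v =>
    if h : ∃ x, l ≤ x ∧ x ≤ r ∧ Lv v (x - o) then (dat h.choose).2 else (dat l).2
  have hy : ∀ v < M, ∀ x, l ≤ x → x ≤ r → Lv v (x - o) → (dat x).2 = y v := by
    intro v hv x h1 h2 h3
    have hex : ∃ x, l ≤ x ∧ x ≤ r ∧ Lv v (x - o) := ⟨x, h1, h2, h3⟩
    have hy' : y v = (dat hex.choose).2 := dif_pos hex
    rw [hy']
    obtain ⟨g1, g2, g3⟩ := hex.choose_spec
    exact ho.pay v hv x hex.choose h1 h2 g1 g2 h3 g3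
  have hD : DStr H dat l r M o y := ⟨ho.leaf, ho.left, ho.right, hy⟩
  refine ⟨o, y, hD.mono le_rfl le_rfl hNM, ?_⟩
  intro n hn
  have hPn := two_pow_pos' n
  have e4 : (2 : ℤ) ^ (n + 4) = 16 * 2 ^ n := by ring
  have e2 : (2 : ℤ) ^ (n + 2) = 4 * 2 ^ n := by ring
  have e1 : (2 : ℤ) ^ (n + 1) = 2 * 2 ^ n := by ring
  -- a large subwindow without cells of level `≥ M`
  obtain ⟨l', r', hl', hr', hlen, hno⟩ : ∃ l' r', l ≤ l' ∧ r' ≤ r ∧ 6 * 2 ^ n ≤ r' - l' ∧
      ∀ x, l' ≤ x → x ≤ r' → ¬ HH M (x - o) := by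
    by_cases hex : ∃ z, l ≤ z ∧ z ≤ r ∧ HH M (z - o)
    · obtain ⟨z, hz1, hz2, hz3⟩ := hex
      have huniq : ∀ x, l ≤ x → x ≤ r → HH M (x - o) → x = z := by
        intro x hx1 hx2 hx3
        rcases lt_trichotomy x z with h | h | h
        · have := hx3.gap hz3 (by omega); omega
        · exact h
        · have := hz3.gap hx3 (by omega); omega
      by_cases hc : 8 * 2 ^ n ≤ z - l
      · refine ⟨l, z - 1, le_rfl, by omega, by omega, ?_⟩
        intro x h1 h2 h3
        have := huniq x h1 (by omega) h3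
        omega
      · refine ⟨z + 1, r, by omega, le_rfl, by omega, ?_⟩
        intro x h1 h2 h3
        have := huniq x (by omega) h2 h3
        omega
    · exact ⟨l, r, le_rfl, le_rfl, by omega, fun x h1 h2 h3 => hex ⟨x, h1, h2, h3⟩⟩
  -- fully structured in the shifted system
  have hfull : ((sysH H dat).shift o).Full y (l' - o) (r' - o) := by
    refine ⟨?_, ?_, ?_, ?_, ?_⟩
    · by_contra hcon
      have h0 : HH M (o - o) := by simp [HH]
      exact hno o (by omega) (by omega) h0
    · intro x h1 h2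
      have := ho.leaf (x + o) (by omega) (by omega)
      rw [add_sub_cancel_right] at this
      exact this
    · intro v x h1 h2 h3
      have hvM : v < M := by
        by_contra hge
        exact hno (x + o) (by omega) (by omega)
          (by rw [add_sub_cancel_right]; exact h3.lv.hh.mono (by omega))
      exact ho.left v hvM (x + o) (by omega) (by omega) (by rw [add_sub_cancel_right]; exact h3)
    · intro v x h1 h2 h3
      have hvM : v < M := by
        by_contra hge
        exact hno (x + o) (by omega) (by omega)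
          (by rw [add_sub_cancel_right]; exact h3.lv.hh.mono (by omega))
      exact ho.right v hvM (x + o) (by omega) (by omega) (by rw [add_sub_cancel_right]; exact h3)
    · intro v x h1 h2 h3
      have hvM : v < M := by
        by_contra hge
        exact hno (x + o) (by omega) (by omega)
          (by rw [add_sub_cancel_right]; exact h3.hh.mono (by omega))
      exact hy v hvM (x + o) (by omega) (by omega) (by rw [add_sub_cancel_right]; exact h3)
  have hG' : ((sysH H dat).shift o).GoodW (l' - o) (r' - o) := by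
    have := (Sys.GoodW.shift hg o)
    exact fun j c h1 h2 h3 => this j c (by omega) h2 (by omega)
  -- a multiple of 2^(n+2)
  obtain ⟨g, hg1, hg2, hg3⟩ : ∃ g, HH (n + 2) g ∧ l' - o ≤ g + 1 ∧ g + 1 < l' - o + 2 ^ (n + 2) := by
    have hP2 := two_pow_pos' (n + 2)
    have h1 := Int.emod_nonneg (-(l' - o - 1)) (ne_of_gt hP2)
    have h2 := Int.emod_lt_of_pos (-(l' - o - 1)) hP2
    refine ⟨(l' - o - 1) + (-(l' - o - 1)) % 2 ^ (n + 2), ?_, by omega, by omega⟩
    have h3 := Int.dvd_self_sub_emod (x := -(l' - o - 1)) (m := 2 ^ (n + 2))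
    have e : (l' - o - 1) + (-(l' - o - 1)) % 2 ^ (n + 2) =
        -(-(l' - o - 1) - (-(l' - o - 1)) % 2 ^ (n + 2)) := by ring
    unfold HH
    rw [e]
    exact (dvd_neg).2 h3
  exact Sys.complete (rules.shift o) hfull hG' hg1 hg2 (by omega)

/-- good windows carry an initial part of a history -/
theorem complete_window {l r : ℤ} {D : Bool} (hg : Good (iaH H) dat D (Set.Icc l r)) (N : ℕ) :
    ∃ o y, DStr H dat l r N o y ∧ ∀ n, 2 ^ (n + 4) ≤ r - l → HistAt H y n := by
  cases D with
  | true => exact complete_right hg N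
  | false =>
    rw [good_mirror] at hg
    obtain ⟨o, y, h1, h2⟩ := complete_right hg N
    refine ⟨-o, y, ⟨?_, ?_, ?_, ?_⟩, fun n hn => h2 n (by omega)⟩
    · intro x h3 h4
      have := h1.leaf (-x) (by omega) (by omega)
      have e : -x - o = -(x - -o) := by ring
      rw [e, HH_neg] at this
      simpa [mdat, mir] using this
    · intro v hv x h3 h4 h5
      have := h1.right v hv (-x) (by omega) (by omega) (by
        have e : -x - o = -(x - -o) := by ring
        rw [e]; exact RR_neg.2 h5)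
      simpa [mdat, mir] using this
    · intro v hv x h3 h4 h5
      have := h1.left v hv (-x) (by omega) (by omega) (by
        have e : -x - o = -(x - -o) := by ring
        rw [e]; exact LL_neg.2 h5)
      simpa [mdat, mir] using this
    · intro v hv x h3 h4 h5
      have := h1.pay v hv (-x) (by omega) (by omega) (by
        have e : -x - o = -(x - -o) := by ring
        rw [e]; exact Lv_neg.2 h5)
      simpa [mdat, mir] using this

end

/-! ### decoding -/

/-- position (relative to the start of the window) of a level-`n` cell of left type -/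
def dpos (H : Hist) (f : ℕ → Bool × Fin H.g) : ℕ → ℕ
  | 0 =>
    if H.isInit (f 0).2 && (f 0).1 then 0
    else if H.isInit (f 1).2 && (f 1).1 then 1
    else if H.isInit (f 2).2 && (f 2).1 then 2
    else 3
  | n + 1 =>
    if (f (dpos H f n + 2 ^ n)).1 then dpos H f n + 2 ^ n
    else dpos H f n + 2 ^ n + 2 ^ (n + 2)

theorem dpos_le (H : Hist) (f : ℕ → Bool × Fin H.g) (n : ℕ) : dpos H f n + 2 ≤ 5 * 2 ^ n := by
  induction n with
  | zero =>
    rw [dpos]
    split_ifs <;> omega
  | succ n ih =>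
    rw [dpos]
    have h1 : 0 < 2 ^ n := by positivity
    have e1 : 2 ^ (n + 1) = 2 * 2 ^ n := by ring
    have e2 : 2 ^ (n + 2) = 4 * 2 ^ n := by ring
    split_ifs <;> omega

theorem dpos_spec {H : Hist} {dat : ℤ → Bool × Fin H.g} {l r : ℤ} {N : ℕ} {o : ℤ}
    {y : ℕ → Fin H.g} (h : DStr H dat l r N o y) {f : ℕ → Bool × Fin H.g} {n : ℕ} (hn : n < N)
    (hr : l + 5 * 2 ^ n ≤ r) (hf : ∀ i : ℕ, l + i ≤ r → f i = dat (l + i)) :
    LL n (l + dpos H f n - o) := by
  induction n with
  | zero =>
    have hr' : l + 5 ≤ r := by simpa using hr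
    have hLL : ∀ i : ℕ, (i : ℤ) ≤ 3 → (H.isInit (f i).2 && (f i).1) = true → LL 0 (l + i - o) := by
      intro i hi hc
      rw [Bool.and_eq_true, hf i (by omega)] at hc
      have h1 := (h.leaf (l + i) (by omega) (by omega)).1 hc.1
      rcases level_cases 1 (l + i - o) with h2 | ⟨v, hv, h2⟩
      · exact absurd h2 h1
      · obtain rfl : v = 0 := by omega
        rcases Lv_or 0 h2 with h3 | h3
        · exact h3
        · rw [h.right 0 hn _ (by omega) (by omega) h3] at hc
          exact absurd hc.2 (by decide)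
    have hcond : ∀ i : ℕ, (i : ℤ) ≤ 3 → LL 0 (l + i - o) →
        (H.isInit (f i).2 && (f i).1) = true := by
      intro i hi hc
      rw [Bool.and_eq_true, hf i (by omega)]
      exact ⟨(h.leaf (l + i) (by omega) (by omega)).2 fun hh => hc.lv.not_hh (by omega) hh,
        h.left 0 hn _ (by omega) (by omega) hc⟩
    rw [dpos]
    split_ifs with c0 c1 c2
    · exact hLL 0 (by norm_num) c0
    · exact hLL 1 (by norm_num) c1
    · exact hLL 2 (by norm_num) c2
    · have n0 : ¬ LL 0 (l + (0 : ℕ) - o) := fun h => c0 (hcond 0 (by norm_num) h)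
      have n1 : ¬ LL 0 (l + (1 : ℕ) - o) := fun h => c1 (hcond 1 (by norm_num) h)
      have n2 : ¬ LL 0 (l + (2 : ℕ) - o) := fun h => c2 (hcond 2 (by norm_num) h)
      unfold LL at *
      norm_num at *
      omega
  | succ n ih =>
    have hPn := two_pow_pos' n
    have e1 : (2 : ℤ) ^ (n + 1) = 2 * 2 ^ n := by ring
    have e2 : (2 : ℤ) ^ (n + 2) = 4 * 2 ^ n := by ring
    have hle := dpos_le H f n
    have hle' : ((dpos H f n : ℕ) : ℤ) + 2 ≤ 5 * 2 ^ n := by exact_mod_cast hle
    have ih' := ih (by omega) (by omega)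
    have hcast : ((dpos H f n + 2 ^ n : ℕ) : ℤ) = dpos H f n + 2 ^ n := by push_cast; ring
    have hlv : Lv (n + 1) (l + ((dpos H f n + 2 ^ n : ℕ) : ℤ) - o) := by
      rw [hcast]
      unfold Lv
      have e : l + ((dpos H f n : ℤ) + 2 ^ n) - o - 2 ^ (n + 1) =
          l + (dpos H f n : ℤ) - o - 2 ^ n := by rw [e1]; ring
      rw [e]
      exact ih'
    rw [dpos]
    split_ifs with hc
    · rcases Lv_or _ hlv with h2 | h2
      · exact h2
      · exfalso
        rw [hf _ (by rw [hcast]; omega), h.right (n + 1) hn _ (by omega) (by rw [hcast]; omega)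
          h2] at hc
        exact absurd hc (by decide)
    · rcases Lv_or _ hlv with h2 | h2
      · exfalso
        apply hc
        rw [hf _ (by rw [hcast]; omega), h.left (n + 1) hn _ (by omega) (by rw [hcast]; omega) h2]
      · unfold LL
        unfold RR at h2
        have e : l + ((dpos H f n + 2 ^ n + 2 ^ (n + 2) : ℕ) : ℤ) - o - 2 ^ (n + 1) =
            l + ((dpos H f n + 2 ^ n : ℕ) : ℤ) - o + 2 ^ (n + 1) := by
          push_cast
          ring
        rw [e]
        exact h2

/-- decoding of the `n`-th instruction -/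
def decd (H : Hist) (f : ℕ → Bool × Fin H.g) (n : ℕ) : Fin H.g := (f (dpos H f n)).2

theorem decd_spec {H : Hist} {dat : ℤ → Bool × Fin H.g} {l r : ℤ} {N : ℕ} {o : ℤ}
    {y : ℕ → Fin H.g} (h : DStr H dat l r N o y) {f : ℕ → Bool × Fin H.g} {n : ℕ} (hn : n < N)
    (hr : l + 5 * 2 ^ n ≤ r) (hf : ∀ i : ℕ, l + i ≤ r → f i = dat (l + i)) :
    decd H f n = y n := by
  have h1 := dpos_spec h hn hr hf
  have hle := dpos_le H f n
  have hle' : ((dpos H f n : ℕ) : ℤ) + 2 ≤ 5 * 2 ^ n := by exact_mod_cast hle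
  unfold decd
  rw [hf _ (by omega)]
  exact h.pay n hn _ (by omega) (by omega) h1.lv

end Pool.Agent.Helper76.Med
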