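import Mathlib.Computability.Partrec
import Mathlib.Data.Sign.Defs
import Mathlib.Logic.Equiv.Nat

/-!
Definitions for MP_4596be_lc: Medvedev degrees of immortal sets of Turing machines.
-/

namespace Pool.Agent.Helper76.Med

/-- The initial segment `x 0, …, x (k-1)` of an infinite sequence, as a list. -/
def seg {α : Type} (x : ℕ → α) (k : ℕ) : List α := (List.range k).map x

/-- `P` is an effectively closed (`Π⁰₁`) subset of Cantor space: there is a computable set `T` of
finite strings such that `x ∈ P` iff all initial segments of `x` are in `T`. -/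
def IsPi01 (P : Set (ℕ → Bool)) : Prop :=
  ∃ T : List Bool → Bool, Computable T ∧ ∀ x, x ∈ P ↔ ∀ n, T (seg x n) = true

/-- The functional given by `φ` maps `y` to `x`: for every `n`, the shortest initial segment of `y`
on which `φ ( · , n)` is defined gives the value `x n`. -/
def Maps {α β : Type} (φ : List α × ℕ → Option β) (y : ℕ → α) (x : ℕ → β) : Prop :=
  ∀ n, ∃ k, φ (seg y k, n) = some (x n) ∧ ∀ j < k, φ (seg y j, n) = none

/-- Medvedev reducibility `P ≤_M R`: some Turing functional maps every point of `R` to a point
of `P`. -/
def MedLE {α β : Type} [Primcodable α] [Primcodable β] (P : Set (ℕ → β)) (R : Set (ℕ → α)) : Prop :=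
  ∃ φ : List α × ℕ → Option β, Computable φ ∧ ∀ y ∈ R, ∃ x ∈ P, Maps φ y x

/-- One step of the Turing machine `δ` on the configuration (state, tape), the head being at
cell `0`: write, move, recentre. -/
def step {Q S : Type} (δ : Q → S → Option (Q × S × SignType)) (c : Q × (ℤ → S)) :
    Option (Q × (ℤ → S)) :=
  (δ c.1 (c.2 0)).map fun r => (r.1, fun i => Function.update c.2 0 r.2.1 (i + (r.2.2 : ℤ)))

/-- The immortal set: configurations from which the machine never halts. -/
def immortal {Q S : Type} (δ : Q → S → Option (Q × S × SignType)) : Set (Q × (ℤ → S)) :=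
  {c | ∀ n : ℕ, ((fun o => Option.bind o (step δ))^[n] (some c)).isSome}

/-- The code of a configuration as a point of Cantor space: bit `2k` says whether the state is `k`,
bit `2 ⟨i,j⟩ + 1` says whether the cell number `i` (in the standard enumeration
`0, -1, 1, -2, 2, …` of the integers) holds the symbol `j`. -/
def code {nq ns : ℕ} (c : Fin nq × (ℤ → Fin ns)) : ℕ → Bool := fun n =>
  if n % 2 = 0 then decide ((c.1 : ℕ) = n / 2)
  else decide ((c.2 (Equiv.intEquivNat.symm (n / 2).unpair.1) : ℕ) = (n / 2).unpair.2)

end Pool.Agent.Helper76.Med
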