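import Pool.Agent.Helper76.MedMachine

/-!
Module 5 of MP_4596be_lc: the search lemma.
-/

namespace Pool.Agent.Helper76.Med

variable {A S C : Type} {I : IA A S C} {dat : ℤ → A}

open Function

/-- `n` cells starting at `p` in direction `D` -/
def zset (D : Bool) (p : ℤ) (n : ℕ) : Set ℤ := {x | ∃ j : ℕ, j < n ∧ x = p + dz D * j}

theorem dz_cases (D : Bool) : dz D = 1 ∨ dz D = -1 := by cases D <;> simp

theorem mem_zset {D : Bool} {p : ℤ} {n : ℕ} {x : ℤ} {j : ℕ} (hj : j < n) (hx : x = p + dz D * j) :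
    x ∈ zset D p n := ⟨j, hj, hx⟩

@[simp] theorem dir_fwd (D : Bool) (s : S) : (Kap.mk D .fwd s).dir = D := rfl
@[simp] theorem dir_back (D : Bool) (s : S) : (Kap.mk D .back s).dir = !D := rfl
@[simp] theorem dir_fin (D : Bool) (s : S) : (Kap.mk D .fin s).dir = !D := rfl

variable (I dat) in
/-- statement of the search lemma for zones of size `n` -/
def SearchP (n : ℕ) : Prop :=
  ∀ (κ : Kap S) (acc : C) (fg : ℤ → Fg S C) (p : ℤ),
    (∀ j : ℕ, j < n → fg (p + dz κ.dir * j) = .blank) → fg (p + dz κ.dir * n) ≠ .blank →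
    (RIn I dat (zset κ.dir p (n + 1)) ⟨.chk κ acc, fg, p⟩
        ⟨.chk κ (acz I dat κ.dir p n acc), fg, p + dz κ.dir * n⟩ ∧
      Good I dat κ.dir (zset κ.dir p n)) ∨
    (HIn I dat (zset κ.dir p (n + 1)) ⟨.chk κ acc, fg, p⟩ ∧
      ¬ (∀ D, Good I dat D (zset κ.dir p n)))

/-- foreground during the run of a child at `p`, with the search marker at distance `k+1` -/
def cfg (κ : Kap S) (acc : C) (fg : ℤ → Fg S C) (p : ℤ) (k : ℕ) : ℤ → Fg S C :=
  update (update fg p (.ret κ acc)) (p + dz κ.dir * (k + 1)) (.x κ.dir)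

variable (I dat) in
/-- configuration of a child at `p` that has read `k` cells -/
def stage (κ : Kap S) (acc : C) (fg : ℤ → Fg S C) (p : ℤ) (k : ℕ) : Cf A S C :=
  ⟨.chk ⟨κ.dir, .fwd, pst I dat κ.dir p k⟩ I.zero, cfg κ acc fg p k, p + dz κ.dir⟩

theorem pst_succ (D : Bool) (i : ℤ) (k : ℕ) :
    pst I dat D i (k + 1) =
      I.upd D (pst I dat D i k) (dat (i + dz D * (k + 1))) (acz I dat D (i + dz D) k I.zero) := by
  simp only [pst]

theorem acz_succ (D : Bool) (p : ℤ) (n : ℕ) (a : C) :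
    acz I dat D p (n + 1) a = acz I dat D (p + dz D) n (I.add a (pst I dat D p n)) := by
  simp only [acz]

theorem acz_zero (D : Bool) (p : ℤ) (a : C) : acz I dat D p 0 a = a := by
  simp only [acz]

theorem zset_sub {D D' : Bool} {p p' : ℤ} {n n' : ℕ}
    (h : ∀ j : ℕ, j < n' → ∃ i : ℕ, i < n ∧ p' + dz D' * j = p + dz D * i) :
    zset D' p' n' ⊆ zset D p n := by
  rintro x ⟨j, hj, rfl⟩
  obtain ⟨i, hi, h⟩ := h j hj
  exact ⟨i, hi, h⟩

/-- the part of a stage up to the check -/
theorem stage_read (κ : Kap S) (acc : C) (fg : ℤ → Fg S C) (p : ℤ) (k : ℕ)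
    (ih : SearchP I dat k)
    (hbl : ∀ j : ℕ, 1 ≤ j → j ≤ k + 1 → fg (p + dz κ.dir * j) = .blank) :
    (RIn I dat (zset κ.dir p (k + 3)) (stage I dat κ acc fg p k)
        ⟨.ext κ.dir (pst I dat κ.dir p (k + 1)), cfg κ acc fg p k, p + dz κ.dir * (k + 2)⟩ ∧
      Good I dat κ.dir (zset κ.dir (p + dz κ.dir) k) ∧ chkk I dat κ.dir p k) ∨
    (HIn I dat (zset κ.dir p (k + 3)) (stage I dat κ acc fg p k) ∧
      ¬ (∀ D, Good I dat D (zset κ.dir p (k + 2)))) := by
  set D := κ.dir with hD
  have hx : cfg κ acc fg p k (p + dz D * (k + 1)) = .x D := by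
    simp [cfg, ← hD]
  have h1 := ih ⟨D, .fwd, pst I dat D p k⟩ I.zero (cfg κ acc fg p k) (p + dz D) (by
      intro j hj
      have h2 := hbl (j + 1) (by omega) (by omega)
      simp only [dir_fwd, cfg, ← hD, update_apply]
      rw [if_neg, if_neg]
      · rw [← h2]; push_cast; congr 1; ring
      · obtain h | h := dz_cases D <;> rw [h] <;> omega
      · obtain h | h := dz_cases D <;> rw [h] <;> omega) (by
      simp only [dir_fwd]
      have : p + dz D + dz D * (k : ℤ) = p + dz D * (k + 1) := by ring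
      rw [this, hx]
      simp)
  simp only [dir_fwd] at h1
  have e1 : p + dz D + dz D * (k : ℤ) = p + dz D * (k + 1) := by ring
  rw [e1] at h1
  have s1 : zset D (p + dz D) (k + 1) ⊆ zset D p (k + 3) := by
    apply zset_sub
    intro j hj
    exact ⟨j + 1, by omega, by push_cast; ring⟩
  have s2 : zset D (p + dz D) k ⊆ zset D p (k + 2) := by
    apply zset_sub
    intro j hj
    exact ⟨j + 1, by omega, by push_cast; ring⟩
  rcases h1 with ⟨hr, hg⟩ | ⟨hh, hng⟩
  · by_cases hok : chkk I dat D p k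
    · left
      refine ⟨(hr.mono s1).trans ?_, hg, hok⟩
      refine RIn.head (step_chk_x_ok hx hok) ?_ ?_
      · exact ⟨k + 2, by omega, by push_cast; ring⟩
      · have e2 : p + dz D * ((k : ℤ) + 1) + dz D = p + dz D * (k + 2) := by ring
        rw [e2, ← pst_succ]
        exact RIn.refl
    · right
      refine ⟨HIn.of_RIn (hr.mono s1) (HIn.now (step_chk_x_fail hx hok)), ?_⟩
      intro hG
      apply hok
      refine hG D p ⟨0, by omega, by simp⟩ k ⟨k + 1, by omega, by push_cast; ring⟩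
  · right
    refine ⟨hh.mono s1, fun hG => hng fun D' => (hG D').mono _ _ s2⟩

/-- extension of the search zone of a child by one cell -/
theorem stage_step (κ : Kap S) (acc : C) (fg : ℤ → Fg S C) (p : ℤ) (k : ℕ)
    (ih : SearchP I dat k) (ih' : SearchP I dat (k + 1))
    (hbl : ∀ j : ℕ, 1 ≤ j → j ≤ k + 2 → fg (p + dz κ.dir * j) = .blank) :
    (∃ c', stp I dat (stage I dat κ acc fg p k) = some c' ∧ c'.p ∈ zset κ.dir p (k + 3) ∧
      RIn I dat (zset κ.dir p (k + 3)) c' (stage I dat κ acc fg p (k + 1)) ∧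
      Good I dat κ.dir (zset κ.dir (p + dz κ.dir) k) ∧ chkk I dat κ.dir p k) ∨
    (HIn I dat (zset κ.dir p (k + 3)) (stage I dat κ acc fg p k) ∧
      ¬ (∀ D, Good I dat D (zset κ.dir p (k + 2)))) := by
  rcases stage_read κ acc fg p k ih (fun j h1 h2 => hbl j h1 (by omega)) with
    ⟨hr, hg, hc⟩ | h
  swap
  · exact Or.inr h
  set D := κ.dir with hD
  have hne : p + dz D * ((k : ℤ) + 1) ≠ p + dz D * (k + 2) := by
    obtain h | h := dz_cases D <;> rw [h] <;> omega
  -- the extension cell is blank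
  have hb2 : cfg κ acc fg p k (p + dz D * (k + 2)) = .blank := by
    have h2 := hbl (k + 2) (by omega) (by omega)
    simp only [cfg, ← hD, update_apply]
    rw [if_neg, if_neg]
    · rw [← h2]; push_cast; rfl
    · obtain h | h := dz_cases D <;> rw [h] <;> omega
    · exact hne.symm
  have hb1 : fg (p + dz D * ((k : ℤ) + 1)) = .blank := by
    have h2 := hbl (k + 1) (by omega) (by omega)
    rw [← h2]; push_cast; rfl
  have hx1 : update (cfg κ acc fg p k) (p + dz D * (k + 2)) (.x D) (p + dz D * ((k : ℤ) + 1)) =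
      .x D := by
    rw [update_of_ne hne]
    simp [cfg, ← hD]
  have hcfg : update (update (cfg κ acc fg p k) (p + dz D * (k + 2)) (.x D))
      (p + dz D * ((k : ℤ) + 1)) .blank = cfg κ acc fg p (k + 1) := by
    funext i
    simp only [cfg, ← hD, update_apply]
    have e : p + dz D * (((k + 1 : ℕ) : ℤ) + 1) = p + dz D * (k + 2) := by push_cast; ring
    rw [e]
    by_cases h1 : i = p + dz D * ((k : ℤ) + 1)
    · subst h1
      rw [if_pos rfl, if_neg hne, if_neg, hb1]
      obtain h | h := dz_cases D <;> rw [h] <;> omega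
    · rw [if_neg h1, if_neg h1]
  -- backward search
  have h3 := ih' ⟨D, .back, pst I dat D p (k + 1)⟩ I.zero (cfg κ acc fg p (k + 1))
    (p + dz D * ((k : ℤ) + 1)) (by
      intro j hj
      have h2 := hbl (k + 1 - j) (by omega) (by omega)
      simp only [dir_back, dz_not, cfg, ← hD, update_apply]
      have e : p + dz D * ((k : ℤ) + 1) + -dz D * j = p + dz D * ((k + 1 - j : ℕ) : ℤ) := by
        rw [Nat.cast_sub (by omega)]; push_cast; ring
      rw [e, if_neg, if_neg, h2]
      · obtain h | h := dz_cases D <;> rw [h] <;> omega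
      · obtain h | h := dz_cases D <;> rw [h] <;> omega) (by
      simp only [dir_back, dz_not, cfg, ← hD, update_apply]
      rw [if_neg, if_pos]
      · simp
      · push_cast; ring
      · obtain h | h := dz_cases D <;> rw [h] <;> omega)
  simp only [dir_back] at h3
  have e3 : p + dz D * ((k : ℤ) + 1) + dz (!D) * ((k + 1 : ℕ) : ℤ) = p := by
    rw [dz_not]; push_cast; ring
  rw [e3] at h3
  have s1 : zset (!D) (p + dz D * ((k : ℤ) + 1)) (k + 1 + 1) ⊆ zset D p (k + 3) := by
    apply zset_sub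
    intro j hj
    refine ⟨k + 1 - j, by omega, ?_⟩
    rw [dz_not, Nat.cast_sub (by omega)]; push_cast; ring
  have s2 : zset (!D) (p + dz D * ((k : ℤ) + 1)) (k + 1) ⊆ zset D p (k + 2) := by
    apply zset_sub
    intro j hj
    refine ⟨k + 1 - j, by omega, ?_⟩
    rw [dz_not, Nat.cast_sub (by omega)]; push_cast; ring
  have m1 : p + dz D * ((k : ℤ) + 1) ∈ zset D p (k + 3) := ⟨k + 1, by omega, by push_cast; ring⟩
  -- from `ext` to the start of the backward search
  have hmid : RIn I dat (zset D p (k + 3))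
      ⟨.ext D (pst I dat D p (k + 1)), cfg κ acc fg p k, p + dz D * (k + 2)⟩
      ⟨.chk ⟨D, .back, pst I dat D p (k + 1)⟩ I.zero, cfg κ acc fg p (k + 1),
        p + dz D * ((k : ℤ) + 1)⟩ := by
    have e4 : p + dz D * ((k : ℤ) + 2) - dz D = p + dz D * (k + 1) := by ring
    refine RIn.head (step_ext_blank hb2) ?_ ?_
    · rw [e4]; exact m1
    · rw [e4]
      refine RIn.head (step_er hx1) m1 ?_
      rw [hcfg]
      exact RIn.refl
  have hfirst : ∃ c', stp I dat (stage I dat κ acc fg p k) = some c' ∧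
      c'.p ∈ zset D p (k + 3) ∧ RIn I dat (zset D p (k + 3)) c'
        ⟨.ext D (pst I dat D p (k + 1)), cfg κ acc fg p k, p + dz D * (k + 2)⟩ := by
    rcases Relation.ReflTransGen.cases_head hr with h | ⟨c, hc, hc'⟩
    · exfalso
      have := congrArg Cf.q h
      simp [stage] at this
    · exact ⟨c, hc.1, hc.2, hc'⟩
  rcases h3 with ⟨hr3, -⟩ | ⟨hh, hng⟩
  · left
    obtain ⟨c', hc1, hc2, hc3⟩ := hfirst
    refine ⟨c', hc1, hc2, (hc3.trans hmid).trans ((hr3.mono s1).trans ?_), hg, hc⟩
    have hret : cfg κ acc fg p (k + 1) p = .ret κ acc := by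
      simp only [cfg, ← hD, update_apply]
      rw [if_neg, if_pos trivial]
      obtain h | h := dz_cases D <;> rw [h] <;> omega
    refine RIn.head (step_back_ret hret hD.symm) ?_ ?_
    · exact ⟨1, by omega, by simp⟩
    · exact RIn.refl
  · right
    exact ⟨HIn.of_RIn (hr.trans hmid) (hh.mono s1), fun hG => hng fun D' => (hG D').mono _ _ s2⟩

/-- end of the run of a child: the next cell is not blank -/
theorem stage_fin (κ : Kap S) (acc : C) (fg : ℤ → Fg S C) (p : ℤ) (k : ℕ)
    (ih : SearchP I dat k) (ih' : SearchP I dat (k + 1))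
    (hbl : ∀ j : ℕ, j ≤ k + 1 → fg (p + dz κ.dir * j) = .blank)
    (hnb : fg (p + dz κ.dir * (k + 2)) ≠ .blank) :
    (RIn I dat (zset κ.dir p (k + 3)) (stage I dat κ acc fg p k)
        ⟨.chk κ (I.add acc (pst I dat κ.dir p (k + 1))), fg, p + dz κ.dir⟩ ∧
      Good I dat κ.dir (zset κ.dir (p + dz κ.dir) k) ∧ chkk I dat κ.dir p k) ∨
    (HIn I dat (zset κ.dir p (k + 3)) (stage I dat κ acc fg p k) ∧
      ¬ (∀ D, Good I dat D (zset κ.dir p (k + 2)))) := by
  rcases stage_read κ acc fg p k ih (fun j h1 h2 => hbl j h2) with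
    ⟨hr, hg, hc⟩ | h
  swap
  · exact Or.inr h
  set D := κ.dir with hD
  have hne : p + dz D * ((k : ℤ) + 1) ≠ p + dz D * (k + 2) := by
    obtain h | h := dz_cases D <;> rw [h] <;> omega
  have hb2 : cfg κ acc fg p k (p + dz D * (k + 2)) ≠ .blank := by
    simp only [cfg, ← hD, update_apply]
    rw [if_neg, if_neg]
    · exact hnb
    · obtain h | h := dz_cases D <;> rw [h] <;> omega
    · exact hne.symm
  have hb1 : fg (p + dz D * ((k : ℤ) + 1)) = .blank := by
    have h2 := hbl (k + 1) (by omega)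
    rw [← h2]; push_cast; rfl
  have hb0 : fg p = .blank := by
    have h2 := hbl 0 (by omega)
    simpa using h2
  have hx1 : cfg κ acc fg p k (p + dz D * ((k : ℤ) + 1)) = .x D := by
    simp [cfg, ← hD]
  have hcfg : update (cfg κ acc fg p k) (p + dz D * ((k : ℤ) + 1)) .blank =
      update fg p (.ret κ acc) := by
    funext i
    simp only [cfg, ← hD, update_apply]
    by_cases h1 : i = p + dz D * ((k : ℤ) + 1)
    · subst h1
      rw [if_pos rfl, if_neg, hb1]
      obtain h | h := dz_cases D <;> rw [h] <;> omega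
    · rw [if_neg h1, if_neg h1]
  have h3 := ih' ⟨D, .fin, pst I dat D p (k + 1)⟩ I.zero (update fg p (.ret κ acc))
    (p + dz D * ((k : ℤ) + 1)) (by
      intro j hj
      have h2 := hbl (k + 1 - j) (by omega)
      simp only [dir_fin, dz_not, update_apply]
      have e : p + dz D * ((k : ℤ) + 1) + -dz D * j = p + dz D * ((k + 1 - j : ℕ) : ℤ) := by
        rw [Nat.cast_sub (by omega)]; push_cast; ring
      rw [e, if_neg, h2]
      obtain h | h := dz_cases D <;> rw [h] <;> omega) (by
      simp only [dir_fin, dz_not, update_apply]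
      rw [if_pos]
      · simp
      · push_cast; ring)
  simp only [dir_fin] at h3
  have e3 : p + dz D * ((k : ℤ) + 1) + dz (!D) * ((k + 1 : ℕ) : ℤ) = p := by
    rw [dz_not]; push_cast; ring
  rw [e3] at h3
  have s1 : zset (!D) (p + dz D * ((k : ℤ) + 1)) (k + 1 + 1) ⊆ zset D p (k + 3) := by
    apply zset_sub
    intro j hj
    refine ⟨k + 1 - j, by omega, ?_⟩
    rw [dz_not, Nat.cast_sub (by omega)]; push_cast; ring
  have s2 : zset (!D) (p + dz D * ((k : ℤ) + 1)) (k + 1) ⊆ zset D p (k + 2) := by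
    apply zset_sub
    intro j hj
    refine ⟨k + 1 - j, by omega, ?_⟩
    rw [dz_not, Nat.cast_sub (by omega)]; push_cast; ring
  have m1 : p + dz D * ((k : ℤ) + 1) ∈ zset D p (k + 3) := ⟨k + 1, by omega, by push_cast; ring⟩
  have hmid : RIn I dat (zset D p (k + 3))
      ⟨.ext D (pst I dat D p (k + 1)), cfg κ acc fg p k, p + dz D * (k + 2)⟩
      ⟨.chk ⟨D, .fin, pst I dat D p (k + 1)⟩ I.zero, update fg p (.ret κ acc),
        p + dz D * ((k : ℤ) + 1)⟩ := by
    have e4 : p + dz D * ((k : ℤ) + 2) - dz D = p + dz D * (k + 1) := by ring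
    refine RIn.head (step_ext_nonblank hb2) ?_ ?_
    · rw [e4]; exact m1
    · rw [e4]
      refine RIn.head (step_er hx1) m1 ?_
      rw [hcfg]
      exact RIn.refl
  rcases h3 with ⟨hr3, -⟩ | ⟨hh, hng⟩
  · left
    refine ⟨(hr.trans hmid).trans ((hr3.mono s1).trans ?_), hg, hc⟩
    refine RIn.head (step_fin_ret (update_self ..) hD.symm) ?_ ?_
    · exact ⟨1, by omega, by simp⟩
    · rw [update_idem, update_self' hb0]
      exact RIn.refl
  · right
    exact ⟨HIn.of_RIn (hr.trans hmid) (hh.mono s1), fun hG => hng fun D' => (hG D').mono _ _ s2⟩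

/-- the first three steps of a search whose zone has at least two cells -/
theorem start_child (κ : Kap S) (acc : C) (fg : ℤ → Fg S C) (p : ℤ) (Z : Set ℤ)
    (h0 : fg p = .blank) (h1 : fg (p + dz κ.dir) = .blank) (hp : p ∈ Z) (hp1 : p + dz κ.dir ∈ Z) :
    RIn I dat Z ⟨.chk κ acc, fg, p⟩ (stage I dat κ acc fg p 0) := by
  refine RIn.head (step_chk_blank h0) hp1 (RIn.head (step_look_blank h1) ?_ ?_)
  · simpa using hp
  have e : p + dz κ.dir - dz κ.dir = p := by ring
  rw [e]
  have hne : p ≠ p + dz κ.dir := by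
    obtain h | h := dz_cases κ.dir <;> rw [h] <;> omega
  refine RIn.head (step_wr_blank (by rw [update_of_ne hne, h0])) hp1 ?_
  have : update (update fg (p + dz κ.dir) (.x κ.dir)) p (.ret κ acc) = cfg κ acc fg p 0 := by
    rw [cfg, update_comm hne.symm]
    simp
  rw [this]
  have h3 : I.init κ.dir (dat p) = pst I dat κ.dir p 0 := by simp only [pst]
  rw [h3]
  exact RIn.refl

/-- all the stages of a child inside a zone of `n` cells -/
theorem stages (κ : Kap S) (acc : C) (fg : ℤ → Fg S C) (p : ℤ) (n : ℕ)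
    (ih : ∀ m < n, SearchP I dat m)
    (hbl : ∀ j : ℕ, j < n → fg (p + dz κ.dir * j) = .blank) (k : ℕ) (hk : k + 2 ≤ n) :
    (RIn I dat (zset κ.dir p (n + 1)) (stage I dat κ acc fg p 0) (stage I dat κ acc fg p k) ∧
      ∀ k' < k, chkk I dat κ.dir p k') ∨
    (HIn I dat (zset κ.dir p (n + 1)) (stage I dat κ acc fg p 0) ∧
      ¬ (∀ D, Good I dat D (zset κ.dir p n))) := by
  induction k with
  | zero => exact Or.inl ⟨RIn.refl, by simp⟩
  | succ k ihk =>
    rcases ihk (by omega) with ⟨hr, hc⟩ | h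
    swap
    · exact Or.inr h
    rcases stage_step κ acc fg p k (ih _ (by omega)) (ih _ (by omega))
      (fun j _ h2 => hbl j (by omega)) with ⟨c', h1, h2, h3, -, h5⟩ | ⟨h1, h2⟩
    · left
      have s1 : zset κ.dir p (k + 3) ⊆ zset κ.dir p (n + 1) :=
        zset_sub fun j hj => ⟨j, by omega, rfl⟩
      refine ⟨hr.trans (RIn.head h1 (s1 h2) (h3.mono s1)), ?_⟩
      intro k' hk'
      rcases Nat.lt_succ_iff_lt_or_eq.1 hk' with h | h
      · exact hc k' h
      · rw [h]; exact h5
    · right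
      refine ⟨HIn.of_RIn hr (h1.mono (zset_sub fun j hj => ⟨j, by omega, rfl⟩)), fun hG => h2 ?_⟩
      exact fun D' => (hG D').mono _ _ (zset_sub fun j hj => ⟨j, by omega, rfl⟩)

/-- the search lemma -/
theorem search (n : ℕ) : SearchP I dat n := by
  induction n using Nat.strong_induction_on with
  | _ n ih =>
  intro κ acc fg p hbl hnb
  rcases n with _ | _ | n
  · left
    refine ⟨?_, ?_⟩
    · simp only [Nat.cast_zero, mul_zero, add_zero, acz_zero]
      exact RIn.refl
    · rintro i ⟨j, hj, -⟩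
      omega
  · left
    have h0 : fg p = .blank := by simpa using hbl 0 (by omega)
    have h1 : fg (p + dz κ.dir) ≠ .blank := by simpa using hnb
    have m1 : p + dz κ.dir ∈ zset κ.dir p (0 + 1 + 1) := ⟨1, by omega, by simp⟩
    refine ⟨RIn.head (step_chk_blank h0) m1 (RIn.head (step_look_nonblank h1) m1 ?_), ?_⟩
    · have e : p + dz κ.dir * ((0 + 1 : ℕ) : ℤ) = p + dz κ.dir := by simp
      rw [e, acz_succ, acz_zero, pst]
      exact RIn.refl
    · rintro i ⟨j, hj, rfl⟩ k ⟨j', hj', h'⟩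
      exfalso
      have : j = 0 := by omega
      have : j' = 0 := by omega
      subst j j'
      obtain h | h := dz_cases κ.dir <;> rw [h] at h' <;> omega
  · -- at least two cells
    have h0 : fg p = .blank := by simpa using hbl 0 (by omega)
    have h1 : fg (p + dz κ.dir) = .blank := by simpa using hbl 1 (by omega)
    have hst : RIn I dat (zset κ.dir p (n + 1 + 1 + 1)) ⟨.chk κ acc, fg, p⟩
        (stage I dat κ acc fg p 0) :=
      start_child κ acc fg p _ h0 h1 ⟨0, by omega, by simp⟩ ⟨1, by omega, by simp⟩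
    rcases stages κ acc fg p (n + 2) ih hbl n (by omega) with ⟨hr, hc⟩ | ⟨h1, h2⟩
    swap
    · exact Or.inr ⟨HIn.of_RIn hst h1, h2⟩
    rcases stage_fin κ acc fg p n (ih _ (by omega)) (ih _ (by omega))
      (fun j hj => hbl j (by omega)) (by
        have : ((n + 1 + 1 : ℕ) : ℤ) = n + 2 := by push_cast; ring
        rw [← this]; exact hnb) with ⟨hr2, -, hc2⟩ | ⟨h1, h2⟩
    swap
    · right
      exact ⟨HIn.of_RIn (hst.trans hr) h1, h2⟩
    have ih1 := ih (n + 1) (by omega) κ (I.add acc (pst I dat κ.dir p (n + 1))) fg (p + dz κ.dir)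
      (fun j hj => by
        have := hbl (j + 1) (by omega)
        rw [← this]; push_cast; congr 1; ring)
      (by
        have : p + dz κ.dir + dz κ.dir * ((n + 1 : ℕ) : ℤ) = p + dz κ.dir * ((n + 1 + 1 : ℕ) : ℤ) := by
          push_cast; ring
        rw [this]; exact hnb)
    have e : p + dz κ.dir + dz κ.dir * ((n + 1 : ℕ) : ℤ) = p + dz κ.dir * ((n + 1 + 1 : ℕ) : ℤ) := by
      push_cast; ring
    rw [e] at ih1
    have s1 : zset κ.dir (p + dz κ.dir) (n + 1 + 1) ⊆ zset κ.dir p (n + 1 + 1 + 1) :=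
      zset_sub fun j hj => ⟨j + 1, by omega, by push_cast; ring⟩
    have s2 : zset κ.dir (p + dz κ.dir) (n + 1) ⊆ zset κ.dir p (n + 1 + 1) :=
      zset_sub fun j hj => ⟨j + 1, by omega, by push_cast; ring⟩
    rcases ih1 with ⟨h3, h4⟩ | ⟨h3, h4⟩
    · left
      rw [acz_succ]
      refine ⟨((hst.trans hr).trans hr2).trans (h3.mono s1), ?_⟩
      rintro i ⟨j, hj, rfl⟩ k ⟨j', hj', h'⟩
      have hjj : j' = j + (k + 1) := by
        obtain h | h := dz_cases κ.dir <;> rw [h] at h' <;> omega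
      rcases j with _ | j
      · have hk : k < n + 1 := by omega
        have : chkk I dat κ.dir p k := by
          rcases Nat.lt_succ_iff_lt_or_eq.1 hk with h | h
          · exact hc k h
          · rw [h]; exact hc2
        simpa using this
      · refine h4 _ ⟨j, by omega, by push_cast; ring⟩ k ⟨j' - 1, by omega, ?_⟩
        rw [h', Nat.cast_sub (by omega)]; push_cast; ring
    · right
      exact ⟨HIn.of_RIn ((hst.trans hr).trans hr2) (h3.mono s1),
        fun hG => h4 fun D' => (hG D').mono _ _ s2⟩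

end Pool.Agent.Helper76.Med
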