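import Pool.Agent.Helper76.MedSound
import Pool.Agent.Helper76.MedSearch

/-!
Module 4 of MP_4596be_lc: the concrete interval automaton of a history system.
-/

namespace Pool.Agent.Helper76.Med

open Classical in
/-- mirror image of a letter -/
def mir {g : ℕ} (a : Bool × Fin g) : Bool × Fin g := (!a.1, a.2)

theorem mir_mir {g : ℕ} (a : Bool × Fin g) : mir (mir a) = a := by simp [mir]

/-- the letter as seen by a process with direction `D` -/
def dl {g : ℕ} (D : Bool) (a : Bool × Fin g) : Bool × Fin g := if D then a else mir a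

/-- process states -/
structure PS (H : Hist) where
  a : Bool × Fin H.g
  fr : Bool
  st : Sta
  al : Bool
  um : Fin H.K → Bool

/-- accumulators -/
structure AC (H : Hist) where
  w : Bool
  vl : Fin 3
  um : Fin H.K → Bool

/-- saturating successor -/
def sat (v : Fin 3) : Fin 3 := if v = 0 then 1 else 2

section

variable (H : Hist)

/-- chain step condition -/
def csP (s : PS H) (b : Bool × Fin H.g) (c : AC H) : Prop :=
  s.al = true ∧ ¬ H.isInit b.2 = true ∧
    ((s.st = .V ∧ c.vl = 0) ∨ (s.st ≠ .V ∧ c.vl = 1))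

open Classical in
/-- update of a process state (letter `b` as seen by the process) -/
noncomputable def updP (s : PS H) (b : Bool × Fin H.g) (c : AC H) : PS H where
  a := s.a
  fr := false
  st := if s.st = .W ∧ ¬ c.w = true then .X
    else if s.st = .V ∧ ¬ H.isInit b.2 = true ∧ c.vl = 0 then .W else s.st
  al := decide (s.al = true ∧ ¬ (csP H s b c ∧ b.1 = false))
  um k := decide (s.um k = true ∧ ¬ (csP H s b c ∧ Sys.pops H b.2 k ∧ ¬ c.um k = true))

/-- checks -/
def okP (s : PS H) (b : Bool × Fin H.g) (c : AC H) : Prop :=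
  (s.fr = true → (H.isInit s.a.2 = true ↔ ¬ H.isInit b.2 = true)) ∧
  (s.st = .W → ¬ c.w = true → s.a.1 ≠ b.1 ∧ s.a.2 = b.2) ∧
  (s.st = .V → ¬ H.isInit b.2 = true → c.vl = 0 → s.a.1 = true → H.E s.a.2 b.2 = true) ∧
  (csP H s b c → ∀ k o, H.op b.2 = some (k, Sum.inr o) → ¬ c.um k = true →
    (s.um k = true → ∀ x, H.op s.a.2 = some (k, Sum.inl x) → o = some x) ∧
    (¬ s.um k = true → H.isInit s.a.2 = true → o = none))

open Classical in
/-- the interval automaton of a history system -/
noncomputable def iaH : IA (Bool × Fin H.g) (PS H) (AC H) where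
  init D a := ⟨dl D a, true, .V, (dl D a).1, fun k => decide (Sys.pushes H (dl D a).2 k)⟩
  upd D s b c := updP H s (dl D b) c
  ok D s b c := decide (okP H s (dl D b) c)
  zero := ⟨false, 0, fun _ => false⟩
  add c s := ⟨c.w || decide (s.st = .W), if s.st = .V ∧ s.a.1 = true then sat c.vl else c.vl,
    fun k => c.um k || (s.al && s.um k)⟩

variable (dat : ℤ → Bool × Fin H.g)

/-- the abstract system given by the rightward processes -/
noncomputable def sysH : Sys H where
  sgm x := (dat x).1
  pay x := (dat x).2
  stat j c := (pst (iaH H) dat true j (c - j).toNat).st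
  al j c := (pst (iaH H) dat true j (c - j).toNat).al = true
  um j c k := (pst (iaH H) dat true j (c - j).toNat).um k = true

variable {H dat}

theorem pst_a (j : ℤ) (n : ℕ) : (pst (iaH H) dat true j n).a = dat j := by
  induction n with
  | zero => simp [pst, iaH, dl]
  | succ n ih =>
    rw [pst_succ]
    exact ih

theorem pst_fr (j : ℤ) (n : ℕ) : (pst (iaH H) dat true j n).fr = true ↔ n = 0 := by
  cases n with
  | zero => simp [pst, iaH]
  | succ n => simp [pst_succ, iaH, updP]

theorem acz_w (n : ℕ) : ∀ (p : ℤ) (a : AC H), ((acz (iaH H) dat true p n a).w = true ↔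
    a.w = true ∨ ∃ j : ℤ, p ≤ j ∧ j ≤ p + n - 1 ∧ (sysH H dat).stat j (p + n - 1) = .W) := by
  induction n with
  | zero =>
    intro p a
    rw [acz_zero]
    constructor
    · exact Or.inl
    · rintro (h | ⟨j, h1, h2, -⟩)
      · exact h
      · simp at h2; omega
  | succ n ih =>
    intro p a
    rw [acz_succ, ih]
    have e : p + dz true + (n : ℤ) - 1 = p + ((n + 1 : ℕ) : ℤ) - 1 := by
      simp; ring
    have e2 : (sysH H dat).stat p (p + ((n + 1 : ℕ) : ℤ) - 1) =
        (pst (iaH H) dat true p n).st := by
      simp only [sysH]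
      congr 2
      push_cast
      omega
    rw [e]
    constructor
    · rintro (h | ⟨j, h1, h2, h3⟩)
      · have h' : (a.w || decide ((pst (iaH H) dat true p n).st = .W)) = true := h
        rw [Bool.or_eq_true, decide_eq_true_iff] at h'
        rcases h' with h' | h'
        · exact Or.inl h'
        · exact Or.inr ⟨p, le_rfl, by push_cast; omega, by rw [e2]; exact h'⟩
      · simp only [dz_true] at h1
        exact Or.inr ⟨j, by omega, h2, h3⟩
    · rintro (h | ⟨j, h1, h2, h3⟩)
      · left
        show (a.w || decide ((pst (iaH H) dat true p n).st = .W)) = true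
        rw [h]; rfl
      · rcases eq_or_lt_of_le h1 with rfl | h1
        · left
          show (a.w || decide ((pst (iaH H) dat true p n).st = .W)) = true
          rw [e2] at h3
          rw [h3]; simp
        · right
          exact ⟨j, by simp only [dz_true]; omega, h2, h3⟩

theorem acz_um (n : ℕ) (k : Fin H.K) : ∀ (p : ℤ) (a : AC H),
    ((acz (iaH H) dat true p n a).um k = true ↔
    a.um k = true ∨ ∃ j : ℤ, p ≤ j ∧ j ≤ p + n - 1 ∧ (sysH H dat).al j (p + n - 1) ∧
      (sysH H dat).um j (p + n - 1) k) := by
  induction n with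
  | zero =>
    intro p a
    rw [acz_zero]
    constructor
    · exact Or.inl
    · rintro (h | ⟨j, h1, h2, -⟩)
      · exact h
      · simp at h2; omega
  | succ n ih =>
    intro p a
    rw [acz_succ, ih]
    have e : p + dz true + (n : ℤ) - 1 = p + ((n + 1 : ℕ) : ℤ) - 1 := by
      simp; ring
    have e0 : (p + ((n + 1 : ℕ) : ℤ) - 1 - p).toNat = n := by push_cast; omega
    rw [e]
    constructor
    · rintro (h | ⟨j, h1, h2, h3⟩)
      · have h' : (a.um k || ((pst (iaH H) dat true p n).al &&
            (pst (iaH H) dat true p n).um k)) = true := h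
        rw [Bool.or_eq_true, Bool.and_eq_true] at h'
        rcases h' with h' | h'
        · exact Or.inl h'
        · refine Or.inr ⟨p, le_rfl, by push_cast; omega, ?_⟩
          simp only [sysH, e0]
          exact h'
      · simp only [dz_true] at h1
        exact Or.inr ⟨j, by omega, h2, h3⟩
    · rintro (h | ⟨j, h1, h2, h3⟩)
      · left
        show (a.um k || ((pst (iaH H) dat true p n).al &&
            (pst (iaH H) dat true p n).um k)) = true
        rw [h]; rfl
      · rcases eq_or_lt_of_le h1 with rfl | h1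
        · left
          show (a.um k || ((pst (iaH H) dat true p n).al &&
            (pst (iaH H) dat true p n).um k)) = true
          simp only [sysH, e0] at h3
          rw [h3.1, h3.2]; simp
        · right
          exact ⟨j, by simp only [dz_true]; omega, h2, h3⟩

variable (H dat) in
/-- visible left-type cells among the `n` cells starting at `p` -/
def VLn (p : ℤ) (n : ℕ) (j : ℤ) : Prop :=
  p ≤ j ∧ j ≤ p + n - 1 ∧ (sysH H dat).stat j (p + n - 1) = .V ∧ (sysH H dat).sgm j = true

theorem VLn_succ {p : ℤ} {n : ℕ} {j : ℤ} : VLn H dat p (n + 1) j ↔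
    (j = p ∧ (pst (iaH H) dat true p n).st = .V ∧ (dat p).1 = true) ∨
      VLn H dat (p + dz true) n j := by
  have e : p + dz true + (n : ℤ) - 1 = p + ((n + 1 : ℕ) : ℤ) - 1 := by
    simp; ring
  have e0 : (p + ((n + 1 : ℕ) : ℤ) - 1 - p).toNat = n := by push_cast; omega
  unfold VLn
  rw [e]
  constructor
  · rintro ⟨h1, h2, h3, h4⟩
    rcases eq_or_lt_of_le h1 with rfl | h1
    · left
      simp only [sysH, e0] at h3 h4
      exact ⟨rfl, h3, h4⟩
    · right
      exact ⟨by simp only [dz_true]; omega, h2, h3, h4⟩
  · rintro (⟨rfl, h1, h2⟩ | ⟨h1, h2, h3, h4⟩)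
    · refine ⟨le_rfl, by push_cast; omega, ?_, h2⟩
      simp only [sysH, e0]
      exact h1
    · simp only [dz_true] at h1
      exact ⟨by omega, h2, h3, h4⟩

theorem sat_ne_zero (v : Fin 3) : sat v ≠ 0 := by
  unfold sat; split_ifs <;> decide

theorem sat_eq_one {v : Fin 3} : sat v = 1 ↔ v = 0 := by
  unfold sat
  split_ifs with h
  · simp [h]
  · simp [h]

theorem acz_vl (n : ℕ) : ∀ (p : ℤ) (a : AC H),
    ((acz (iaH H) dat true p n a).vl = 0 ↔ a.vl = 0 ∧ ¬ ∃ j, VLn H dat p n j) ∧
    ((acz (iaH H) dat true p n a).vl = 1 ↔ (a.vl = 1 ∧ ¬ ∃ j, VLn H dat p n j) ∨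
      (a.vl = 0 ∧ ∃ j, VLn H dat p n j ∧ ∀ j', VLn H dat p n j' → j' = j)) := by
  induction n with
  | zero =>
    intro p a
    rw [acz_zero]
    have hno : ∀ j, ¬ VLn H dat p 0 j := by
      rintro j ⟨h1, h2, -⟩
      simp at h2; omega
    constructor
    · simp [hno]
    · simp [hno]
  | succ n ih =>
    intro p a
    rw [acz_succ]
    obtain ⟨ih1, ih2⟩ := ih (p + dz true) ((iaH H).add a (pst (iaH H) dat true p n))
    have hnp : ¬ VLn H dat (p + dz true) n p := by
      rintro ⟨h1, -⟩
      simp only [dz_true] at h1; omega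
    by_cases hp : (pst (iaH H) dat true p n).st = .V ∧ (dat p).1 = true
    · have hadd : ((iaH H).add a (pst (iaH H) dat true p n)).vl = sat a.vl := by
        show (if (pst (iaH H) dat true p n).st = .V ∧ (pst (iaH H) dat true p n).a.1 = true then
          sat a.vl else a.vl) = _
        rw [pst_a, if_pos hp]
      rw [hadd] at ih1 ih2
      rw [ih1, ih2]
      have hVp : VLn H dat p (n + 1) p := VLn_succ.2 (Or.inl ⟨rfl, hp⟩)
      constructor
      · simp only [sat_ne_zero, false_and, false_iff]
        rintro ⟨-, h⟩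
        exact h ⟨p, hVp⟩
      · simp only [sat_ne_zero, false_and, or_false, sat_eq_one]
        constructor
        · rintro ⟨h1, h2⟩
          right
          refine ⟨h1, p, hVp, ?_⟩
          intro j' hj'
          rcases VLn_succ.1 hj' with h | h
          · exact h.1
          · exact absurd ⟨j', h⟩ h2
        · rintro (⟨-, h⟩ | ⟨h1, j, h2, h3⟩)
          · exact absurd ⟨p, hVp⟩ h
          · refine ⟨h1, ?_⟩
            rintro ⟨j', h4⟩
            have h5 := h3 j' (VLn_succ.2 (Or.inr h4))
            have h6 := h3 p hVp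
            rw [h5, ← h6] at h4
            exact hnp h4
    · have hadd : ((iaH H).add a (pst (iaH H) dat true p n)).vl = a.vl := by
        show (if (pst (iaH H) dat true p n).st = .V ∧ (pst (iaH H) dat true p n).a.1 = true then
          sat a.vl else a.vl) = _
        rw [pst_a, if_neg hp]
      rw [hadd] at ih1 ih2
      rw [ih1, ih2]
      have hiff : ∀ j, VLn H dat p (n + 1) j ↔ VLn H dat (p + dz true) n j := by
        intro j
        rw [VLn_succ]
        constructor
        · rintro (⟨-, h⟩ | h)
          · exact absurd h hp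
          · exact h
        · exact Or.inr
      simp only [hiff, and_self]

theorem VLn_iff {j c : ℤ} (h : j ≤ c) {j' : ℤ} :
    VLn H dat (j + 1) (c - j).toNat j' ↔ (sysH H dat).VL j c j' := by
  have e : j + 1 + ((c - j).toNat : ℤ) - 1 = c := by omega
  unfold VLn Sys.VL
  rw [e]
  constructor
  · rintro ⟨h1, h2, h3⟩
    exact ⟨by omega, h2, h3⟩
  · rintro ⟨h1, h2, h3⟩
    exact ⟨by omega, h2, h3⟩

theorem acc_w {j c : ℤ} (h : j ≤ c) :
    (acz (iaH H) dat true (j + dz true) (c - j).toNat (iaH H).zero).w = true ↔
      (sysH H dat).Wb j c := by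
  rw [acz_w]
  have e : j + dz true + ((c - j).toNat : ℤ) - 1 = c := by simp only [dz_true]; omega
  rw [e]
  constructor
  · rintro (h | ⟨j', h1, h2, h3⟩)
    · exact absurd h (by simp [iaH])
    · simp only [dz_true] at h1
      exact ⟨j', by omega, h2, h3⟩
  · rintro ⟨j', h1, h2, h3⟩
    exact Or.inr ⟨j', by simp only [dz_true]; omega, h2, h3⟩

theorem acc_um {j c : ℤ} (h : j ≤ c) (k : Fin H.K) :
    (acz (iaH H) dat true (j + dz true) (c - j).toNat (iaH H).zero).um k = true ↔
      (sysH H dat).UMb j c k := by
  rw [acz_um]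
  have e : j + dz true + ((c - j).toNat : ℤ) - 1 = c := by simp only [dz_true]; omega
  rw [e]
  constructor
  · rintro (h | ⟨j', h1, h2, h3⟩)
    · exact absurd h (by simp [iaH])
    · simp only [dz_true] at h1
      exact ⟨j', by omega, h2, h3⟩
  · rintro ⟨j', h1, h2, h3⟩
    exact Or.inr ⟨j', by simp only [dz_true]; omega, h2, h3⟩

theorem acc_vl0 {j c : ℤ} (h : j ≤ c) :
    (acz (iaH H) dat true (j + dz true) (c - j).toNat (iaH H).zero).vl = 0 ↔
      ¬ (sysH H dat).VLb j c := by
  rw [(acz_vl _ _ _).1]
  simp only [dz_true, VLn_iff h]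
  simp [iaH, Sys.VLb]

theorem acc_vl1 {j c : ℤ} (h : j ≤ c) :
    (acz (iaH H) dat true (j + dz true) (c - j).toNat (iaH H).zero).vl = 1 ↔
      (sysH H dat).VL1 j c := by
  rw [(acz_vl _ _ _).2]
  simp only [dz_true, VLn_iff h]
  simp [iaH, Sys.VL1]

theorem pst_next {j c : ℤ} (h : j ≤ c) :
    pst (iaH H) dat true j (c + 1 - j).toNat =
      updP H (pst (iaH H) dat true j (c - j).toNat) (dat (c + 1))
        (acz (iaH H) dat true (j + dz true) (c - j).toNat (iaH H).zero) := by
  have e1 : (c + 1 - j).toNat = (c - j).toNat + 1 := by omega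
  rw [e1, pst_succ]
  have e2 : j + dz true * (((c - j).toNat : ℤ) + 1) = c + 1 := by
    simp only [dz_true]; omega
  rw [e2]
  rfl

theorem csP_iff {j c : ℤ} (h : j ≤ c) :
    csP H (pst (iaH H) dat true j (c - j).toNat) (dat (c + 1))
      (acz (iaH H) dat true (j + dz true) (c - j).toNat (iaH H).zero) ↔
      (sysH H dat).cs j c := by
  unfold csP Sys.cs
  rw [acc_vl0 h, acc_vl1 h]
  rfl

open Classical in
theorem rules : (sysH H dat).Rules := by
  constructor
  · intro j
    simp [sysH, pst, iaH]
  · intro j c h h1 h2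
    show (pst (iaH H) dat true j (c + 1 - j).toNat).st = _
    rw [pst_next h]
    have h1' : (pst (iaH H) dat true j (c - j).toNat).st = .W := h1
    simp only [updP, (acc_w h).2 h2, h1']
    simp
  · intro j c h h1 h2
    show (pst (iaH H) dat true j (c + 1 - j).toNat).st = _
    rw [pst_next h]
    have h1' : (pst (iaH H) dat true j (c - j).toNat).st = .W := h1
    rw [← acc_w h] at h2
    simp only [updP, h1', h2]
    simp
  · intro j c h h1
    show (pst (iaH H) dat true j (c + 1 - j).toNat).st = _
    rw [pst_next h]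
    have h1' : (pst (iaH H) dat true j (c - j).toNat).st = .X := h1
    simp [updP, h1']
  · intro j c h h1 h2 h3
    show (pst (iaH H) dat true j (c + 1 - j).toNat).st = _
    rw [pst_next h]
    have h1' : (pst (iaH H) dat true j (c - j).toNat).st = .V := h1
    have h2' : ¬ H.isInit (dat (c + 1)).2 = true := h2
    rw [← acc_vl0 h] at h3
    simp only [updP, h1', h2', h3]
    simp
  · intro j c h h1 h2
    show (pst (iaH H) dat true j (c + 1 - j).toNat).st = _
    rw [pst_next h]
    have h1' : (pst (iaH H) dat true j (c - j).toNat).st = .V := h1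
    have h2' : ¬ (¬ H.isInit (dat (c + 1)).2 = true ∧
        (acz (iaH H) dat true (j + dz true) (c - j).toNat (iaH H).zero).vl = 0) := by
      rintro ⟨a1, a2⟩
      rw [acc_vl0 h] at a2
      rcases h2 with h2 | h2
      · exact a1 h2
      · exact a2 h2
    simp only [updP, h1']
    rw [if_neg (by simp), if_neg (fun h => h2' h.2)]
  · intro j
    simp [sysH, pst, iaH, dl]
  · intro j c h
    show (pst (iaH H) dat true j (c + 1 - j).toNat).al = true ↔ _
    rw [pst_next h]
    simp only [updP, decide_eq_true_iff]
    rw [csP_iff h]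
    rfl
  · intro j k
    simp only [sysH, sub_self, Int.toNat_zero, pst, iaH]
    exact decide_eq_true_iff
  · intro j c k h
    show (pst (iaH H) dat true j (c + 1 - j).toNat).um k = true ↔ _
    rw [pst_next h]
    simp only [updP, decide_eq_true_iff]
    rw [csP_iff h, acc_um h]
    rfl

open Classical in
theorem chkk_iff {j c : ℤ} (h : j ≤ c) :
    chkk (iaH H) dat true j (c - j).toNat ↔ (sysH H dat).Chk j c := by
  have e2 : j + dz true * (((c - j).toNat : ℤ) + 1) = c + 1 := by
    simp only [dz_true]; omega
  unfold chkk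
  rw [e2]
  show decide (okP H _ _ _) = true ↔ _
  rw [decide_eq_true_iff]
  unfold okP
  rw [pst_fr, pst_a]
  have hdl : dl true (dat (c + 1)) = dat (c + 1) := rfl
  rw [hdl, csP_iff h, acc_w h, acc_vl0 h]
  simp only [acc_um h]
  constructor
  · rintro ⟨h1, h2, h3, h4⟩
    exact ⟨fun hj => h1 (by omega), h2, h3, h4⟩
  · rintro ⟨h1, h2, h3, h4⟩
    exact ⟨fun hj => h1 (by omega), h2, h3, h4⟩

theorem good_iff {l r : ℤ} :
    Good (iaH H) dat true (Set.Icc l r) ↔ (sysH H dat).GoodW l r := by
  constructor
  · intro h j c h1 h2 h3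
    rw [← chkk_iff h2]
    exact h j ⟨h1, by omega⟩ _ ⟨by simp only [dz_true]; omega, by simp only [dz_true]; omega⟩
  · intro h i hi k hk
    simp only [dz_true, Set.mem_Icc] at hk
    have := (chkk_iff (by omega : i ≤ i + k)).2 (h i (i + k) hi.1 (by omega) (by omega))
    have e : (i + (k : ℤ) - i).toNat = k := by omega
    rw [e] at this
    exact this

/-! ### mirror images -/

/-- mirror image of the data -/
def mdat {g : ℕ} (dat : ℤ → Bool × Fin g) : ℤ → Bool × Fin g := fun x => mir (dat (-x))

theorem dl_false {g : ℕ} (a : Bool × Fin g) : dl false a = dl true (mir a) := rfl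

theorem mirror_aux (n : ℕ) : (∀ i, pst (iaH H) dat false i n = pst (iaH H) (mdat dat) true (-i) n) ∧
    ∀ p a, acz (iaH H) dat false p n a = acz (iaH H) (mdat dat) true (-p) n a := by
  induction n with
  | zero =>
    constructor
    · intro i
      simp only [pst, mdat, neg_neg]
      rfl
    · intro p a
      simp [acz]
  | succ n ih =>
    constructor
    · intro i
      rw [pst_succ, pst_succ, ih.1, ih.2]
      have e1 : -(i + dz false) = -i + dz true := by simp; ring
      have e2 : mdat dat (-i + dz true * ((n : ℤ) + 1)) = mir (dat (i + dz false * (n + 1))) := by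
        simp only [mdat, dz_true, dz_false]
        congr 2
        ring
      rw [e1, e2]
      rfl
    · intro p a
      rw [acz_succ, acz_succ, ih.1, ih.2]
      have e1 : -(p + dz false) = -p + dz true := by simp; ring
      rw [e1]

theorem chkk_mirror {i : ℤ} {k : ℕ} :
    chkk (iaH H) dat false i k ↔ chkk (iaH H) (mdat dat) true (-i) k := by
  unfold chkk
  rw [(mirror_aux k).1, (mirror_aux k).2]
  have e1 : -(i + dz false) = -i + dz true := by simp; ring
  have e2 : mdat dat (-i + dz true * ((k : ℤ) + 1)) = mir (dat (i + dz false * (k + 1))) := by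
    simp only [mdat, dz_true, dz_false]
    congr 2
    ring
  rw [e1, e2]
  exact Iff.rfl

theorem good_mirror {l r : ℤ} : Good (iaH H) dat false (Set.Icc l r) ↔
    Good (iaH H) (mdat dat) true (Set.Icc (-r) (-l)) := by
  constructor
  · intro h i hi k hk
    have := h (-i) ⟨by have := hi.2; omega, by have := hi.1; omega⟩ k (by
      simp only [dz_true, dz_false, Set.mem_Icc] at hk ⊢
      omega)
    rw [chkk_mirror, neg_neg] at this
    exact this
  · intro h i hi k hk
    rw [chkk_mirror]
    exact h (-i) ⟨by have := hi.2; omega, by have := hi.1; omega⟩ k (by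
      simp only [dz_true, dz_false, Set.mem_Icc] at hk ⊢
      omega)

end

end Pool.Agent.Helper76.Med
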