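import Mathlib.Tactic

/-!
Module 4 of MP_4596be_lc: arithmetic of levels (2-adic valuations).
-/

namespace Pool.Agent.Helper76.Med

/-- level at least `v` -/
def HH (v : ℕ) (x : ℤ) : Prop := (2 : ℤ) ^ v ∣ x

/-- level exactly `v` -/
def Lv (v : ℕ) (x : ℤ) : Prop := (2 : ℤ) ^ (v + 1) ∣ x - 2 ^ v

/-- level `v`, left type -/
def LL (v : ℕ) (x : ℤ) : Prop := (2 : ℤ) ^ (v + 2) ∣ x - 2 ^ v

/-- level `v`, right type -/
def RR (v : ℕ) (x : ℤ) : Prop := (2 : ℤ) ^ (v + 2) ∣ x + 2 ^ v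

theorem two_pow_pos' (v : ℕ) : (0 : ℤ) < 2 ^ v := by positivity

theorem one_le_two_pow' (v : ℕ) : (1 : ℤ) ≤ 2 ^ v := two_pow_pos' v

theorem two_pow_mono' {v w : ℕ} (h : v ≤ w) : (2 : ℤ) ^ v ≤ 2 ^ w :=
  pow_le_pow_right₀ (by norm_num) h

theorem two_pow_dvd {v w : ℕ} (h : v ≤ w) : (2 : ℤ) ^ v ∣ 2 ^ w := pow_dvd_pow 2 h

theorem two_pow_succ' (v : ℕ) : (2 : ℤ) ^ (v + 1) = 2 * 2 ^ v := by ring

theorem two_pow_add_two (v : ℕ) : (2 : ℤ) ^ (v + 2) = 4 * 2 ^ v := by ring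

theorem two_pow_lt_succ {v w : ℕ} (h : v < w) : (2 : ℤ) * 2 ^ v ≤ 2 ^ w := by
  rw [← two_pow_succ']
  exact two_pow_mono' h

theorem HH.mono {v w : ℕ} {x : ℤ} (h : HH w x) (hv : v ≤ w) : HH v x :=
  (two_pow_dvd hv).trans h

theorem HH.add {v : ℕ} {x y : ℤ} (h : HH v x) (h' : HH v y) : HH v (x + y) := dvd_add h h'

theorem HH.sub {v : ℕ} {x y : ℤ} (h : HH v x) (h' : HH v y) : HH v (x - y) := dvd_sub h h'

theorem HH_pow {v w : ℕ} (h : v ≤ w) : HH v (2 ^ w) := two_pow_dvd h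

theorem HH.add_pow {v w : ℕ} {x : ℤ} (h : HH v x) (hw : v ≤ w) : HH v (x + 2 ^ w) :=
  h.add (HH_pow hw)

theorem HH.sub_pow {v w : ℕ} {x : ℤ} (h : HH v x) (hw : v ≤ w) : HH v (x - 2 ^ w) :=
  h.sub (HH_pow hw)

theorem HH_of_add_pow {v w : ℕ} {x : ℤ} (h : HH v (x + 2 ^ w)) (hw : v ≤ w) : HH v x := by
  have := h.sub (HH_pow hw)
  simpa using this

theorem HH_of_sub_pow {v w : ℕ} {x : ℤ} (h : HH v (x - 2 ^ w)) (hw : v ≤ w) : HH v x := by
  have := h.add (HH_pow hw)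
  simpa using this

/-- two different multiples of `2^v` have distance at least `2^v` -/
theorem HH.gap {v : ℕ} {a b : ℤ} (ha : HH v a) (hb : HH v b) (h : a < b) : a + 2 ^ v ≤ b := by
  have := Int.le_of_dvd (by omega) (hb.sub ha)
  omega

theorem LL.lv {v : ℕ} {x : ℤ} (h : LL v x) : Lv v x := (two_pow_dvd (by omega)).trans h

theorem RR.lv {v : ℕ} {x : ℤ} (h : RR v x) : Lv v x := by
  have h1 : (2 : ℤ) ^ (v + 1) ∣ x + 2 ^ v := (two_pow_dvd (by omega)).trans h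
  have h2 := dvd_sub h1 (dvd_refl ((2 : ℤ) ^ (v + 1)))
  have e : x + 2 ^ v - 2 ^ (v + 1) = x - 2 ^ v := by ring
  rw [e] at h2
  exact h2

theorem Lv.hh {v : ℕ} {x : ℤ} (h : Lv v x) : HH v x := by
  have h1 : HH v (x - 2 ^ v) := (two_pow_dvd (by omega)).trans h
  exact HH_of_sub_pow h1 le_rfl

theorem Lv.add {v : ℕ} {x : ℤ} (h : Lv v x) : HH (v + 1) (x + 2 ^ v) := by
  have h2 := dvd_add h (dvd_refl ((2 : ℤ) ^ (v + 1)))
  have e : x - 2 ^ v + 2 ^ (v + 1) = x + 2 ^ v := by ring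
  rw [e] at h2
  exact h2

theorem Lv.sub {v : ℕ} {x : ℤ} (h : Lv v x) : HH (v + 1) (x - 2 ^ v) := h

theorem Lv_of_add {v : ℕ} {x : ℤ} (h : HH (v + 1) (x + 2 ^ v)) : Lv v x := by
  have h2 := dvd_sub h (dvd_refl ((2 : ℤ) ^ (v + 1)))
  have e : x + 2 ^ v - 2 ^ (v + 1) = x - 2 ^ v := by ring
  rw [e] at h2
  exact h2

/-- level exactly `v` excludes level at least `v+1` -/
theorem Lv.not_hh {v w : ℕ} {x : ℤ} (h : Lv v x) (hw : v < w) (h' : HH w x) : False := by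
  have h1 : HH (v + 1) x := h'.mono hw
  have h2 : HH (v + 1) (2 ^ v) := by
    have := h1.sub h
    simpa using this
  have := Int.le_of_dvd (two_pow_pos' v) h2
  have := two_pow_pos' v
  rw [two_pow_succ'] at *
  omega

theorem HH_succ_or (v : ℕ) {x : ℤ} (h : HH v x) : HH (v + 1) x ∨ Lv v x := by
  obtain ⟨m, rfl⟩ := h
  rcases Int.even_or_odd' m with ⟨k, rfl | rfl⟩
  · left
    exact ⟨k, by ring⟩
  · right
    exact ⟨k, by ring⟩

theorem Lv_or (v : ℕ) {x : ℤ} (h : Lv v x) : LL v x ∨ RR v x := by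
  obtain ⟨m, hm⟩ := h
  rcases Int.even_or_odd' m with ⟨k, rfl | rfl⟩
  · left
    exact ⟨k, by rw [hm]; ring⟩
  · right
    refine ⟨k + 1, ?_⟩
    have : x = 2 ^ v + 2 ^ (v + 1) * (2 * k + 1) := by linarith
    rw [this]; ring

/-- classification of the level below `n` -/
theorem level_cases (n : ℕ) (x : ℤ) : HH n x ∨ ∃ v < n, Lv v x := by
  induction n with
  | zero => left; exact ⟨x, by simp⟩
  | succ n ih =>
    rcases ih with h | ⟨v, hv, h⟩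
    · rcases HH_succ_or n h with h | h
      · exact Or.inl h
      · exact Or.inr ⟨n, by omega, h⟩
    · exact Or.inr ⟨v, by omega, h⟩

theorem exists_level {x : ℤ} (hx : x ≠ 0) : ∃ v, Lv v x := by
  rcases level_cases (x.natAbs) x with h | ⟨v, -, h⟩
  · exfalso
    have h1 := Int.le_of_dvd (abs_pos.2 hx) ((dvd_abs _ _).2 h)
    have h2 : x.natAbs < 2 ^ x.natAbs := Nat.lt_two_pow_self
    have h3 : ((x.natAbs : ℕ) : ℤ) < 2 ^ x.natAbs := by exact_mod_cast h2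
    rw [Int.natCast_natAbs] at h3
    omega
  · exact ⟨v, h⟩

theorem Lv.unique {v w : ℕ} {x : ℤ} (h : Lv v x) (h' : Lv w x) : v = w := by
  rcases lt_trichotomy v w with hlt | rfl | hlt
  · exact (h.not_hh hlt h'.hh).elim
  · rfl
  · exact (h'.not_hh hlt h.hh).elim

theorem LL.not_RR {v w : ℕ} {x : ℤ} (h : LL v x) (h' : RR w x) : False := by
  obtain rfl := h.lv.unique h'.lv
  have h1 := dvd_sub h' h
  have e : x + 2 ^ v - (x - 2 ^ v) = 2 ^ (v + 1) := by ring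
  rw [e] at h1
  have h2 := Int.le_of_dvd (two_pow_pos' _) h1
  have := two_pow_pos' v
  rw [two_pow_succ', two_pow_succ'] at h2
  omega

/-- the left child of a cell of level at least `w+1` -/
theorem RR_of_HH_sub {u : ℕ} {b : ℤ} (h : HH (u + 2) b) : RR u (b - 2 ^ u) := by
  have e : b - 2 ^ u + 2 ^ u = b := by ring
  unfold RR
  rw [e]
  exact h

theorem LL_of_HH_add {u : ℕ} {g : ℤ} (h : HH (u + 2) g) : LL u (g + 2 ^ u) := by
  have e : g + 2 ^ u - 2 ^ u = g := by ring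
  unfold LL
  rw [e]
  exact h

theorem LL_of_Lv_sub {u : ℕ} {b : ℤ} (h : Lv (u + 1) b) : LL u (b - 2 ^ u) := by
  have h1 : (2 : ℤ) ^ (u + 1 + 1) ∣ b - 2 ^ (u + 1) := h
  have e : b - 2 ^ u - 2 ^ u = b - 2 ^ (u + 1) := by ring
  unfold LL
  rw [e]
  exact h1

theorem RR_of_Lv_add {u : ℕ} {g : ℤ} (h : Lv (u + 1) g) : RR u (g + 2 ^ u) := by
  have h1 : (2 : ℤ) ^ (u + 1 + 1) ∣ g + 2 ^ (u + 1) := h.add
  have e : g + 2 ^ u + 2 ^ u = g + 2 ^ (u + 1) := by ring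
  unfold RR
  rw [e]
  exact h1

/-- the previous cell of the same level has the other type -/
theorem RR_of_LL_sub {v : ℕ} {x : ℤ} (h : LL v x) : RR v (x - 2 ^ (v + 1)) := by
  have e : x - 2 ^ (v + 1) + 2 ^ v = x - 2 ^ v := by ring
  unfold RR
  rw [e]
  exact h

theorem LL_of_RR_sub {v : ℕ} {x : ℤ} (h : RR v x) : LL v (x - 2 ^ (v + 1)) := by
  have h1 := dvd_sub h (dvd_refl ((2 : ℤ) ^ (v + 2)))
  have e : x - 2 ^ (v + 1) - 2 ^ v = x + 2 ^ v - 2 ^ (v + 2) := by ring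
  unfold LL
  rw [e]
  exact h1

theorem Lv_sub_iff {v : ℕ} {x : ℤ} : Lv v (x - 2 ^ (v + 1)) ↔ Lv v x := by
  constructor
  · intro h
    have := dvd_add h (dvd_refl ((2 : ℤ) ^ (v + 1)))
    have e : x - 2 ^ (v + 1) - 2 ^ v + 2 ^ (v + 1) = x - 2 ^ v := by ring
    rw [e] at this
    exact this
  · intro h
    have := dvd_sub h (dvd_refl ((2 : ℤ) ^ (v + 1)))
    have e : x - 2 ^ v - 2 ^ (v + 1) = x - 2 ^ (v + 1) - 2 ^ v := by ring
    rw [e] at this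
    exact this

end Pool.Agent.Helper76.Med
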