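import Pool.Agent.Helper76.MedInterface
import Mathlib.Tactic

/-!
Module 5 of MP_4596be_lc: the nested-search machine.
-/

namespace Pool.Agent.Helper76.Med

/-- interval automaton -/
structure IA (A S C : Type) where
  init : Bool → A → S
  upd : Bool → S → A → C → S
  ok : Bool → S → A → C → Bool
  zero : C
  add : C → S → C

/-- the sign of a direction (`true` = right) -/
def sg : Bool → SignType
  | true => 1
  | false => -1

/-- direction as an integer -/
def dz (b : Bool) : ℤ := ((sg b : SignType) : ℤ)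

@[simp] theorem dz_true : dz true = 1 := by simp [dz, sg]
@[simp] theorem dz_false : dz false = -1 := by simp [dz, sg]

theorem dz_not (b : Bool) : dz (!b) = - dz b := by cases b <;> simp

section IAsem

variable {A S C : Type} (I : IA A S C) (dat : ℤ → A)

mutual
/-- state of the process at cell `i` with direction `D` after reading `k` cells -/
def pst (D : Bool) (i : ℤ) : ℕ → S
  | 0 => I.init D (dat i)
  | k + 1 => I.upd D (pst D i k) (dat (i + dz D * (k + 1))) (acz D (i + dz D) k I.zero)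
/-- accumulated contributions of the `n` cells starting at `p` (direction `D`) to the accumulator
`a`, at the time when the last of them has just been read -/
def acz (D : Bool) (p : ℤ) : ℕ → C → C
  | 0, a => a
  | n + 1, a => acz D (p + dz D) n (I.add a (pst D p n))
end

/-- the check made by the process at `i` (direction `D`) when it reads its `k+1`-st cell -/
def chkk (D : Bool) (i : ℤ) (k : ℕ) : Prop :=
  I.ok D (pst I dat D i k) (dat (i + dz D * (k + 1))) (acz I dat D (i + dz D) k I.zero) = true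

/-- all checks in direction `D` inside the set `Z` of cells are passed -/
def Good (D : Bool) (Z : Set ℤ) : Prop :=
  ∀ i ∈ Z, ∀ k : ℕ, i + dz D * (k + 1) ∈ Z → chkk I dat D i k

theorem Good.mono {D : Bool} {Z Z' : Set ℤ} (h : Good I dat D Z') (hs : Z ⊆ Z') :
    Good I dat D Z := fun i hi k hk => h i (hs hi) k (hs hk)

end IAsem

/-- modes of a process -/
inductive Mode
  | fwd
  | back
  | fin

/-- process records -/
structure Kap (S : Type) where
  D : Bool
  m : Mode
  s : S

/-- direction of the current search of a process -/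
def Kap.dir {S : Type} (κ : Kap S) : Bool :=
  match κ.m with
  | Mode.fwd => κ.D
  | _ => !κ.D

/-- foreground symbols -/
inductive Fg (S C : Type)
  | blank
  | x (D : Bool)
  | ret (κ : Kap S) (acc : C)

/-- machine states -/
inductive St (A S C : Type)
  | chk (κ : Kap S) (acc : C)
  | look (κ : Kap S) (acc : C) (a : A)
  | wr (κ : Kap S) (acc : C)
  | ext (D : Bool) (s : S)
  | er (D : Bool) (m : Mode) (s : S)

section Machine

variable {A S C : Type} (I : IA A S C)

open Classical in
/-- transition function -/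
noncomputable def tr : St A S C → A → Fg S C → Option (St A S C × Fg S C × SignType)
  | .chk κ acc, a, .blank => some (.look κ acc a, .blank, sg κ.dir)
  | .look κ acc _, _, .blank => some (.wr κ acc, .x κ.dir, -sg κ.dir)
  | .look κ acc a, _, f => some (.chk κ (I.add acc (I.init κ.dir a)), f, 0)
  | .wr κ acc, a, .blank =>
      some (.chk ⟨κ.dir, .fwd, I.init κ.dir a⟩ I.zero, .ret κ acc, sg κ.dir)
  | .chk ⟨D, .fwd, s⟩ acc, a, .x D' =>
      if D' = D ∧ I.ok D s a acc = true then some (.ext D (I.upd D s a acc), .x D', sg D) else none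
  | .ext D s, _, .blank => some (.er D .back s, .x D, -sg D)
  | .ext D s, _, f => some (.er D .fin s, f, -sg D)
  | .er D m s, _, .x D' => if D' = D then some (.chk ⟨D, m, s⟩ I.zero, .blank, 0) else none
  | .chk ⟨D, .back, s⟩ _, _, .ret κ' acc' =>
      if κ'.dir = D then some (.chk ⟨D, .fwd, s⟩ I.zero, .ret κ' acc', sg D) else none
  | .chk ⟨D, .fin, s⟩ _, _, .ret κ' acc' =>
      if κ'.dir = D then some (.chk κ' (I.add acc' s), .blank, sg D) else none
  | _, _, _ => none

end Machine

section Run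

variable {A S C : Type} (I : IA A S C) (dat : ℤ → A)

/-- configurations (the data track `dat` is fixed) -/
@[ext] structure Cf (A S C : Type) where
  q : St A S C
  fg : ℤ → Fg S C
  p : ℤ

/-- one step -/
noncomputable def stp (c : Cf A S C) : Option (Cf A S C) :=
  (tr I c.q (dat c.p) (c.fg c.p)).map fun r =>
    ⟨r.1, Function.update c.fg c.p r.2.1, c.p + (r.2.2 : ℤ)⟩

/-- reachability with all later head positions in `Z` -/
def RIn (Z : Set ℤ) : Cf A S C → Cf A S C → Prop :=
  Relation.ReflTransGen fun c c' => stp I dat c = some c' ∧ c'.p ∈ Z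

/-- halting with all head positions in `Z` -/
def HIn (Z : Set ℤ) (c : Cf A S C) : Prop := ∃ c', RIn I dat Z c c' ∧ stp I dat c' = none

variable {I dat}

theorem RIn.refl {Z : Set ℤ} {c : Cf A S C} : RIn I dat Z c c := Relation.ReflTransGen.refl

theorem RIn.trans {Z : Set ℤ} {a b c : Cf A S C} (h : RIn I dat Z a b) (h' : RIn I dat Z b c) :
    RIn I dat Z a c := Relation.ReflTransGen.trans h h'

theorem RIn.mono {Z Z' : Set ℤ} (hs : Z ⊆ Z') {a b : Cf A S C} (h : RIn I dat Z a b) :
    RIn I dat Z' a b := by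
  exact Relation.ReflTransGen.mono (fun c c' hc => ⟨hc.1, hs hc.2⟩) _ _ h

theorem RIn.head {Z : Set ℤ} {a b c : Cf A S C} (h : stp I dat a = some b) (hb : b.p ∈ Z)
    (h' : RIn I dat Z b c) : RIn I dat Z a c := Relation.ReflTransGen.head ⟨h, hb⟩ h'

theorem HIn.mono {Z Z' : Set ℤ} (hs : Z ⊆ Z') {a : Cf A S C} (h : HIn I dat Z a) :
    HIn I dat Z' a := by
  obtain ⟨c, h1, h2⟩ := h
  exact ⟨c, h1.mono hs, h2⟩

theorem HIn.of_RIn {Z : Set ℤ} {a b : Cf A S C} (h : RIn I dat Z a b) (h' : HIn I dat Z b) :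
    HIn I dat Z a := by
  obtain ⟨c, h1, h2⟩ := h'
  exact ⟨c, h.trans h1, h2⟩

theorem HIn.head {Z : Set ℤ} {a b : Cf A S C} (h : stp I dat a = some b) (hb : b.p ∈ Z)
    (h' : HIn I dat Z b) : HIn I dat Z a := HIn.of_RIn (RIn.head h hb RIn.refl) h'

theorem HIn.now {Z : Set ℤ} {a : Cf A S C} (h : stp I dat a = none) : HIn I dat Z a :=
  ⟨a, RIn.refl, h⟩

/-! ### the individual steps -/

open Function

theorem dz_sg (D : Bool) : ((sg D : SignType) : ℤ) = dz D := rfl

theorem neg_dz_sg (D : Bool) : ((-sg D : SignType) : ℤ) = - dz D := by cases D <;> simp [sg, dz]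

theorem update_self' {f : ℤ → Fg S C} {p : ℤ} {v : Fg S C} (h : f p = v) : update f p v = f := by
  rw [← h]; exact update_eq_self p f

theorem step_chk_blank {κ : Kap S} {acc : C} {fg : ℤ → Fg S C} {p : ℤ} (h : fg p = .blank) :
    stp I dat ⟨.chk κ acc, fg, p⟩ = some ⟨.look κ acc (dat p), fg, p + dz κ.dir⟩ := by
  simp only [stp, h, tr, Option.map_some, dz_sg, update_self' h]

theorem step_look_blank {κ : Kap S} {acc : C} {a : A} {fg : ℤ → Fg S C} {p : ℤ}
    (h : fg p = .blank) :
    stp I dat ⟨.look κ acc a, fg, p⟩ =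
      some ⟨.wr κ acc, update fg p (.x κ.dir), p - dz κ.dir⟩ := by
  simp only [stp, h, tr, Option.map_some, neg_dz_sg, sub_eq_add_neg]

theorem step_look_nonblank {κ : Kap S} {acc : C} {a : A} {fg : ℤ → Fg S C} {p : ℤ}
    (h : fg p ≠ .blank) :
    stp I dat ⟨.look κ acc a, fg, p⟩ =
      some ⟨.chk κ (I.add acc (I.init κ.dir a)), fg, p⟩ := by
  cases hf : fg p with
  | blank => exact absurd hf h
  | x D => simp [stp, hf, tr, update_self' hf]
  | ret κ' acc' => simp [stp, hf, tr, update_self' hf]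

theorem step_wr_blank {κ : Kap S} {acc : C} {fg : ℤ → Fg S C} {p : ℤ} (h : fg p = .blank) :
    stp I dat ⟨.wr κ acc, fg, p⟩ =
      some ⟨.chk ⟨κ.dir, .fwd, I.init κ.dir (dat p)⟩ I.zero, update fg p (.ret κ acc),
        p + dz κ.dir⟩ := by
  simp only [stp, h, tr, Option.map_some, dz_sg]

theorem step_chk_x_ok {D : Bool} {s : S} {acc : C} {fg : ℤ → Fg S C} {p : ℤ}
    (h : fg p = .x D) (hok : I.ok D s (dat p) acc = true) :
    stp I dat ⟨.chk ⟨D, .fwd, s⟩ acc, fg, p⟩ =
      some ⟨.ext D (I.upd D s (dat p) acc), fg, p + dz D⟩ := by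
  simp [stp, h, tr, hok, dz_sg, update_self' h]

theorem step_chk_x_fail {D : Bool} {s : S} {acc : C} {fg : ℤ → Fg S C} {p : ℤ}
    (h : fg p = .x D) (hok : ¬ I.ok D s (dat p) acc = true) :
    stp I dat ⟨.chk ⟨D, .fwd, s⟩ acc, fg, p⟩ = none := by
  simp [stp, h, tr, hok]

theorem step_ext_blank {D : Bool} {s : S} {fg : ℤ → Fg S C} {p : ℤ} (h : fg p = .blank) :
    stp I dat ⟨.ext D s, fg, p⟩ = some ⟨.er D .back s, update fg p (.x D), p - dz D⟩ := by
  simp only [stp, h, tr, Option.map_some, neg_dz_sg, sub_eq_add_neg]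

theorem step_ext_nonblank {D : Bool} {s : S} {fg : ℤ → Fg S C} {p : ℤ} (h : fg p ≠ .blank) :
    stp I dat ⟨.ext D s, fg, p⟩ = some ⟨.er D .fin s, fg, p - dz D⟩ := by
  cases hf : fg p with
  | blank => exact absurd hf h
  | x D => simp [stp, hf, tr, update_self' hf, neg_dz_sg, sub_eq_add_neg, -SignType.coe_neg]
  | ret κ' acc' =>
    simp [stp, hf, tr, update_self' hf, neg_dz_sg, sub_eq_add_neg, -SignType.coe_neg]

theorem step_er {D : Bool} {m : Mode} {s : S} {fg : ℤ → Fg S C} {p : ℤ} (h : fg p = .x D) :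
    stp I dat ⟨.er D m s, fg, p⟩ = some ⟨.chk ⟨D, m, s⟩ I.zero, update fg p .blank, p⟩ := by
  simp [stp, h, tr]

theorem step_back_ret {D : Bool} {s : S} {acc acc' : C} {κ' : Kap S} {fg : ℤ → Fg S C} {p : ℤ}
    (h : fg p = .ret κ' acc') (hd : κ'.dir = D) :
    stp I dat ⟨.chk ⟨D, .back, s⟩ acc, fg, p⟩ =
      some ⟨.chk ⟨D, .fwd, s⟩ I.zero, fg, p + dz D⟩ := by
  simp [stp, h, tr, hd, dz_sg, update_self' h]

theorem step_fin_ret {D : Bool} {s : S} {acc acc' : C} {κ' : Kap S} {fg : ℤ → Fg S C} {p : ℤ}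
    (h : fg p = .ret κ' acc') (hd : κ'.dir = D) :
    stp I dat ⟨.chk ⟨D, .fin, s⟩ acc, fg, p⟩ =
      some ⟨.chk κ' (I.add acc' s), update fg p .blank, p + dz D⟩ := by
  simp [stp, h, tr, hd, dz_sg]

end Run

end Pool.Agent.Helper76.Med
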