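import Pool.Agent.Helper74.SCompile
import Pool.Agent.Helper74.CtrFin
import Pool.Agent.Helper74.CtrHist2

/-!
Module 3 of MP_4596be_lc: every effectively closed subset of Cantor space is Medvedev equivalent
to the set of infinite histories of a history system.
-/

set_option autoImplicit false

namespace Pool.Agent.Helper76.Med

open Function Pool.Agent.Helper74.Ctr Pool.Agent.Helper74.Ctr.SP

/-- registers with the value `v` in the register `0` -/
def rg0 (v : ℕ) : ℕ → ℕ := update 0 0 v

/-- the program replacing the contents of register `0` by its image under a function -/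
lemma exists_upd (f : ℕ → ℕ) (hf : Computable f) : ∃ P : SP, ∀ n, Big P (rg0 n) (rg0 (f n)) := by
  obtain ⟨P, hP⟩ := exists_sp f hf
  refine ⟨seq P (seq (clr 0) (mov 1 0)), fun n => ?_⟩
  refine (big_seq (hP n) (big_seq (big_clr 0 _) (big_mov 1 0 (by omega) _))).congr ?_
  funext j
  by_cases h1 : j = 1
  · subst h1; simp [rg0]
  · by_cases h0 : j = 0
    · subst h0; simp [rg0]
    · simp [rg0, h0, h1]

theorem module3 : Module3Target := by
  intro T hT
  -- the test and the two updates on the codes
  let t : ℕ → ℕ := fun n => ((Encodable.decode (α := List Bool) n).map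
    (fun σ => bif T σ then 0 else 1)).getD 0
  have ht : Computable t := by
    refine Computable.option_getD (Computable.option_map Computable.decode ?_) (Computable.const 0)
    exact (Computable.cond (hT.comp Computable.snd) (Computable.const 0)
      (Computable.const 1)).to₂
  have htv : ∀ σ : List Bool, t (Encodable.encode σ) = 0 ↔ T σ = true := by
    intro σ
    simp only [t, Encodable.encodek, Option.map_some, Option.getD_some]
    cases T σ <;> simp
  let u : Bool → ℕ → ℕ := fun b n => ((Encodable.decode (α := List Bool) n).map
    (fun σ => Encodable.encode (σ ++ [b]))).getD 0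
  have hu : ∀ b, Computable (u b) := by
    intro b
    refine Computable.option_getD (Computable.option_map Computable.decode ?_) (Computable.const 0)
    exact (Computable.encode.comp (Computable.list_append.comp Computable.snd
      (Computable.const [b]))).to₂
  have huv : ∀ (b : Bool) (σ : List Bool), u b (Encodable.encode σ) = Encodable.encode (σ ++ [b]) := by
    intro b σ
    simp only [u, Encodable.encodek, Option.map_some, Option.getD_some]
  obtain ⟨C, hC⟩ := exists_sp t ht
  obtain ⟨A1, hA1⟩ := exists_upd (u true) (hu true)
  obtain ⟨A0, hA0⟩ := exists_upd (u false) (hu false)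
  let B : SP := seq C (seq (chk 1) (rd A1 A0))
  let main : SP := fore B
  let code : (ℕ → Bool) → ℕ → ℕ := fun x m => Encodable.encode (seg x m)
  -- one round
  have hbefore : ∀ (x : ℕ → Bool) (m : ℕ), ∃ j, 0 < j ∧
      dr spins x ([main], rg0 (code x m), m) j =
        some (chk 1 :: rd A1 A0 :: [main], update (rg0 (code x m)) 1 (t (code x m)), m) := by
    intro x m
    obtain ⟨j, hj, h⟩ := hC (code x m) x (seq (chk 1) (rd A1 A0) :: [main]) m
    refine ⟨1 + (1 + (j + 1)), by omega, ?_⟩
    refine dr_trans spins x (d := ([B, main], rg0 (code x m), m)) rfl ?_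
    refine dr_trans spins x (d := (C :: seq (chk 1) (rd A1 A0) :: [main], rg0 (code x m), m))
      rfl ?_
    exact dr_trans spins x h rfl
  have hround : ∀ (x : ℕ → Bool) (m : ℕ), T (seg x m) = true → ∃ j, 0 < j ∧
      dr spins x ([main], rg0 (code x m), m) j =
        some ([main], rg0 (code x (m + 1)), m + 1) := by
    intro x m hTm
    obtain ⟨j, hj, h⟩ := hbefore x m
    have hz : t (code x m) = 0 := (htv _).2 hTm
    have hst : update (rg0 (code x m)) 1 (t (code x m)) = rg0 (code x m) := by
      rw [hz]
      funext i
      by_cases h1 : i = 1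
      · subst h1; simp [rg0]
      · simp [h1]
    rw [hst] at h
    have h1 : dr spins x (chk 1 :: rd A1 A0 :: [main], rg0 (code x m), m) 1 =
        some (rd A1 A0 :: [main], rg0 (code x m), m) := by
      have : rg0 (code x m) 1 = 0 := by simp [rg0]
      simp [dr, dstep, spins, this]
    have hcode : code x (m + 1) = u (x m) (code x m) := by
      simp only [code]
      rw [huv, seg_succ]
    have h2 : ∃ i, 0 < i ∧ dr spins x (rd A1 A0 :: [main], rg0 (code x m), m) i =
        some ([main], rg0 (code x (m + 1)), m + 1) := by
      rw [hcode]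
      cases hb : x m with
      | true =>
        obtain ⟨i, _, hi⟩ := hA1 (code x m) x [main] (m + 1)
        refine ⟨1 + i, by omega, dr_trans spins x (d := (A1 :: [main], rg0 (code x m), m + 1))
          ?_ hi⟩
        simp [dr, dstep, spins, hb]
      | false =>
        obtain ⟨i, _, hi⟩ := hA0 (code x m) x [main] (m + 1)
        refine ⟨1 + i, by omega, dr_trans spins x (d := (A0 :: [main], rg0 (code x m), m + 1))
          ?_ hi⟩
        simp [dr, dstep, spins, hb]
    obtain ⟨i, _, hi⟩ := h2
    exact ⟨j + (1 + i), by omega, dr_trans spins x h (dr_trans spins x h1 hi)⟩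
  have hstuck : ∀ (x : ℕ → Bool) (m : ℕ), T (seg x m) = false → ∃ j,
      dr spins x ([main], rg0 (code x m), m) j = none := by
    intro x m hTm
    obtain ⟨j, hj, h⟩ := hbefore x m
    have hnz : t (code x m) ≠ 0 := by
      intro h0
      have := (htv _).1 h0
      rw [hTm] at this
      exact absurd this (by simp)
    refine ⟨j + 1, ?_⟩
    rw [dr_add, h]
    simp [dr, dstep, spins, hnz]
  -- all rounds
  have hrounds : ∀ (x : ℕ → Bool) (m : ℕ), (∀ i < m, T (seg x i) = true) → ∃ j, m ≤ j ∧
      dr spins x ([main], rg0 (code x 0), 0) j = some ([main], rg0 (code x m), m) := by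
    intro x m
    induction m with
    | zero => exact fun _ => ⟨0, le_rfl, rfl⟩
    | succ m ih =>
      intro h
      obtain ⟨j, hj, h1⟩ := ih (fun i hi => h i (by omega))
      obtain ⟨i, hi, h2⟩ := hround x m (h m (by omega))
      exact ⟨j + i, by omega, dr_trans spins x h1 h2⟩
  have hinit : ∀ x : ℕ → Bool, rg0 (code x 0) = 0 := by
    intro x
    have : code x 0 = 0 := by simp [code, seg]
    rw [this]
    funext i
    simp [rg0]
  have hP : ∀ x : ℕ → Bool, (∀ n, (dr spins x ([main], 0, 0) n).isSome = true) ↔
      ∀ n, T (seg x n) = true := by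
    intro x
    constructor
    · intro h
      by_contra hc
      push Not at hc
      classical
      have hmin := Nat.find_spec hc
      set m := Nat.find hc with hm
      have hlt : ∀ i < m, T (seg x i) = true := by
        intro i hi
        by_contra h'
        exact Nat.find_min hc hi h'
      obtain ⟨j, _, h1⟩ := hrounds x m hlt
      obtain ⟨i, h2⟩ := hstuck x m (by simpa using hmin)
      rw [hinit] at h1
      have := h (j + i)
      rw [dr_add, h1] at this
      simp only [Option.bind_some] at this
      rw [h2] at this
      simp at this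
    · intro h n
      obtain ⟨j, hj, h1⟩ := hrounds x n (fun i _ => h i)
      rw [hinit] at h1
      exact dr_isSome_of_le spins x (by rw [h1]; rfl) hj
  -- the finite machine
  obtain ⟨N, K, ins, q0, hfin⟩ := exists_finite_machine spins [main] (conts main [] ∪ {[]})
    ((conts_finite _ _).union (Set.finite_singleton _)) (Or.inl (mem_conts _ _)) (by
      rintro q (hq | hq)
      · exact conts_closed main [] q hq
      · have : q = [] := hq
        subst this
        intro q' hq'
        exact hq'.elim)
  have hsome : ∀ x n, (dr ins x (q0, 0, 0) n).isSome = (dr spins x ([main], 0, 0) n).isSome := by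
    intro x n
    have := congrArg Option.isSome (hfin x n)
    simpa using this
  have hgood : good ins q0 = {x | ∀ n, T (seg x n) = true} := by
    ext x
    simp only [good, Set.mem_ofPred_eq, hsome]
    exact hP x
  have hinf : ∀ x ∈ good ins q0, ∀ m, ∃ n c, dr ins x (q0, 0, 0) n = some c ∧
      m ≤ c.2.2 := by
    intro x hx m
    rw [hgood] at hx
    obtain ⟨j, _, h1⟩ := hrounds x m (fun i _ => hx i)
    rw [hinit] at h1
    have h2 := hfin x j
    rw [h1] at h2
    simp only [Option.map_some, Option.map_eq_some_iff] at h2
    obtain ⟨c, hc, hcm⟩ := h2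
    exact ⟨j, c, hc, hcm.ge⟩
  refine ⟨toHist ins q0, ?_, ?_⟩
  · rw [← hgood]
    exact medLE_one ins q0 hinf
  · rw [← hgood]
    exact medLE_two ins q0

end Pool.Agent.Helper76.Med
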