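import Pool.Agent.Helper76.MedPsi
import Pool.Agent.Helper76.MedMod3

/-!
MP_4596be_lc: every `Π⁰₁` Medvedev degree is the degree of the immortal set of a Turing machine.
-/

namespace Pool.Agent.Helper76.Med

theorem main (P : Set (ℕ → Bool)) (hP : IsPi01 P) :
    ∃ (nq ns : ℕ) (δ : Fin nq → Fin ns → Option (Fin nq × Fin ns × SignType)),
      MedLE P (code '' immortal δ) ∧ MedLE (code '' immortal δ) P := by
  obtain ⟨T, hT, hPT⟩ := hP
  obtain ⟨H, h1, h2⟩ := module3 T hT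
  have hPeq : {x : ℕ → Bool | ∀ n, T (seg x n) = true} = P := by
    ext x
    exact (hPT x).symm
  rw [hPeq] at h1 h2
  obtain ⟨nq, ⟨eQ⟩⟩ := Finite.exists_equiv_fin (St (Bool × Fin H.g) (PS H) (AC H))
  obtain ⟨ns, ⟨eS⟩⟩ := Finite.exists_equiv_fin ((Bool × Fin H.g) × Fg (PS H) (AC H))
  exact ⟨nq, ns, del (iaH H) eQ eS, h1.trans (le_immortal H eQ eS),
    (immortal_le H eQ eS).trans h2⟩

end Pool.Agent.Helper76.Med

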