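import Pool.Agent.Helper76.MedAsm

/-!
Module 6 of MP_4596be_lc: from immortal configurations to histories.
-/

namespace Pool.Agent.Helper76.Med

theorem primrec_pow2 {α : Type} [Primcodable α] {f : α → ℕ} (hf : Primrec f) :
    Primrec fun x => 2 ^ f x := by
  have h : Primrec fun n : ℕ => 2 ^ n := by
    refine (Primrec.nat_rec' (f := fun n : ℕ => n) (g := fun _ => 1)
      (h := fun _ (p : ℕ × ℕ) => 2 * p.2) Primrec.id (Primrec.const 1) ?_).of_eq ?_
    · exact (Primrec.nat_mul.comp (Primrec.const 2) (Primrec.snd.comp Primrec.snd)).to₂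
    · intro n
      induction n with
      | zero => rfl
      | succ n ih =>
        simp only at ih ⊢
        rw [ih]; ring
  exact h.comp hf

section Dec

variable (H : Hist) {ns : ℕ} (ltr : Fin ns → Bool × Fin H.g) (a₀ : Bool × Fin H.g)

/-- the letters of a list of symbols, the first five cells being dropped -/
def fL (w : List (Fin ns)) (i : ℕ) : Bool × Fin H.g := ((w[i + 5]?).map ltr).getD a₀

theorem primrec_fL {α : Type} [Primcodable α] {f : α → List (Fin ns)} {g : α → ℕ}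
    (hf : Primrec f) (hg : Primrec g) : Primrec fun x => fL H ltr a₀ (f x) (g x) := by
  unfold fL
  refine Primrec.option_getD.comp (Primrec.option_map ?_ ?_) (Primrec.const a₀)
  · exact Primrec.list_getElem?.comp hf (Primrec.nat_add.comp hg (Primrec.const 5))
  · exact ((Primrec.dom_finite ltr).comp Primrec.snd).to₂

theorem primrec_dpos : Primrec fun x : List (Fin ns) × ℕ => dpos H (fL H ltr a₀ x.1) x.2 := by
  have hinit : Primrec fun b : Fin H.g => H.isInit b := Primrec.dom_finite _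
  have htest : ∀ c : ℕ, Primrec fun x : List (Fin ns) × ℕ =>
      (H.isInit (fL H ltr a₀ x.1 c).2 && (fL H ltr a₀ x.1 c).1) := fun c =>
    Primrec.and.comp
      (hinit.comp (Primrec.snd.comp (primrec_fL H ltr a₀ Primrec.fst (Primrec.const c))))
      (Primrec.fst.comp (primrec_fL H ltr a₀ Primrec.fst (Primrec.const c)))
  have hbase : Primrec fun x : List (Fin ns) × ℕ => dpos H (fL H ltr a₀ x.1) 0 := by
    refine (Primrec.cond (htest 0) (Primrec.const 0) (Primrec.cond (htest 1) (Primrec.const 1)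
      (Primrec.cond (htest 2) (Primrec.const 2) (Primrec.const 3)))).of_eq ?_
    intro x
    simp only [dpos, Bool.cond_eq_ite]
  have hstep : Primrec fun z : (List (Fin ns) × ℕ) × (ℕ × ℕ) =>
      cond (fL H ltr a₀ z.1.1 (z.2.2 + 2 ^ z.2.1)).1 (z.2.2 + 2 ^ z.2.1)
        (z.2.2 + 2 ^ z.2.1 + 2 ^ (z.2.1 + 2)) := by
    have hp : Primrec fun z : (List (Fin ns) × ℕ) × (ℕ × ℕ) => z.2.2 + 2 ^ z.2.1 :=
      Primrec.nat_add.comp (Primrec.snd.comp Primrec.snd)
        (primrec_pow2 (Primrec.fst.comp Primrec.snd))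
    refine Primrec.cond (Primrec.fst.comp (primrec_fL H ltr a₀ (Primrec.fst.comp Primrec.fst) hp))
      hp (Primrec.nat_add.comp hp (primrec_pow2 (Primrec.nat_add.comp (Primrec.fst.comp Primrec.snd)
        (Primrec.const 2))))
  refine (Primrec.nat_rec' (f := fun x : List (Fin ns) × ℕ => x.2)
    (g := fun x => dpos H (fL H ltr a₀ x.1) 0)
    (h := fun x (p : ℕ × ℕ) => cond (fL H ltr a₀ x.1 (p.2 + 2 ^ p.1)).1 (p.2 + 2 ^ p.1)
        (p.2 + 2 ^ p.1 + 2 ^ (p.1 + 2))) Primrec.snd hbase hstep.to₂).of_eq ?_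
  rintro ⟨w, n⟩
  induction n with
  | zero => rfl
  | succ n ih =>
    simp only at ih ⊢
    rw [ih, dpos, Bool.cond_eq_ite]

theorem primrec_decd : Primrec fun x : List (Fin ns) × ℕ => decd H (fL H ltr a₀ x.1) x.2 := by
  unfold decd
  exact Primrec.snd.comp (primrec_fL H ltr a₀ Primrec.fst (primrec_dpos H ltr a₀))

/-- the functional -/
def phi (sim : List Bool → List (Fin ns)) (x : List Bool × ℕ) : Option (Fin H.g) :=
  if 2 ^ (x.2 + 4) + 20 ≤ (sim x.1).length then some (decd H (fL H ltr a₀ (sim x.1)) x.2) else none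

theorem primrec_cond : PrimrecPred fun z : List (Fin ns) × ℕ => 2 ^ (z.2 + 4) + 20 ≤ z.1.length := by
  have h1 : Primrec fun z : List (Fin ns) × ℕ => 2 ^ (z.2 + 4) + 20 :=
    Primrec.nat_add.comp (primrec_pow2 (Primrec.nat_add.comp Primrec.snd (Primrec.const 4)))
      (Primrec.const 20)
  have h2 : Primrec fun z : List (Fin ns) × ℕ => z.1.length := Primrec.list_length.comp Primrec.fst
  exact Primrec.nat_le.comp h1 h2

/-- the functional on simulated windows -/
def phi' (z : List (Fin ns) × ℕ) : Option (Fin H.g) :=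
  if 2 ^ (z.2 + 4) + 20 ≤ z.1.length then some (decd H (fL H ltr a₀ z.1) z.2) else none

theorem primrec_phi' : Primrec (phi' H ltr a₀) :=
  Primrec.ite primrec_cond (Primrec.option_some.comp (primrec_decd H ltr a₀)) (Primrec.const none)

theorem computable_phi {sim : List Bool → List (Fin ns)} (hs : Computable sim) :
    Computable (phi H ltr a₀ sim) := by
  have h1 : Computable fun x : List Bool × ℕ => phi' H ltr a₀ (sim x.1, x.2) :=
    (primrec_phi' H ltr a₀).to_comp.comp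
      (Computable.pair (hs.comp Computable.fst) Computable.snd)
  exact h1

end Dec

theorem stk_congr {H : Hist} {y y' : ℕ → Fin H.g} (n : ℕ) (h : ∀ m < n, y m = y' m) :
    H.stk y n = H.stk y' n := by
  induction n with
  | zero => rfl
  | succ n ih =>
    rw [Hist.stk, Hist.stk, ih fun m hm => h m (by omega), h n (by omega)]

/-- `H.Runs ≤_M` immortal configurations -/
theorem le_immortal (H : Hist) {nq ns : ℕ}
    (eQ : St (Bool × Fin H.g) (PS H) (AC H) ≃ Fin nq)
    (eS : (Bool × Fin H.g) × Fg (PS H) (AC H) ≃ Fin ns) :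
    MedLE H.Runs (code '' immortal (del (iaH H) eQ eS)) := by
  -- the case without instructions
  rcases Nat.eq_zero_or_pos H.g with h0 | hpos
  · refine ⟨fun _ => none, Computable.const none, ?_⟩
    rintro _ ⟨c, -, rfl⟩
    have b := (eS.symm (c.2 0)).1.2
    rw [h0] at b
    exact b.elim0
  let a₀ : Bool × Fin H.g := (true, ⟨0, hpos⟩)
  let ltr : Fin ns → Bool × Fin H.g := fun s => (eS.symm s).1
  obtain ⟨sim, hsim, hspec⟩ := module2 nq ns (del (iaH H) eQ eS)
  refine ⟨phi H ltr a₀ sim, computable_phi H ltr a₀ hsim, ?_⟩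
  rintro _ ⟨c, hc, rfl⟩
  obtain ⟨hs1, hs2⟩ := hspec c hc
  set dat : ℤ → Bool × Fin H.g := fun i => (eS.symm (c.2 i)).1 with hdat
  set cf : Cf (Bool × Fin H.g) (PS H) (AC H) :=
    ⟨eQ.symm c.1, fun i => (eS.symm (c.2 i)).2, 0⟩ with hcf
  have himm : Imm (iaH H) dat cf := imm_of_immortal _ eQ eS hc
  have hemb : (⟨c.1, c.2, 0⟩ : ACfg (Fin nq) (Fin ns)) = emb eQ eS dat cf := eq_emb eQ eS c
  -- windows
  let Rn : ℕ → ℤ → ℤ → Prop := fun t lo hi => ∃ c', vr (iaH H) dat t (cf, 0, 0) = some (c', lo, hi)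
  have hmono : ∀ {t t' : ℕ} {lo hi lo' hi' : ℤ}, t ≤ t' → Rn t lo hi → Rn t' lo' hi' →
      lo' ≤ lo ∧ hi ≤ hi' := by
    rintro t t' lo hi lo' hi' htt ⟨c1, h1⟩ ⟨c2, h2⟩
    obtain ⟨s, rfl⟩ : ∃ s, t' = t + s := ⟨t' - t, by omega⟩
    have hm := vr_mono t _ _ _ _ h1 le_rfl le_rfl
    rw [vr_add, h1] at h2
    have hm' := vr_mono s _ _ _ _ h2 hm.2.2.1 hm.2.2.2
    exact ⟨hm'.1, hm'.2.1⟩
  have hstr : ∀ {t : ℕ} {lo hi : ℤ}, Rn t lo hi → ∀ N, ∃ o y, DStr H dat (lo + 5) (hi - 5) N o y ∧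
      ∀ n, 2 ^ (n + 4) ≤ hi - 5 - (lo + 5) → HistAt H y n := by
    rintro t lo hi ⟨c', h⟩ N
    obtain ⟨D, hD⟩ := vis_good cf himm t _ h
    exact complete_window hD N
  -- any two long windows are decoded in the same way
  have huniq : ∀ {n t t' : ℕ} {lo hi lo' hi' : ℤ} {f f' : ℕ → Bool × Fin H.g}, Rn t lo hi →
      Rn t' lo' hi' → 2 ^ (n + 4) ≤ hi - 5 - (lo + 5) → 2 ^ (n + 4) ≤ hi' - 5 - (lo' + 5) →
      (∀ i : ℕ, lo + 5 + i ≤ hi - 5 → f i = dat (lo + 5 + i)) →
      (∀ i : ℕ, lo' + 5 + i ≤ hi' - 5 → f' i = dat (lo' + 5 + i)) →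
      decd H f n = decd H f' n := by
    have key : ∀ {n t t' : ℕ} {lo hi lo' hi' : ℤ} {f f' : ℕ → Bool × Fin H.g}, t ≤ t' →
        Rn t lo hi →
        Rn t' lo' hi' → 2 ^ (n + 4) ≤ hi - 5 - (lo + 5) → 2 ^ (n + 4) ≤ hi' - 5 - (lo' + 5) →
        (∀ i : ℕ, lo + 5 + i ≤ hi - 5 → f i = dat (lo + 5 + i)) →
        (∀ i : ℕ, lo' + 5 + i ≤ hi' - 5 → f' i = dat (lo' + 5 + i)) →
        decd H f n = decd H f' n := by
      intro n t t' lo hi lo' hi' f f' htt h1 h2 hl1 hl2 hf hf'
      obtain ⟨m1, m2⟩ := hmono htt h1 h2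
      obtain ⟨o, y, hd, -⟩ := hstr h2 (n + 1)
      have hP := two_pow_pos' n
      have e4 : (2 : ℤ) ^ (n + 4) = 16 * 2 ^ n := by ring
      have g1 := decd_spec (hd.mono (by omega : lo' + 5 ≤ lo + 5) (by omega : hi - 5 ≤ hi' - 5)
        le_rfl) (by omega : n < n + 1) (by omega) hf
      have g2 := decd_spec hd (by omega : n < n + 1) (by omega) hf'
      rw [g1, g2]
    intro n t t' lo hi lo' hi' f f' h1 h2 hl1 hl2 hf hf'
    rcases le_total t t' with h | h
    · exact key h h1 h2 hl1 hl2 hf hf'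
    · exact (key h h2 h1 hl2 hl1 hf' hf).symm
  -- long windows exist
  have hlong : ∀ n : ℕ, ∃ t lo hi, Rn t lo hi ∧ 2 ^ (n + 4) ≤ hi - 5 - (lo + 5) := by
    intro n
    obtain ⟨t, w, h1, h2⟩ := vis_grow cf himm (2 ^ (n + 4) + 10)
    refine ⟨t, w.2.1, w.2.2, ⟨w.1, h1⟩, ?_⟩
    push_cast at h2
    omega
  choose tt lo hi hR hlen using hlong
  let y : ℕ → Fin H.g := fun n => decd H (fun i => dat (lo n + 5 + i)) n
  have hyd : ∀ {n t : ℕ} {lo' hi' : ℤ} {f : ℕ → Bool × Fin H.g}, Rn t lo' hi' →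
      2 ^ (n + 4) ≤ hi' - 5 - (lo' + 5) →
      (∀ i : ℕ, lo' + 5 + i ≤ hi' - 5 → f i = dat (lo' + 5 + i)) → decd H f n = y n := by
    intro n t lo' hi' f h1 h2 h3
    exact huniq h1 (hR n) h2 (hlen n) h3 fun i _ => rfl
  -- `y` is a history
  have hy : ∀ n, HistAt H y n := by
    intro n
    obtain ⟨o, z, hd, hh⟩ := hstr (hR (n + 1)) (n + 2)
    have e5 : (2 : ℤ) ^ (n + 1 + 4) = 2 * 2 ^ (n + 4) := by ring
    have hP := two_pow_pos' (n + 4)
    have hz : ∀ m ≤ n + 1, y m = z m := by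
      intro m hm
      have hPm := two_pow_mono' (by omega : m + 4 ≤ n + 1 + 4)
      have hlm := hlen (n + 1)
      have e4 : (2 : ℤ) ^ (m + 4) = 16 * 2 ^ m := by ring
      have hPm' := two_pow_pos' m
      rw [← hyd (n := m) (f := fun i => dat (lo (n + 1) + 5 + i)) (hR (n + 1)) (by omega)
        (fun i _ => rfl)]
      exact decd_spec hd (by omega : m < n + 2) (by omega) (fun i _ => rfl)
    have h1 := hh n (by have := hlen (n + 1); omega)
    unfold HistAt at h1 ⊢
    rw [hz 0 (by omega), hz n (by omega), hz (n + 1) le_rfl,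
      stk_congr (n + 1) (y := y) (y' := z) fun m hm => hz m (by omega)]
    exact h1
  refine ⟨y, ?_, ?_⟩
  · refine ⟨(hy 0).1, fun n => (hy n).2.1, fun n => (hy n).2.2.1, ?_⟩
    intro n
    rcases n with _ | n
    · rw [H.op_init _ (hy 0).1]
      trivial
    · exact (hy n).2.2.2
  · -- the functional computes `y`
    have hwin : ∀ {t : ℕ} {v : ACfg (Fin nq) (Fin ns) × ℤ × ℤ},
        vrun (del (iaH H) eQ eS) ⟨c.1, c.2, 0⟩ t = some v →
        Rn t v.2.1 v.2.2 ∧ (window v.1.tape v.2.1 v.2.2).length = (v.2.2 + 1 - v.2.1).toNat ∧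
        ∀ i : ℕ, v.2.1 + 5 + i ≤ v.2.2 - 5 →
          fL H ltr a₀ (window v.1.tape v.2.1 v.2.2) i = dat (v.2.1 + 5 + i) := by
      intro t v hv
      rw [hemb, vrun_emb] at hv
      obtain ⟨⟨w1, lo1, hi1⟩, hw, hw'⟩ := Option.map_eq_some_iff.1 hv
      subst hw'
      refine ⟨⟨w1, hw⟩, ?_, ?_⟩
      · rw [Mod2.window_eq]; simp
      · intro i hi
        simp only at hi ⊢
        unfold fL
        rw [Mod2.window_eq, List.getElem?_map, List.getElem?_range (by omega)]
        simp only [Option.map_some, Option.getD_some, emb, ltr, Equiv.symm_apply_apply]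
        congr 1
        push_cast
        ring
    apply Maps.of_weak
    · intro n k
      unfold phi
      split_ifs with hlen'
      · right
        simp only at hlen' ⊢
        congr 1
        rcases hs1 k with h | ⟨t, v, hv, hsv⟩
        · rw [h] at hlen'
          simp at hlen'
        · obtain ⟨w1, w2, w3⟩ := hwin hv
          rw [hsv] at hlen' ⊢
          rw [w2] at hlen'
          apply hyd w1 _ w3
          have : ((2 ^ (n + 4) + 20 : ℕ) : ℤ) ≤ ((v.2.2 + 1 - v.2.1).toNat : ℤ) := by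
            exact_mod_cast hlen'
          have hP : (0 : ℤ) < 2 ^ (n + 4) := two_pow_pos' (n + 4)
          rw [Nat.cast_add, Nat.cast_pow] at this
          push_cast at this
          omega
      · left; rfl
    · intro n
      obtain ⟨t₀, ⟨c₀, lo₀, hi₀⟩, h1, h2⟩ := vis_grow cf himm (2 ^ (n + 4) + 30)
      obtain ⟨k, t, v, ht, hv, hsv⟩ := hs2 t₀
      obtain ⟨w1, w2, w3⟩ := hwin hv
      obtain ⟨m1, m2⟩ := hmono ht ⟨c₀, h1⟩ w1
      simp only at h2
      push_cast at h2
      have hP : (0 : ℤ) < 2 ^ (n + 4) := two_pow_pos' (n + 4)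
      refine ⟨k, ?_⟩
      unfold phi
      simp only
      rw [hsv, w2, if_pos]
      · congr 1
        apply hyd w1 _ w3
        omega
      · have : ((2 ^ (n + 4) + 20 : ℕ) : ℤ) ≤ ((v.2.2 + 1 - v.2.1).toNat : ℤ) := by
          push_cast
          omega
        exact_mod_cast this

end Pool.Agent.Helper76.Med
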