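import Pool.Agent.Helper76.MedPhi

/-!
Module 6 of MP_4596be_lc: from histories to immortal configurations.
-/

namespace Pool.Agent.Helper76.Med

/-! ### translations -/

section Transl

variable {A S C : Type} {I : IA A S C} {dat : ℤ → A}

theorem transl_aux (a : ℤ) (D : Bool) (n : ℕ) :
    (∀ i, pst I (fun x => dat (x + a)) D i n = pst I dat D (i + a) n) ∧
    ∀ p c, acz I (fun x => dat (x + a)) D p n c = acz I dat D (p + a) n c := by
  induction n with
  | zero =>
    constructor
    · intro i; simp only [pst]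
    · intro p c; simp only [acz]
  | succ n ih =>
    constructor
    · intro i
      rw [pst_succ, pst_succ, ih.1, ih.2]
      have e1 : i + dz D + a = i + a + dz D := by ring
      have e2 : i + dz D * ((n : ℤ) + 1) + a = i + a + dz D * (n + 1) := by ring
      rw [e1, e2]
    · intro p c
      rw [acz_succ, acz_succ, ih.1, ih.2]
      have e1 : p + dz D + a = p + a + dz D := by ring
      rw [e1]

theorem good_transl {a : ℤ} {D : Bool} {Z Z' : Set ℤ} (h : Good I (fun x => dat (x + a)) D Z)
    (hZ : ∀ x ∈ Z', x - a ∈ Z) : Good I dat D Z' := by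
  intro i hi k hk
  have h1 := h (i - a) (hZ i hi) k (by
    have := hZ _ hk
    have e : i - a + dz D * ((k : ℤ) + 1) = i + dz D * (k + 1) - a := by ring
    rw [e]; exact this)
  unfold chkk at h1 ⊢
  rw [(transl_aux a D k).1, (transl_aux a D k).2] at h1
  have e1 : i - a + dz D + a = i + dz D := by ring
  have e2 : i - a + dz D * ((k : ℤ) + 1) + a = i + dz D * (k + 1) := by ring
  simp only [e2] at h1
  rw [e1, sub_add_cancel] at h1
  exact h1

end Transl

/-! ### the level of a positive natural number -/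

theorem dvd_sub_pow_nat {v w x : ℕ} (h : v < w) :
    (2 : ℤ) ^ w ∣ (x : ℤ) - 2 ^ v ↔ x % 2 ^ w = 2 ^ v := by
  have hlt : 2 ^ v < 2 ^ w := Nat.pow_lt_pow_right (by norm_num) h
  have h1 : ((x : ℤ) - 2 ^ v) = (x : ℤ) - ((2 ^ v : ℕ) : ℤ) := by push_cast; rfl
  have h2 : (2 : ℤ) ^ w = ((2 ^ w : ℕ) : ℤ) := by push_cast; rfl
  rw [h1, h2, Int.dvd_iff_emod_eq_zero, ← Int.emod_eq_emod_iff_emod_sub_eq_zero,
    ← Int.natCast_mod, ← Int.natCast_mod, Nat.mod_eq_of_lt hlt]
  exact Nat.cast_inj

theorem Lv_nat {v x : ℕ} : Lv v (x : ℤ) ↔ x % 2 ^ (v + 1) = 2 ^ v :=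
  dvd_sub_pow_nat (by omega)

theorem LL_nat {v x : ℕ} : LL v (x : ℤ) ↔ x % 2 ^ (v + 2) = 2 ^ v :=
  dvd_sub_pow_nat (by omega)

theorem exists_lev (p : ℕ) : ∃ v, (p + 1) % 2 ^ (v + 1) = 2 ^ v := by
  obtain ⟨v, hv⟩ := exists_level (x := ((p + 1 : ℕ) : ℤ)) (by positivity)
  exact ⟨v, Lv_nat.1 hv⟩

/-- the level of `p+1` -/
def lev (p : ℕ) : ℕ := Nat.find (exists_lev p)

theorem lev_spec (p : ℕ) : (p + 1) % 2 ^ (lev p + 1) = 2 ^ lev p := Nat.find_spec (exists_lev p)

theorem lev_unique {p v : ℕ} (h : (p + 1) % 2 ^ (v + 1) = 2 ^ v) : v = lev p :=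
  Lv.unique (x := ((p + 1 : ℕ) : ℤ)) (Lv_nat.2 h) (Lv_nat.2 (lev_spec p))

section Psi

variable {H : Hist}

/-- the letter of the cell `p` (offset `p+1`) for the history `y` -/
def rl (y : ℕ → Fin H.g) (p : ℕ) : Bool × Fin H.g :=
  (decide ((p + 1) % 2 ^ (lev p + 2) = 2 ^ lev p), y (lev p))

/-- the data for the history `y` -/
def ydat (a₀ : Bool × Fin H.g) (y : ℕ → Fin H.g) (i : ℤ) : Bool × Fin H.g :=
  if 0 ≤ i then rl y i.toNat else a₀

theorem ydat_nat (a₀ : Bool × Fin H.g) (y : ℕ → Fin H.g) (p : ℕ) :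
    ydat a₀ y (p : ℤ) = rl y p := by
  simp [ydat]

theorem ydat_good {y : ℕ → Fin H.g} (hy : y ∈ H.Runs) (a₀ : Bool × Fin H.g) (D : Bool) :
    Good (iaH H) (ydat a₀ y) D (Set.Ici 0) := by
  have hx : ∀ x : ℤ, 1 ≤ x → ∃ p : ℕ, x = ((p + 1 : ℕ) : ℤ) := fun x h => ⟨(x - 1).toNat, by
    push_cast; omega⟩
  have hd : ∀ p : ℕ, ydat a₀ y (((p + 1 : ℕ) : ℤ) + -1) = rl y p := by
    intro p
    rw [← ydat_nat a₀ y p]
    congr 1
    push_cast; ring
  have hg := good_of_history (dat := fun x => ydat a₀ y (x + -1)) hy ?_ ?_ ?_ ?_ D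
  · refine good_transl (a := -1) hg ?_
    intro x hx
    have : (0 : ℤ) ≤ x := hx
    show (1 : ℤ) ≤ x - -1
    omega
  · intro x h1
    obtain ⟨p, rfl⟩ := hx x h1
    simp only [hd, rl]
    have hlv : Lv (lev p) ((p + 1 : ℕ) : ℤ) := Lv_nat.2 (lev_spec p)
    cases hlp : lev p with
    | zero =>
      rw [hlp] at hlv
      simp only [hy.1, true_iff]
      exact fun h => hlv.not_hh (by omega) h
    | succ v =>
      rw [hlp] at hlv
      simp only [hy.2.1 v, Bool.false_eq_true, false_iff, not_not]
      exact hlv.hh.mono (by omega)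
  · intro v x h1 h2
    obtain ⟨p, rfl⟩ := hx x h1
    simp only [hd, rl]
    obtain rfl := lev_unique (Lv_nat.1 h2.lv)
    exact decide_eq_true (LL_nat.1 h2)
  · intro v x h1 h2
    obtain ⟨p, rfl⟩ := hx x h1
    simp only [hd, rl]
    obtain rfl := lev_unique (Lv_nat.1 h2.lv)
    apply decide_eq_false
    intro h
    exact (LL_nat.2 h).not_RR h2
  · intro v x h1 h2
    obtain ⟨p, rfl⟩ := hx x h1
    simp only [hd, rl]
    obtain rfl := lev_unique (Lv_nat.1 h2)
    rfl

variable (H) {ns : ℕ}

/-- the offset of the cell asked for -/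
def off (n : ℕ) : ℕ := (n / 2).unpair.1 / 2 + 1

/-- the level of the cell asked for, or the length of the given list if the latter is smaller -/
def vix (x : List (Fin H.g) × ℕ) : ℕ :=
  (List.range x.1.length).findIdx fun v => decide (off x.2 % 2 ^ (v + 1) = 2 ^ v)

/-- the type of the cell asked for -/
def vty (x : List (Fin H.g) × ℕ) : Bool := decide (off x.2 % 2 ^ (vix H x + 2) = 2 ^ vix H x)

/-- the functional -/
def psi (q0 : ℕ) (sneg : ℕ) (sym : Bool × Fin H.g → Fin ns) (x : List (Fin H.g) × ℕ) :
    Option Bool :=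
  cond (decide (x.2 % 2 = 0)) (some (decide (q0 = x.2 / 2)))
    (cond (decide ((x.2 / 2).unpair.1 % 2 = 0))
      ((x.1[vix H x]?).map fun a => decide ((sym (vty H x, a) : ℕ) = (x.2 / 2).unpair.2))
      (some (decide (sneg = (x.2 / 2).unpair.2))))

theorem primrec_psi (q0 : ℕ) (sneg : ℕ) (sym : Bool × Fin H.g → Fin ns) :
    Primrec (psi H q0 sneg sym) := by
  have hn : Primrec fun x : List (Fin H.g) × ℕ => x.2 := Primrec.snd
  have hdiv : ∀ {α : Type} [Primcodable α] {f : α → ℕ}, Primrec f → Primrec fun x => f x / 2 :=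
    fun hf => Primrec.nat_div.comp hf (Primrec.const 2)
  have hmod : ∀ {α : Type} [Primcodable α] {f : α → ℕ}, Primrec f → Primrec fun x => f x % 2 :=
    fun hf => Primrec.nat_mod.comp hf (Primrec.const 2)
  have heq : ∀ {α : Type} [Primcodable α] {f g : α → ℕ}, Primrec f → Primrec g →
      Primrec fun x => decide (f x = g x) := fun hf hg => Primrec.eq.decide.comp hf hg
  have hi : Primrec fun x : List (Fin H.g) × ℕ => (x.2 / 2).unpair.1 :=
    Primrec.fst.comp (Primrec.unpair.comp (hdiv hn))
  have hj : Primrec fun x : List (Fin H.g) × ℕ => (x.2 / 2).unpair.2 :=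
    Primrec.snd.comp (Primrec.unpair.comp (hdiv hn))
  have hx : Primrec fun x : List (Fin H.g) × ℕ => off x.2 :=
    Primrec.succ.comp (hdiv hi)
  have hv : Primrec (vix H) := by
    refine Primrec.list_findIdx (Primrec.list_range.comp (Primrec.list_length.comp Primrec.fst)) ?_
    refine (heq (Primrec.nat_mod.comp (hx.comp Primrec.fst) (primrec_pow2
      (Primrec.succ.comp Primrec.snd))) (primrec_pow2 Primrec.snd)).to₂
  have ht : Primrec (vty H) :=
    heq (Primrec.nat_mod.comp hx (primrec_pow2 (Primrec.nat_add.comp hv (Primrec.const 2))))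
      (primrec_pow2 hv)
  refine Primrec.cond (heq (hmod hn) (Primrec.const 0))
    (Primrec.option_some.comp (heq (Primrec.const q0) (hdiv hn)))
    (Primrec.cond (heq (hmod hi) (Primrec.const 0)) ?_
      (Primrec.option_some.comp (heq (Primrec.const sneg) hj)))
  refine Primrec.option_map (Primrec.list_getElem?.comp Primrec.fst hv) ?_
  have hs : Primrec fun z : (List (Fin H.g) × ℕ) × Fin H.g => ((sym (vty H z.1, z.2) : Fin ns) : ℕ) :=
    Primrec.fin_val.comp ((Primrec.dom_finite sym).comp
      (Primrec.pair (ht.comp Primrec.fst) Primrec.snd))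
  exact (heq hs (hj.comp Primrec.fst)).to₂

theorem vix_eq (y : ℕ → Fin H.g) (k n : ℕ) {p : ℕ} (hp : off n = p + 1) :
    vix H (seg y k, n) = if lev p < k then lev p else k := by
  unfold vix
  simp only [length_seg, hp]
  split_ifs with h
  · rw [List.findIdx_eq (by simpa using h)]
    constructor
    · simp only [List.getElem_range, decide_eq_true_iff]
      exact lev_spec p
    · intro j hj
      simp only [List.getElem_range, decide_eq_false_iff_not]
      intro hc
      have := lev_unique hc
      omega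
  · have : (List.range k).findIdx (fun v => decide ((p + 1) % 2 ^ (v + 1) = 2 ^ v)) =
        (List.range k).length := by
      rw [List.findIdx_eq_length]
      intro v hv
      simp only [decide_eq_false_iff_not]
      intro hc
      have := lev_unique hc
      have := List.mem_range.1 hv
      omega
    rw [this, List.length_range]

variable {H}

/-- immortal configurations `≤_M H.Runs` -/
theorem immortal_le (H : Hist) {nq ns : ℕ}
    (eQ : St (Bool × Fin H.g) (PS H) (AC H) ≃ Fin nq)
    (eS : (Bool × Fin H.g) × Fg (PS H) (AC H) ≃ Fin ns) :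
    MedLE (code '' immortal (del (iaH H) eQ eS)) H.Runs := by
  -- the case without instructions
  rcases Nat.eq_zero_or_pos H.g with h0 | hpos
  · refine ⟨fun _ => none, Computable.const none, ?_⟩
    intro y _
    have b := y 0
    rw [h0] at b
    exact b.elim0
  let a₀ : Bool × Fin H.g := (true, ⟨0, hpos⟩)
  let q0 : St (Bool × Fin H.g) (PS H) (AC H) :=
    .chk ⟨true, .fwd, (iaH H).init true a₀⟩ (iaH H).zero
  let sym : Bool × Fin H.g → Fin ns := fun a => eS (a, .blank)
  refine ⟨psi H (eQ q0) (sym a₀) sym, (primrec_psi H _ _ sym).to_comp, ?_⟩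
  intro y hy
  let c : Fin nq × (ℤ → Fin ns) := (eQ q0, fun i => sym (ydat a₀ y i))
  refine ⟨code c, ⟨c, ?_, rfl⟩, ?_⟩
  · -- the configuration is immortal
    apply immortal_of_vrun
    intro t
    have e : (⟨c.1, c.2, 0⟩ : ACfg (Fin nq) (Fin ns)) =
        emb eQ eS (ydat a₀ y) ⟨q0, fun _ => .blank, 0⟩ := rfl
    rw [e, vrun_emb, Option.isSome_map]
    refine imm_of_good _ _ _ _ (fun _ => rfl) ?_ t _ _
    intro D
    refine (ydat_good hy a₀ D).mono _ _ ?_
    rintro x ⟨j, hj, rfl⟩
    show (0 : ℤ) ≤ _
    simp only [Kap.dir, dz_true]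
    omega
  · -- the functional computes its code
    have hcell : ∀ n, (n / 2).unpair.1 % 2 = 0 → ∃ p, off n = p + 1 ∧
        Equiv.intEquivNat.symm (n / 2).unpair.1 = (p : ℤ) := by
      intro n hn
      refine ⟨(n / 2).unpair.1 / 2, rfl, ?_⟩
      rw [← Mod2.intEquivNat_symm_even]
      congr 1
      omega
    have hneg : ∀ n, ¬ (n / 2).unpair.1 % 2 = 0 →
        ¬ (0 ≤ Equiv.intEquivNat.symm (n / 2).unpair.1) := by
      intro n hn
      have e : (n / 2).unpair.1 = 2 * ((n / 2).unpair.1 / 2) + 1 := by omega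
      rw [e, Mod2.intEquivNat_symm_odd]
      omega
    have hval : ∀ n k, psi H (eQ q0) (sym a₀) sym (seg y k, n) =
        if n % 2 = 0 then some (code c n) else
        if (n / 2).unpair.1 % 2 = 0 then
          (if lev (off n - 1) < k then some (code c n) else none)
        else some (code c n) := by
      intro n k
      unfold psi code
      simp only [Bool.cond_eq_ite, decide_eq_true_eq]
      by_cases h1 : n % 2 = 0
      · simp only [h1, if_true]
        rfl
      · simp only [if_neg h1]
        by_cases h2 : (n / 2).unpair.1 % 2 = 0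
        · simp only [h2, if_true]
          obtain ⟨p, hp1, hp2⟩ := hcell n h2
          rw [hp2]
          have hv := vix_eq H y k n hp1
          have hp3 : off n - 1 = p := by omega
          rw [hp3]
          by_cases h3 : lev p < k
          · rw [if_pos h3] at hv ⊢
            have hseg : (seg y k)[lev p]? = some (y (lev p)) := by
              simp [seg, h3]
            rw [hv, hseg]
            simp only [Option.map_some, vty, hv, hp1]
            have : c.2 (p : ℤ) = sym (rl y p) := by
              show sym (ydat a₀ y p) = _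
              rw [ydat_nat]
            rw [this]
            rfl
          · rw [if_neg h3] at hv ⊢
            have hseg : (seg y k)[k]? = none := by
              simp [seg]
            rw [hv, hseg]
            rfl
        · simp only [if_neg h2]
          have : c.2 (Equiv.intEquivNat.symm (n / 2).unpair.1) = sym a₀ := by
            show sym (ydat a₀ y _) = _
            unfold ydat
            rw [if_neg (hneg n h2)]
          rw [this]
    apply Maps.of_weak
    · intro n k
      rw [hval]
      split_ifs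
      · right; rfl
      · right; rfl
      · left; rfl
      · right; rfl
    · intro n
      refine ⟨lev (off n - 1) + 1, ?_⟩
      rw [hval]
      split_ifs
      · rfl
      · rfl
      · omega
      · rfl

end Psi

end Pool.Agent.Helper76.Med
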