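import Pool.Agent.Helper76.MedChain

/-!
Module 4 of MP_4596be_lc: soundness and completeness of the interval automaton.
-/

namespace Pool.Agent.Helper76.Med

namespace Sys

variable {H : Hist} {Y : Sys H} {y : ℕ → Fin H.g}

theorem LL.level {v w : ℕ} {x : ℤ} (h : LL v x) (h' : LL w x) : v = w := h.lv.unique h'.lv

theorem chain_self (R : Y.Rules) {l r : ℤ} (hf : Y.Full y l r) {x : ℤ} (h1 : l ≤ x)
    (h2 : x ≤ r) : Y.ChainAt y x x := by
  constructor
  · intro v hv h
    rw [R.al_self, hf.right v x h1 h2 hv] at h
    exact absurd h (by decide)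
  · intro v hv u hvu hg hu1 hu2
    have huv : u = v := by
      by_contra hne
      have := two_pow_lt_succ (by omega : v < u)
      have := two_pow_pos' v
      omega
    subst huv
    refine ⟨(R.al_self x).2 (hf.left u x h1 h2 hv), ?_⟩
    intro k
    rw [R.um_self, mem_lstk_self, hf.pay u x h1 h2 hv.lv]
  · intro v hv t ht h3
    exfalso
    have hvt : v ≤ t := by
      by_contra hlt
      exact ht.not_hh (by omega) (HH_LL hv)
    have := two_pow_mono' (by omega : v + 1 ≤ t + 1)
    have := two_pow_succ' v
    have := two_pow_pos' v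
    omega

theorem chain_step (R : Y.Rules) {l r : ℤ} (hf : Y.Full y l r) {c : ℤ} (hc : c + 1 ≤ r)
    (ihs : ∀ n x, l ≤ x → x ≤ c → Y.StatAt n x c)
    (ih : ∀ x, l ≤ x → x ≤ c → Y.ChainAt y x c) {x : ℤ} (hx : l ≤ x) (hxc : x ≤ c) :
    Y.ChainAt y x (c + 1) := by
  constructor
  · intro v hv h
    rw [R.al_succ x c hxc] at h
    exact (ih x hx hxc).dR v hv h.1
  · intro v hv u hvu hg hu1 hu2
    have hPu := two_pow_pos' u
    have hSu := two_pow_succ' u
    have hPv := two_pow_pos' v
    have hSv := two_pow_succ' v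
    by_cases h : x - 2 ^ v + 2 ^ u ≤ c
    · -- no chain step
      have hncs : ¬ Y.cs x c := by
        intro hcs
        obtain ⟨v', u', g1, g2, g3, g4⟩ := of_cs hf hc ihs ih hx hxc hcs
        obtain rfl := LL.level hv g1
        rcases Nat.lt_or_ge u' u with hlt | hge
        · have := two_pow_mono' (by omega : u' + 1 ≤ u)
          omega
        · have := two_pow_mono' (by omega : u + 1 ≤ u' + 1)
          omega
      obtain ⟨h1, h2⟩ := (ih x hx hxc).aL v hv u hvu hg h (by omega)
      refine ⟨(R.al_succ x c hxc).2 ⟨h1, fun h => hncs h.1⟩, fun k => ?_⟩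
      rw [R.um_succ x c k hxc, ← h2 k]
      exact ⟨fun h => h.1, fun h => ⟨h, fun h => hncs h.1⟩⟩
    · -- chain step
      have hb : c + 1 = x - 2 ^ v + 2 ^ u := by omega
      have hlt : v < u := by
        rcases Nat.eq_or_lt_of_le hvu with rfl | h'
        · omega
        · exact h'
      obtain ⟨u, rfl⟩ : ∃ w, u = w + 1 := ⟨u - 1, by omega⟩
      have hPu' := two_pow_pos' u
      have hSu' := two_pow_succ' u
      have hg' : HH (u + 2) (x - 2 ^ v) := hg.mono (by omega)
      have hcs := cs_of hf hc ihs ih hx hxc hv (by omega) hg' hb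
      obtain ⟨h1, h2⟩ := (ih x hx hxc).aL v hv u (by omega) hg' (by omega) (by omega)
      have hLb : LL (u + 1) (c + 1) := by
        rw [hb]
        exact LL_of_HH_add hg
      have hsb := hf.left _ _ (by omega) hc hLb
      have hpb := hf.pay _ _ (by omega) hc hLb.lv
      refine ⟨(R.al_succ x c hxc).2 ⟨h1, fun h => ?_⟩, fun k => ?_⟩
      · rw [hsb] at h
        exact absurd h.2 (by decide)
      · rw [R.um_succ x c k hxc, h2 k, mem_lstk_succ (by omega : v ≤ u),
          UMb_iff hf hc ih hx hxc (by omega : v ≤ u) hg' hb, hpb]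
        simp only [hcs, true_and]
  · intro v hv t ht h3 hal
    have hPt := two_pow_pos' t
    have hSt := two_pow_succ' t
    have hPv := two_pow_pos' v
    rw [R.al_succ x c hxc] at hal
    by_cases h : x - 2 ^ v + 2 ^ (t + 1) ≤ c
    · exact (ih x hx hxc).dL v hv t ht h hal.1
    · have hb : c + 1 = x - 2 ^ v + 2 ^ (t + 1) := by omega
      have hvt : v ≤ t := by
        by_contra hlt
        exact ht.not_hh (by omega) (HH_LL hv)
      have hcs := cs_of hf hc ihs ih hx hxc hv hvt ht.hh hb
      apply hal.2
      refine ⟨hcs, hf.right (t + 1) _ (by omega) hc ?_⟩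
      rw [hb]
      exact RR_of_Lv_add ht

theorem chain (R : Y.Rules) {l r : ℤ} (hf : Y.Full y l r) (k : ℕ) :
    ∀ c : ℤ, c = l + k → c ≤ r → ∀ x, l ≤ x → x ≤ c → Y.ChainAt y x c := by
  induction k with
  | zero =>
    intro c hc hr x h1 h2
    obtain rfl : c = x := by simp at hc; omega
    exact chain_self R hf h1 hr
  | succ k ih =>
    intro c hc hr x h1 h2
    rcases eq_or_lt_of_le h2 with rfl | hlt
    · exact chain_self R hf h1 hr
    · have := chain_step R hf (c := c - 1) (by omega)
        (fun n x hx1 hx2 => status' R (hf.toSg n) hx1 hx2 (by omega))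
        (fun x hx1 hx2 => ih (c - 1) (by push_cast at hc; omega) (by omega) x hx1 hx2) h1
        (by omega : x ≤ c - 1)
      simpa using this

theorem chain' (R : Y.Rules) {l r : ℤ} (hf : Y.Full y l r) {x c : ℤ}
    (h1 : l ≤ x) (h2 : x ≤ c) (h3 : c ≤ r) : Y.ChainAt y x c :=
  chain R hf (c - l).toNat c (by omega) h3 x h1 h2

/-- the top of a stack in terms of levels -/
theorem head_of_lstk {n : ℕ} {k : Fin H.K} {v : ℕ} {t : List ℕ}
    (h : lstk H y n k = v :: t) : ∃ x, H.op (y v) = some (k, Sum.inl x) ∧
      (H.stk y n k).head? = some x := by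
  have h1 := stk_lstk (H := H) (y := y) (n := n) (k := k)
  rw [h] at h1
  cases hs : H.stk y n k with
  | nil => rw [hs] at h1; cases h1
  | cons x s =>
    rw [hs] at h1
    cases h1 with
    | cons h2 _ => exact ⟨x, h2, rfl⟩

theorem head_of_lstk_nil {n : ℕ} {k : Fin H.K} (h : lstk H y n k = []) :
    (H.stk y n k).head? = none := by
  have h1 := stk_lstk (H := H) (y := y) (n := n) (k := k)
  rw [h] at h1
  cases hs : H.stk y n k with
  | nil => rfl
  | cons x s => rw [hs] at h1; cases h1

/-- soundness: windows that carry a history pass all the checks -/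
theorem sound (R : Y.Rules) {l r : ℤ} (hf : Y.Full y l r) (hy : y ∈ H.Runs) : Y.GoodW l r := by
  intro j c hj hjc hc
  obtain ⟨hy0, hy1, hyE, hyO⟩ := hy
  have ihs : ∀ n x, l ≤ x → x ≤ c → Y.StatAt n x c := fun n x hx1 hx2 =>
    status' R (hf.toSg n) hx1 hx2 (by omega)
  have ih : ∀ x, l ≤ x → x ≤ c → Y.ChainAt y x c := fun x hx1 hx2 =>
    chain' R hf hx1 hx2 (by omega)
  obtain ⟨v, hv⟩ := exists_level (hf.ne_zero hj (by omega : j ≤ r))
  have hPv := two_pow_pos' v
  have hSv := two_pow_succ' v
  have hst := ihs v j hj hjc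
  constructor
  · rintro rfl
    rw [hf.leaf j hj (by omega), hf.leaf (j + 1) (by omega) hc]
    simp only [HH, pow_one]
    omega
  · intro h1 h2
    have h3 : j + 2 ^ v ≤ c := by
      by_contra hlt
      rw [hst.sV v le_rfl hv (by omega)] at h1
      exact absurd h1 (by decide)
    have h4 : c < j + 2 ^ (v + 1) := by
      by_contra hlt
      rw [hst.sX v le_rfl hv (by omega)] at h1
      exact absurd h1 (by decide)
    have h5 : c + 1 = j + 2 ^ (v + 1) := by
      by_contra hne
      exact h2 (hasW (ihs v) hj le_rfl hv h3 (by omega))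
    have e : j = c + 1 - 2 ^ (v + 1) := by omega
    have hv' : Lv v (c + 1) := by
      rw [← Lv_sub_iff, ← e]; exact hv
    constructor
    · rcases Lv_or v hv' with h | h
      · rw [hf.left v _ (by omega) hc h, hf.right v j hj (by omega) (by
          rw [e]; exact RR_of_LL_sub h)]
        decide
      · rw [hf.right v _ (by omega) hc h, hf.left v j hj (by omega) (by
          rw [e]; exact LL_of_RR_sub h)]
        decide
    · rw [hf.pay v _ hj (by omega) hv, hf.pay v _ (by omega) hc hv']
  · intro h1 h2 h3 h4
    have h5 : c < j + 2 ^ v := by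
      by_contra hlt
      by_cases h6 : c < j + 2 ^ (v + 1)
      · rw [hst.sW v le_rfl hv (by omega) h6] at h1
        exact absurd h1 (by decide)
      · rw [hst.sX v le_rfl hv (by omega)] at h1
        exact absurd h1 (by decide)
    have h6 : c + 1 = j + 2 ^ v := by
      by_contra hne
      obtain ⟨w, -, -, -, h⟩ := hasVL (hf.toSg v) hc (ihs v) hj hjc le_rfl hv.hh (by omega) h2
      exact h3 ⟨_, h⟩
    have hL : LL v j := by
      rcases Lv_or v hv with h | h
      · exact h
      · rw [hf.right v j hj (by omega) h] at h4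
        exact absurd h4 (by decide)
    have hv' : Lv (v + 1) (c + 1) := by
      rw [h6]
      unfold Lv
      have e : j + 2 ^ v - 2 ^ (v + 1) = j - 2 ^ v := by omega
      rw [e]
      exact hL
    rw [hf.pay v _ hj (by omega) hv, hf.pay _ _ (by omega) hc hv']
    exact hyE v
  · intro hcs k o hop hnum
    obtain ⟨v', u, g1, g2, g3, g4⟩ := of_cs hf hc ihs ih hj hjc hcs
    obtain rfl : v' = v := g1.lv.unique hv
    have hPu := two_pow_pos' u
    have hSu := two_pow_succ' u
    rw [UMb_iff hf hc ih hj hjc g2 g3 g4] at hnum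
    obtain ⟨-, hum⟩ := (ih j hj hjc).aL v' g1 u g2 g3 (by omega) (by omega)
    have hvb : Lv (u + 1) (c + 1) := by
      rw [g4]
      unfold Lv
      have e : j - 2 ^ v' + 2 ^ (u + 1) - 2 ^ (u + 1) = j - 2 ^ v' := by ring
      rw [e]
      exact g3
    rw [hf.pay _ _ (by omega) hc hvb] at hop
    have hO := hyO (u + 1)
    rw [hop] at hO
    have hO' : (H.stk y (u + 1) k).head? = o := hO
    have hlt := lstk_lt (H := H) (y := y) (n := u + 1) (k := k)
    have hso := lstk_sorted (H := H) (y := y) (n := u + 1) (k := k)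
    rw [hum k, hf.pay _ _ hj (by omega) hv]
    constructor
    · intro hmem x hx
      cases hl : lstk H y (u + 1) k with
      | nil => rw [hl] at hmem; simp at hmem
      | cons w t =>
        have hw : w = v' := by
          rw [hl] at hso hmem
          rcases List.mem_cons.1 hmem with h | h
          · exact h.symm
          · exfalso
            have h7 := (List.pairwise_cons.1 hso).1 v' h
            have h8 := hlt w (by rw [hl]; simp)
            exact hnum ⟨w, h7, by omega, by rw [hl]; simp⟩
        subst hw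
        obtain ⟨x', h9, h10⟩ := head_of_lstk hl
        rw [h9] at hx
        rw [← hO', h10]
        simpa using hx
    · intro hnmem hlf
      have hv0 : v' = 0 := by
        rw [hf.leaf j hj (by omega)] at hlf
        by_contra hne
        exact hlf (hv.hh.mono (by omega))
      subst hv0
      have hnil : lstk H y (u + 1) k = [] := by
        rw [List.eq_nil_iff_forall_not_mem]
        intro w hw
        rcases Nat.eq_zero_or_pos w with rfl | hpos
        · exact hnmem hw
        · have := hlt w hw
          exact hnum ⟨w, hpos, by omega, hw⟩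
      rw [← hO', head_of_lstk_nil hnil]

/-- completeness: what the checks say about the payloads of the levels `n` and `n+1` -/
theorem complete (R : Y.Rules) {l r : ℤ} (hf : Y.Full y l r) (hG : Y.GoodW l r) {n : ℕ} {g : ℤ}
    (hg : HH (n + 2) g) (hl : l ≤ g + 1) (hr : g + 2 ^ (n + 1) ≤ r) :
    H.isInit (y 0) = true ∧ H.isInit (y (n + 1)) = false ∧ H.E (y n) (y (n + 1)) = true ∧
      H.OpOK (H.op (y (n + 1))) (H.stk y (n + 1)) := by
  have hPn := two_pow_pos' n
  have hSn := two_pow_succ' n
  obtain ⟨c, hc⟩ : ∃ c, c + 1 = g + 2 ^ (n + 1) := ⟨g + 2 ^ (n + 1) - 1, by omega⟩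
  have ihs : ∀ n x, l ≤ x → x ≤ c → Y.StatAt n x c := fun n x hx1 hx2 =>
    status' R (hf.toSg n) hx1 hx2 (by omega)
  have ih : ∀ x, l ≤ x → x ≤ c → Y.ChainAt y x c := fun x hx1 hx2 =>
    chain' R hf hx1 hx2 (by omega)
  have hvb : Lv (n + 1) (c + 1) := by
    rw [hc]
    unfold Lv
    have e : g + 2 ^ (n + 1) - 2 ^ (n + 1) = g := by ring
    rw [e]
    exact hg
  have hpb := hf.pay _ _ (by omega : l ≤ c + 1) (by omega) hvb
  have hlb := hf.leaf _ (by omega : l ≤ c + 1) (by omega)
  have hnlb : ¬ Y.lf (c + 1) := by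
    rw [hlb, not_not]
    exact hvb.hh.mono (by omega)
  have hL0 : LL 0 (g + 1) := by
    have := LL_of_HH_add (u := 0) (g := g) (hg.mono (by omega))
    simpa using this
  have hp0 := hf.pay 0 (g + 1) hl (by omega) hL0.lv
  have hlf0 : Y.lf (g + 1) := by
    rw [hf.leaf _ hl (by omega)]
    exact fun h => hL0.lv.not_hh (by omega) h
  refine ⟨?_, ?_, ?_, ?_⟩
  · have : H.isInit (Y.pay (g + 1)) = true := hlf0
    rw [hp0] at this
    exact this
  · have : ¬ H.isInit (Y.pay (c + 1)) = true := hnlb
    rw [hpb] at this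
    simpa using this
  · have hLn : LL n (g + 2 ^ n) := LL_of_HH_add hg
    have hk := (hG (g + 2 ^ n) c (by omega) (by omega) (by omega)).c3
      ((ihs n _ (by omega) (by omega)).sV n le_rfl hLn.lv (by omega)) hnlb
      (noVL (hf.toSg n) (by omega) (ihs n) (by omega) le_rfl hLn.lv (by omega))
      (hf.left n _ (by omega) (by omega) hLn)
    rw [hf.pay n _ (by omega) (by omega) hLn.lv, hpb] at hk
    exact hk
  · rcases hop : H.op (y (n + 1)) with _ | ⟨k, x | o⟩
    · trivial
    · trivial
    · show (H.stk y (n + 1) k).head? = o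
      rw [← hpb] at hop
      cases hls : lstk H y (n + 1) k with
      | nil =>
        rw [head_of_lstk_nil hls]
        have e : g + 1 - 2 ^ 0 = g := by simp
        have hcs := cs_of (x := g + 1) (v := 0) (u := n) hf (by omega) ihs ih (by omega) (by omega)
          hL0 (by omega) (by rw [e]; exact hg) (by rw [e]; exact hc)
        have h4 := (hG (g + 1) c (by omega) (by omega) (by omega)).c4 hcs k o hop (by
          rw [UMb_iff (x := g + 1) (v := 0) (u := n) hf (by omega) ih (by omega) (by omega)
            (by omega) (by rw [e]; exact hg) (by rw [e]; exact hc), hls]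
          simp)
        obtain ⟨-, hum⟩ := (ih (g + 1) (by omega) (by omega)).aL 0 hL0 n (by omega)
          (by rw [e]; exact hg) (by rw [e]; omega) (by rw [e]; omega)
        exact (h4.2 (by rw [hum k, hls]; simp) hlf0).symm
      | cons v t =>
        obtain ⟨x, h9, h10⟩ := head_of_lstk hls
        rw [h10]
        have hvn : v ≤ n := by
          have := lstk_lt (H := H) (y := y) (n := n + 1) (k := k) v (by rw [hls]; simp)
          omega
        have hPv := two_pow_pos' v
        have hSv := two_pow_succ' v
        have hm := two_pow_mono' hvn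
        have e : g + 2 ^ v - 2 ^ v = g := by ring
        have hLv : LL v (g + 2 ^ v) := LL_of_HH_add (hg.mono (by omega))
        have hcs := cs_of (x := g + 2 ^ v) (v := v) (u := n) hf (by omega) ihs ih (by omega)
          (by omega) hLv hvn (by rw [e]; exact hg) (by rw [e]; exact hc)
        have h4 := (hG (g + 2 ^ v) c (by omega) (by omega) (by omega)).c4 hcs k o hop (by
          rw [UMb_iff (x := g + 2 ^ v) (v := v) (u := n) hf (by omega) ih (by omega) (by omega)
            hvn (by rw [e]; exact hg) (by rw [e]; exact hc), hls]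
          rintro ⟨w, hw1, hw2, hw3⟩
          have hso := lstk_sorted (H := H) (y := y) (n := n + 1) (k := k)
          rw [hls] at hso
          rcases List.mem_cons.1 hw3 with h | h
          · omega
          · have := (List.pairwise_cons.1 hso).1 w h
            omega)
        obtain ⟨-, hum⟩ := (ih (g + 2 ^ v) (by omega) (by omega)).aL v hLv n hvn
          (by rw [e]; exact hg) (by rw [e]; omega) (by rw [e]; omega)
        exact (h4.1 (by rw [hum k, hls]; simp) x (by
          rw [hf.pay v _ (by omega) (by omega) hLv.lv]; exact h9)).symm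

end Sys

end Pool.Agent.Helper76.Med
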