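import Pool.Agent.Helper76.MedSys

/-!
Module 4 of MP_4596be_lc: a window in which all checks are passed is structured.
-/

namespace Pool.Agent.Helper76.Med

namespace Sys

variable {H : Hist} (Y : Sys H)

/-- translation of the origin to `o` -/
def shift (o : ℤ) : Sys H where
  sgm x := Y.sgm (x + o)
  pay x := Y.pay (x + o)
  stat j c := Y.stat (j + o) (c + o)
  al j c := Y.al (j + o) (c + o)
  um j c k := Y.um (j + o) (c + o) k

variable {Y}

theorem shift_lf {o x : ℤ} : (Y.shift o).lf x ↔ Y.lf (x + o) := Iff.rfl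

theorem shift_VL {o j c j' : ℤ} : (Y.shift o).VL j c j' ↔ Y.VL (j + o) (c + o) (j' + o) := by
  unfold VL
  simp only [shift, add_lt_add_iff_right, add_le_add_iff_right]

theorem shift_VLb {o j c : ℤ} : (Y.shift o).VLb j c ↔ Y.VLb (j + o) (c + o) := by
  constructor
  · rintro ⟨j', h⟩
    exact ⟨j' + o, shift_VL.1 h⟩
  · rintro ⟨j', h⟩
    exact ⟨j' - o, shift_VL.2 (by simpa using h)⟩

theorem shift_VL1 {o j c : ℤ} : (Y.shift o).VL1 j c ↔ Y.VL1 (j + o) (c + o) := by
  constructor
  · rintro ⟨j', h, h'⟩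
    refine ⟨j' + o, shift_VL.1 h, ?_⟩
    intro j'' hj
    have := h' (j'' - o) (shift_VL.2 (by simpa using hj))
    omega
  · rintro ⟨j', h, h'⟩
    refine ⟨j' - o, shift_VL.2 (by simpa using h), ?_⟩
    intro j'' hj
    have := h' (j'' + o) (shift_VL.1 hj)
    omega

theorem shift_Wb {o j c : ℤ} : (Y.shift o).Wb j c ↔ Y.Wb (j + o) (c + o) := by
  constructor
  · rintro ⟨j', h1, h2, h3⟩
    exact ⟨j' + o, by omega, by omega, h3⟩
  · rintro ⟨j', h1, h2, h3⟩
    exact ⟨j' - o, by omega, by omega, by
      simp only [shift, sub_add_cancel]; exact h3⟩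

theorem shift_UMb {o j c : ℤ} {k : Fin H.K} :
    (Y.shift o).UMb j c k ↔ Y.UMb (j + o) (c + o) k := by
  constructor
  · rintro ⟨j', h1, h2, h3⟩
    exact ⟨j' + o, by omega, by omega, h3⟩
  · rintro ⟨j', h1, h2, h3⟩
    exact ⟨j' - o, by omega, by omega, by
      simp only [shift, sub_add_cancel]; exact h3⟩

theorem shift_cs {o j c : ℤ} : (Y.shift o).cs j c ↔ Y.cs (j + o) (c + o) := by
  unfold cs
  rw [shift_lf, shift_VLb, shift_VL1]
  have e : c + 1 + o = c + o + 1 := by ring
  rw [e]
  rfl

theorem Rules.shift (R : Y.Rules) (o : ℤ) : (Y.shift o).Rules := by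
  have e : ∀ c : ℤ, c + 1 + o = c + o + 1 := fun c => by ring
  constructor
  · exact fun j => R.stat_self _
  · intro j c h1 h2 h3
    have := R.stat_W (j + o) (c + o) (by omega) h2 (shift_Wb.1 h3)
    rw [← e] at this
    exact this
  · intro j c h1 h2 h3
    have := R.stat_WX (j + o) (c + o) (by omega) h2 (fun h => h3 (shift_Wb.2 h))
    rw [← e] at this
    exact this
  · intro j c h1 h2
    have := R.stat_X (j + o) (c + o) (by omega) h2
    rw [← e] at this
    exact this
  · intro j c h1 h2 h3 h4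
    have := R.stat_VW (j + o) (c + o) (by omega) h2
      (by rw [shift_lf, e] at h3; exact h3) (fun h => h4 (shift_VLb.2 h))
    rw [← e] at this
    exact this
  · intro j c h1 h2 h3
    have := R.stat_V (j + o) (c + o) (by omega) h2
      (by rw [shift_lf, e, shift_VLb] at h3; exact h3)
    rw [← e] at this
    exact this
  · exact fun j => R.al_self _
  · intro j c h1
    have := R.al_succ (j + o) (c + o) (by omega)
    rw [← shift_cs, ← e] at this
    exact this
  · exact fun j k => R.um_self _ k
  · intro j c k h1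
    have := R.um_succ (j + o) (c + o) k (by omega)
    rw [← shift_cs, ← shift_UMb, ← e] at this
    exact this

theorem Chk.shift {o j c : ℤ} (h : Y.Chk (j + o) (c + o)) : (Y.shift o).Chk j c := by
  have e : c + 1 + o = c + o + 1 := by ring
  constructor
  · intro hj
    rw [shift_lf, shift_lf, e]
    exact h.c1 (by omega)
  · intro h1 h2
    have := h.c2 h1 (fun h => h2 (shift_Wb.2 h))
    rw [← e] at this
    exact this
  · intro h1 h2 h3 h4
    have := h.c3 h1 (by rw [shift_lf, e] at h2; exact h2) (fun h => h3 (shift_VLb.2 h)) h4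
    rw [← e] at this
    exact this
  · intro h1 k o' h2 h3
    have h4 := h.c4 (shift_cs.1 h1) k o' (by
      rw [← e]
      exact h2) (fun h => h3 (shift_UMb.2 h))
    exact h4

variable (Y) in
/-- structure of the window `[l,r]` relative to the origin `o`, up to level `n` -/
structure SgO (l r : ℤ) (n : ℕ) (o : ℤ) : Prop where
  leaf : ∀ x, l ≤ x → x ≤ r → (Y.lf x ↔ ¬ HH 1 (x - o))
  left : ∀ v < n, ∀ x, l ≤ x → x ≤ r → LL v (x - o) → Y.sgm x = true
  right : ∀ v < n, ∀ x, l ≤ x → x ≤ r → RR v (x - o) → Y.sgm x = false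
  pay : ∀ v < n, ∀ x x', l ≤ x → x ≤ r → l ≤ x' → x' ≤ r → Lv v (x - o) → Lv v (x' - o) →
    Y.pay x = Y.pay x'

theorem SgO.toSg {l r : ℤ} {n : ℕ} {o : ℤ} (h : Y.SgO l r n o) :
    (Y.shift o).Sg (l - o) (r - o) n := by
  constructor
  · intro x h1 h2
    rw [shift_lf, h.leaf (x + o) (by omega) (by omega)]
    simp
  · intro v hv x h1 h2 h3
    exact h.left v hv (x + o) (by omega) (by omega) (by simpa using h3)
  · intro v hv x h1 h2 h3
    exact h.right v hv (x + o) (by omega) (by omega) (by simpa using h3)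

variable (Y) in
/-- all checks inside the window `[l,r]` are passed -/
def GoodW (l r : ℤ) : Prop := ∀ j c, l ≤ j → j ≤ c → c + 1 ≤ r → Y.Chk j c

theorem GoodW.shift {l r : ℤ} (h : Y.GoodW l r) (o : ℤ) : (Y.shift o).GoodW (l - o) (r - o) :=
  fun j c h1 h2 h3 => (h (j + o) (c + o) (by omega) (by omega) (by omega)).shift

/-- pair check for cells of level at most `n` -/
theorem pair (R : Y.Rules) {l r : ℤ} {n : ℕ} (hs : Y.Sg l r n) (hG : Y.GoodW l r)
    {v : ℕ} (hv : v ≤ n) {x : ℤ} (hxv : Lv v x) (h1 : l ≤ x) (h2 : x + 2 ^ (v + 1) ≤ r) :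
    Y.sgm x ≠ Y.sgm (x + 2 ^ (v + 1)) ∧ Y.pay x = Y.pay (x + 2 ^ (v + 1)) := by
  have hS := two_pow_succ' v
  have hP := two_pow_pos' v
  obtain ⟨c, hc⟩ : ∃ c, c + 1 = x + 2 ^ (v + 1) := ⟨x + 2 ^ (v + 1) - 1, by omega⟩
  have ih : ∀ x, l ≤ x → x ≤ c → Y.StatAt n x c := fun x hx1 hx2 =>
    status' R hs hx1 hx2 (by omega)
  have hW := (ih x h1 (by omega)).sW v hv hxv (by omega) (by omega)
  have hnW := noW (r := r) (by omega) ih h1 hv hxv hc
  have := (hG x c h1 (by omega) (by omega)).c2 hW hnW
  rw [hc] at this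
  exact this

/-- a property of the level-`n` cells that is inherited from each to the next one and to the
previous one is constant -/
theorem level_const {n : ℕ} {l r : ℤ} (T : ℤ → Prop)
    (hT : ∀ x, Lv n x → l ≤ x → x + 2 ^ (n + 1) ≤ r → (T x ↔ T (x + 2 ^ (n + 1))))
    {x x' : ℤ} (hx : Lv n x) (hx' : Lv n x') (h1 : l ≤ x) (h2 : x ≤ r) (h3 : l ≤ x')
    (h4 : x' ≤ r) : T x ↔ T x' := by
  have key : ∀ k : ℕ, ∀ x, Lv n x → l ≤ x → x + 2 ^ (n + 1) * k ≤ r →
      (T x ↔ T (x + 2 ^ (n + 1) * k)) := by
    intro k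
    induction k with
    | zero => intro x _ _ _; simp
    | succ k ih =>
      intro x hx h1 h2
      have hP := two_pow_pos' (n + 1)
      have e : x + 2 ^ (n + 1) * ((k + 1 : ℕ) : ℤ) = x + 2 ^ (n + 1) + 2 ^ (n + 1) * k := by
        push_cast; ring
      rw [e] at h2 ⊢
      have hk : (0 : ℤ) ≤ 2 ^ (n + 1) * k := by positivity
      rw [hT x hx h1 (by omega)]
      apply ih _ _ (by omega) h2
      rw [← Lv_sub_iff]
      simpa using hx
  have hdvd : (2 : ℤ) ^ (n + 1) ∣ x' - x := by
    have := dvd_sub hx' hx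
    have e : x' - 2 ^ n - (x - 2 ^ n) = x' - x := by ring
    rw [e] at this
    exact this
  have hP := two_pow_pos' (n + 1)
  rcases le_total x x' with hle | hle
  · obtain ⟨m, hm⟩ := hdvd
    have hm0 : 0 ≤ m := by
      by_contra h
      have : 2 ^ (n + 1) * m < 0 := mul_neg_of_pos_of_neg hP (by omega)
      omega
    obtain ⟨k, rfl⟩ := Int.eq_ofNat_of_zero_le hm0
    have e : x' = x + 2 ^ (n + 1) * k := by omega
    rw [e] at h4 ⊢
    exact key k x hx h1 h4
  · obtain ⟨m, hm⟩ := hdvd
    have hm0 : m ≤ 0 := by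
      by_contra h
      have : 0 < 2 ^ (n + 1) * m := mul_pos hP (by omega)
      omega
    obtain ⟨k, hk⟩ := Int.eq_ofNat_of_zero_le (by omega : 0 ≤ -m)
    have e : x = x' + 2 ^ (n + 1) * k := by
      have : m = - (k : ℤ) := by omega
      rw [this] at hm
      linarith
    rw [e] at h2 ⊢
    exact (key k x' hx' h3 h2).symm

theorem HH1_iff_sub {n : ℕ} {x : ℤ} : HH 1 (x - 2 ^ (n + 1)) ↔ HH 1 x :=
  ⟨fun h => HH_of_sub_pow h (by omega), fun h => h.sub_pow (by omega)⟩

theorem LL_sub_iff {v n : ℕ} (hv : v < n) {x : ℤ} : LL v (x - 2 ^ (n + 1)) ↔ LL v x := by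
  have hd : (2 : ℤ) ^ (v + 2) ∣ 2 ^ (n + 1) := two_pow_dvd (by omega)
  unfold LL
  have e : x - 2 ^ (n + 1) - 2 ^ v = (x - 2 ^ v) - 2 ^ (n + 1) := by ring
  rw [e]
  exact (dvd_sub_left hd)

theorem RR_sub_iff {v n : ℕ} (hv : v < n) {x : ℤ} : RR v (x - 2 ^ (n + 1)) ↔ RR v x := by
  have hd : (2 : ℤ) ^ (v + 2) ∣ 2 ^ (n + 1) := two_pow_dvd (by omega)
  unfold RR
  have e : x - 2 ^ (n + 1) + 2 ^ v = (x + 2 ^ v) - 2 ^ (n + 1) := by ring
  rw [e]
  exact (dvd_sub_left hd)

theorem Lv_sub_iff' {v n : ℕ} (hv : v ≤ n) {x : ℤ} : Lv v (x - 2 ^ (n + 1)) ↔ Lv v x := by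
  have hd : (2 : ℤ) ^ (v + 1) ∣ 2 ^ (n + 1) := two_pow_dvd (by omega)
  unfold Lv
  have e : x - 2 ^ (n + 1) - 2 ^ v = (x - 2 ^ v) - 2 ^ (n + 1) := by ring
  rw [e]
  exact (dvd_sub_left hd)

/-- in a good window the structure exists up to every level -/
theorem exists_SgO (R : Y.Rules) {l r : ℤ} (hG : Y.GoodW l r) (n : ℕ) :
    ∃ o, Y.SgO l r n o := by
  classical
  induction n with
  | zero =>
    refine ⟨if Y.lf l then l - 1 else l, ?_, by omega, by omega, by omega⟩
    have key : ∀ k : ℕ, l + k ≤ r →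
        (Y.lf (l + k) ↔ ¬ HH 1 (l + k - (if Y.lf l then l - 1 else l))) := by
      intro k
      induction k with
      | zero =>
        intro _
        simp only [Nat.cast_zero, add_zero]
        by_cases h : Y.lf l
        · rw [if_pos h]
          simp only [h, true_iff, HH]
          omega
        · rw [if_neg h]
          simp [h, HH]
      | succ k ih =>
        intro hk
        have h1 := ih (by push_cast at hk; omega)
        have h2 := (hG (l + k) (l + k) (by omega) le_rfl (by push_cast at hk; omega)).c1 rfl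
        have e : l + ((k + 1 : ℕ) : ℤ) = l + k + 1 := by push_cast; ring
        rw [e]
        have h3 : Y.lf (l + k + 1) ↔ ¬ Y.lf (l + k) := by
          rw [h2, not_not]
        rw [h3, h1]
        generalize (if Y.lf l then l - 1 else l) = o
        simp only [HH, pow_one]
        omega
    intro x h1 h2
    have := key (x - l).toNat (by omega)
    have e : l + ((x - l).toNat : ℤ) = x := by omega
    rw [e] at this
    exact this
  | succ n ih =>
    obtain ⟨o, ho⟩ := ih
    have hs := ho.toSg
    have hG' := hG.shift o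
    have R' := R.shift o
    have hpair := fun (x : ℤ) (hx : Lv n x) (h1 : l - o ≤ x) (h2 : x + 2 ^ (n + 1) ≤ r - o) =>
      pair R' hs hG' le_rfl hx h1 h2
    -- payloads
    have hpay : ∀ x x', l ≤ x → x ≤ r → l ≤ x' → x' ≤ r → Lv n (x - o) → Lv n (x' - o) →
        Y.pay x = Y.pay x' := by
      intro x x' h1 h2 h3 h4 h5 h6
      have := level_const (n := n) (l := l - o) (r := r - o)
        (fun z => (Y.shift o).pay z = Y.pay x) (by
          intro z hz hz1 hz2
          rw [(hpair z hz hz1 hz2).2]) h5 h6 (by omega) (by omega) (by omega) (by omega)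
      have h7 : Y.pay (x - o + o) = Y.pay x := by rw [sub_add_cancel]
      have h8 := this.1 h7
      have h9 : Y.pay (x' - o + o) = Y.pay x := h8
      rw [sub_add_cancel] at h9
      exact h9.symm
    -- types
    have htype : ∀ z z', Lv n z → Lv n z' → l - o ≤ z → z ≤ r - o → l - o ≤ z' → z' ≤ r - o →
        (((Y.shift o).sgm z = true ↔ LL n z) ↔ ((Y.shift o).sgm z' = true ↔ LL n z')) := by
      intro z z' h1 h2 h3 h4 h5 h6
      refine level_const (n := n) (l := l - o) (r := r - o)
        (fun z => (Y.shift o).sgm z = true ↔ LL n z) ?_ h1 h2 h3 h4 h5 h6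
      intro z hz hz1 hz2
      have hne := (hpair z hz hz1 hz2).1
      have hLL : LL n (z + 2 ^ (n + 1)) ↔ ¬ LL n z := by
        have hlv : Lv n (z + 2 ^ (n + 1)) := by
          rw [← Lv_sub_iff]; simpa using hz
        constructor
        · intro h h'
          have := RR_of_LL_sub h
          rw [add_sub_cancel_right] at this
          exact h'.not_RR this
        · intro h
          rcases Lv_or n hlv with h' | h'
          · exact h'
          · have := LL_of_RR_sub h'
            rw [add_sub_cancel_right] at this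
            exact absurd this h
      simp only [hLL]
      cases h1 : (Y.shift o).sgm z <;> cases h2 : (Y.shift o).sgm (z + 2 ^ (n + 1))
      · rw [h1, h2] at hne; exact absurd rfl hne
      · simp
      · simp
      · rw [h1, h2] at hne; exact absurd rfl hne
    by_cases hex : ∃ z, Lv n z ∧ l - o ≤ z ∧ z ≤ r - o ∧ ¬ ((Y.shift o).sgm z = true ↔ LL n z)
    · -- origin has to be moved
      obtain ⟨z₀, g1, g2, g3, g4⟩ := hex
      have hall : ∀ z, Lv n z → l - o ≤ z → z ≤ r - o →
          ¬ ((Y.shift o).sgm z = true ↔ LL n z) := by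
        intro z h1 h2 h3 h4
        exact g4 ((htype z z₀ h1 g1 h2 h3 g2 g3).1 h4)
      refine ⟨o + 2 ^ (n + 1), ?_, ?_, ?_, ?_⟩
      · intro x h1 h2
        rw [ho.leaf x h1 h2, ← sub_sub, HH1_iff_sub]
      · intro v hv x h1 h2 h3
        rw [← sub_sub] at h3
        rcases Nat.lt_succ_iff_lt_or_eq.1 hv with h | rfl
        · rw [LL_sub_iff h] at h3
          exact ho.left v h x h1 h2 h3
        · have hlv : Lv v (x - o) := (Lv_sub_iff' le_rfl).1 h3.lv
          have hnLL : ¬ LL v (x - o) := fun h => by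
            exact h3.not_RR (RR_of_LL_sub h)
          have := hall (x - o) hlv (by omega) (by omega)
          have e : (Y.shift o).sgm (x - o) = Y.sgm x := by simp [Sys.shift]
          rw [e] at this
          by_contra hne
          apply this
          simp [hne, hnLL]
      · intro v hv x h1 h2 h3
        rw [← sub_sub] at h3
        rcases Nat.lt_succ_iff_lt_or_eq.1 hv with h | rfl
        · rw [RR_sub_iff h] at h3
          exact ho.right v h x h1 h2 h3
        · have hlv : Lv v (x - o) := (Lv_sub_iff' le_rfl).1 h3.lv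
          have hLL : LL v (x - o) := by
            rcases Lv_or v hlv with h | h
            · exact h
            · exact ((LL_of_RR_sub h).not_RR h3).elim
          have := hall (x - o) hlv (by omega) (by omega)
          have e : (Y.shift o).sgm (x - o) = Y.sgm x := by simp [Sys.shift]
          rw [e] at this
          by_contra hne
          apply this
          simp only [hLL, iff_true]
          simpa using hne
      · intro v hv x x' h1 h2 h3 h4 h5 h6
        rw [← sub_sub] at h5 h6
        rw [Lv_sub_iff' (by omega)] at h5 h6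
        rcases Nat.lt_succ_iff_lt_or_eq.1 hv with h | rfl
        · exact ho.pay v h x x' h1 h2 h3 h4 h5 h6
        · exact hpay x x' h1 h2 h3 h4 h5 h6
    · -- the origin is right
      have hall : ∀ z, Lv n z → l - o ≤ z → z ≤ r - o →
          ((Y.shift o).sgm z = true ↔ LL n z) := by
        intro z h1 h2 h3
        by_contra h
        exact hex ⟨z, h1, h2, h3, h⟩
      refine ⟨o, ho.leaf, ?_, ?_, ?_⟩
      · intro v hv x h1 h2 h3
        rcases Nat.lt_succ_iff_lt_or_eq.1 hv with h | rfl
        · exact ho.left v h x h1 h2 h3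
        · have := (hall (x - o) h3.lv (by omega) (by omega)).2 h3
          have e : (Y.shift o).sgm (x - o) = Y.sgm x := by simp [Sys.shift]
          rw [e] at this
          exact this
      · intro v hv x h1 h2 h3
        rcases Nat.lt_succ_iff_lt_or_eq.1 hv with h | rfl
        · exact ho.right v h x h1 h2 h3
        · have h7 := (hall (x - o) h3.lv (by omega) (by omega))
          have e : (Y.shift o).sgm (x - o) = Y.sgm x := by simp [Sys.shift]
          rw [e] at h7
          by_contra hne
          have h8 : Y.sgm x = true := by simpa using hne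
          exact (h7.1 h8).not_RR h3
      · intro v hv x x' h1 h2 h3 h4 h5 h6
        rcases Nat.lt_succ_iff_lt_or_eq.1 hv with h | rfl
        · exact ho.pay v h x x' h1 h2 h3 h4 h5 h6
        · exact hpay x x' h1 h2 h3 h4 h5 h6

end Sys

end Pool.Agent.Helper76.Med
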