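import Pool.Agent.Helper76.MedLev
import Pool.Agent.Helper76.MedInterface

/-!
Module 4 of MP_4596be_lc: the abstract interval automaton (rightward processes).
-/

namespace Pool.Agent.Helper76.Med

/-- status of a process -/
inductive Sta
  | V
  | W
  | X
  deriving DecidableEq

/-- the rules governing the processes (rightward direction) -/
structure Sys (H : Hist) where
  sgm : ℤ → Bool
  pay : ℤ → Fin H.g
  stat : ℤ → ℤ → Sta
  al : ℤ → ℤ → Prop
  um : ℤ → ℤ → Fin H.K → Prop

namespace Sys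

variable {H : Hist} (Y : Sys H)

/-- leaf cells -/
def lf (x : ℤ) : Prop := H.isInit (Y.pay x) = true

/-- a visible left-type cell in `(j, c]` at time `c` -/
def VL (j c j' : ℤ) : Prop := j < j' ∧ j' ≤ c ∧ Y.stat j' c = .V ∧ Y.sgm j' = true

def VLb (j c : ℤ) : Prop := ∃ j', Y.VL j c j'

def VL1 (j c : ℤ) : Prop := ∃ j', Y.VL j c j' ∧ ∀ j'', Y.VL j c j'' → j'' = j'

def Wb (j c : ℤ) : Prop := ∃ j', j < j' ∧ j' ≤ c ∧ Y.stat j' c = .W

def UMb (j c : ℤ) (k : Fin H.K) : Prop := ∃ j', j < j' ∧ j' ≤ c ∧ Y.al j' c ∧ Y.um j' c k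

def pushes (H : Hist) (a : Fin H.g) (k : Fin H.K) : Prop := ∃ x, H.op a = some (k, Sum.inl x)

def pops (H : Hist) (a : Fin H.g) (k : Fin H.K) : Prop := ∃ o, H.op a = some (k, Sum.inr o)

/-- the process at `j` makes a chain step when reading the cell `c+1` -/
def cs (j c : ℤ) : Prop :=
  Y.al j c ∧ ¬ Y.lf (c + 1) ∧
    ((Y.stat j c = .V ∧ ¬ Y.VLb j c) ∨ (Y.stat j c ≠ .V ∧ Y.VL1 j c))

/-- the rules -/
structure Rules : Prop where
  stat_self : ∀ j, Y.stat j j = .V
  stat_W : ∀ j c, j ≤ c → Y.stat j c = .W → Y.Wb j c → Y.stat j (c + 1) = .W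
  stat_WX : ∀ j c, j ≤ c → Y.stat j c = .W → ¬ Y.Wb j c → Y.stat j (c + 1) = .X
  stat_X : ∀ j c, j ≤ c → Y.stat j c = .X → Y.stat j (c + 1) = .X
  stat_VW : ∀ j c, j ≤ c → Y.stat j c = .V → ¬ Y.lf (c + 1) → ¬ Y.VLb j c →
    Y.stat j (c + 1) = .W
  stat_V : ∀ j c, j ≤ c → Y.stat j c = .V → (Y.lf (c + 1) ∨ Y.VLb j c) →
    Y.stat j (c + 1) = .V
  al_self : ∀ j, Y.al j j ↔ Y.sgm j = true
  al_succ : ∀ j c, j ≤ c → (Y.al j (c + 1) ↔ Y.al j c ∧ ¬ (Y.cs j c ∧ Y.sgm (c + 1) = false))
  um_self : ∀ j k, Y.um j j k ↔ pushes H (Y.pay j) k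
  um_succ : ∀ j c k, j ≤ c →
    (Y.um j (c + 1) k ↔ Y.um j c k ∧ ¬ (Y.cs j c ∧ pops H (Y.pay (c + 1)) k ∧ ¬ Y.UMb j c k))

/-- the checks made by the process at `j` when it reads the cell `c+1` -/
structure Chk (j c : ℤ) : Prop where
  c1 : j = c → (Y.lf j ↔ ¬ Y.lf (c + 1))
  c2 : Y.stat j c = .W → ¬ Y.Wb j c → Y.sgm j ≠ Y.sgm (c + 1) ∧ Y.pay j = Y.pay (c + 1)
  c3 : Y.stat j c = .V → ¬ Y.lf (c + 1) → ¬ Y.VLb j c → Y.sgm j = true →
    H.E (Y.pay j) (Y.pay (c + 1)) = true
  c4 : Y.cs j c → ∀ k o, H.op (Y.pay (c + 1)) = some (k, Sum.inr o) → ¬ Y.UMb j c k →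
    (Y.um j c k → ∀ x, H.op (Y.pay j) = some (k, Sum.inl x) → o = some x) ∧
    (¬ Y.um j c k → Y.lf j → o = none)

/-- structure of the window `[l,r]` up to level `n` (leaves and types) -/
structure Sg (l r : ℤ) (n : ℕ) : Prop where
  leaf : ∀ x, l ≤ x → x ≤ r → (Y.lf x ↔ ¬ HH 1 x)
  left : ∀ v < n, ∀ x, l ≤ x → x ≤ r → LL v x → Y.sgm x = true
  right : ∀ v < n, ∀ x, l ≤ x → x ≤ r → RR v x → Y.sgm x = false

/-- closed form of the statuses -/
structure StatAt (n : ℕ) (x c : ℤ) : Prop where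
  sV : ∀ v ≤ n, Lv v x → c < x + 2 ^ v → Y.stat x c = .V
  sW : ∀ v ≤ n, Lv v x → x + 2 ^ v ≤ c → c < x + 2 ^ (v + 1) → Y.stat x c = .W
  sX : ∀ v ≤ n, Lv v x → x + 2 ^ (v + 1) ≤ c → Y.stat x c = .X
  sH : HH (n + 1) x → c < x + 2 ^ n → Y.stat x c = .V

variable {Y}

/-- `b` is close to the right of `x` -/
theorem near_level {v : ℕ} {x b : ℤ} (hx : HH v x) (h1 : x < b) (h2 : b < x + 2 ^ v) :
    ∃ w < v, Lv w b := by
  rcases level_cases v b with h | h
  · have := hx.gap h h1
    omega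
  · exact h

/-- a nonleaf cell `c+1` strictly inside the shadow of `x`: its left child is visible -/
theorem hasVL {l r : ℤ} {n : ℕ} (hs : Y.Sg l r n) {c : ℤ}
    (hc : c + 1 ≤ r) (ih : ∀ x, l ≤ x → x ≤ c → Y.StatAt n x c) {x : ℤ} (hx : l ≤ x)
    (hxc : x ≤ c) {v : ℕ} (hv : v ≤ n) (hxv : HH v x) (hlt : c + 1 < x + 2 ^ v)
    (hnl : ¬ Y.lf (c + 1)) :
    ∃ w, w + 1 < v ∧ Lv (w + 1) (c + 1) ∧ x + 2 ^ w < c + 1 ∧ Y.VL x c (c + 1 - 2 ^ w) := by
  obtain ⟨w, hw, hb⟩ := near_level hxv (by omega : x < c + 1) hlt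
  rcases w with _ | w
  · exfalso
    apply hnl
    rw [hs.leaf _ (by omega) hc]
    exact fun h => hb.not_hh (by omega) h
  · have hgap := (hxv.mono (by omega : w + 1 ≤ v)).gap hb.hh (by omega)
    have h2 := two_pow_succ' w
    have h3 := two_pow_pos' w
    refine ⟨w, hw, hb, by omega, by omega, by omega, ?_, ?_⟩
    · exact (ih _ (by omega) (by omega)).sV w (by omega) (LL_of_Lv_sub hb).lv (by omega)
    · exact hs.left w (by omega) _ (by omega) (by omega) (LL_of_Lv_sub hb)

/-- a visible cell of level `u ≤ n` at the time just before a cell of level at least `u` is read -/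
theorem visible_eq {l r : ℤ} {n : ℕ} {c : ℤ}
    (ih : ∀ x, l ≤ x → x ≤ c → Y.StatAt n x c) {j : ℤ} (hj : l ≤ j)
    (hj2 : j ≤ c) {u : ℕ} (hu : u ≤ n) (hju : Lv u j) (hb : HH u (c + 1))
    (hv : Y.stat j c = .V) : c + 1 = j + 2 ^ u := by
  have hge : j + 2 ^ u ≤ c + 1 := hju.hh.gap hb (by omega)
  by_contra hne
  have h3 : j + 2 ^ u ≤ c := by omega
  by_cases h4 : c < j + 2 ^ (u + 1)
  · have := (ih j hj hj2).sW u hu hju h3 h4
    rw [hv] at this
    exact absurd this (by decide)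
  · have := (ih j hj hj2).sX u hu hju (by omega)
    rw [hv] at this
    exact absurd this (by decide)

/-- nothing of left type is visible when `x` is popped -/
theorem noVL {l r : ℤ} {n : ℕ} (hs : Y.Sg l r n) {c : ℤ}
    (hc : c + 1 ≤ r) (ih : ∀ x, l ≤ x → x ≤ c → Y.StatAt n x c) {x : ℤ} (hx : l ≤ x)
    {v : ℕ} (hv : v ≤ n) (hxv : Lv v x) (hb : c + 1 = x + 2 ^ v) :
    ¬ Y.VLb x c := by
  rintro ⟨j, hj1, hj2, hj3, hj4⟩
  obtain ⟨u, hu, hju⟩ := near_level hxv.hh hj1 (by omega)
  have hb' : HH (v + 1) (c + 1) := by rw [hb]; exact hxv.add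
  have heq := visible_eq (l := l) (r := r) ih (by omega) hj2 (by omega) hju
    (hb'.mono (by omega)) hj3
  have hj : j = c + 1 - 2 ^ u := by omega
  have := hs.right u (by omega) j (by omega) (by omega) (by
    rw [hj]
    exact RR_of_HH_sub (hb'.mono (by omega)))
  rw [hj4] at this
  exact absurd this (by decide)

/-- nothing is waiting when the next cell of the level of `x` is read -/
theorem noW {l r : ℤ} {n : ℕ} {c : ℤ}
    (hc : c + 1 ≤ r) (ih : ∀ x, l ≤ x → x ≤ c → Y.StatAt n x c) {x : ℤ} (hx : l ≤ x)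
    {v : ℕ} (hv : v ≤ n) (hxv : Lv v x) (hb : c + 1 = x + 2 ^ (v + 1)) :
    ¬ Y.Wb x c := by
  have hP := two_pow_pos' v
  have hS := two_pow_succ' v
  rintro ⟨j, hj1, hj2, hj3⟩
  rcases level_cases (v + 1) j with hj | ⟨u, hu, hju⟩
  · -- a cell of higher level is visible
    have hge : j = x + 2 ^ v := by
      have g1 := hxv.hh.gap (hj.mono (by omega)) hj1
      have g2 : j < x + 2 ^ v + 2 ^ (v + 1) := by omega
      rcases lt_or_eq_of_le g1 with h | h
      · have := hxv.add.gap hj h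
        omega
      · exact h.symm
    rcases level_cases (n + 1) j with h | ⟨u, hu, hju⟩
    · have := (ih j (by omega) hj2).sH h (by
        have := two_pow_mono' hv
        omega)
      rw [hj3] at this
      exact absurd this (by decide)
    · have hvu : v + 1 ≤ u := by
        by_contra hlt
        exact hju.not_hh (by omega) hj
      have := (ih j (by omega) hj2).sV u (by omega) hju (by
        have := two_pow_mono' hvu
        omega)
      rw [hj3] at this
      exact absurd this (by decide)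
  · have hPu := two_pow_pos' u
    have hSu := two_pow_succ' u
    rcases Nat.lt_succ_iff_lt_or_eq.1 hu with hlt | rfl
    · have hbu : HH (u + 1) (c + 1) := by
        rw [hb]
        exact (hxv.hh.mono (by omega)).add_pow (by omega)
      have h4 : j + 2 ^ u ≤ c + 1 := hju.hh.gap (hbu.mono (by omega)) (by omega)
      by_cases h5 : c < j + 2 ^ u
      · have := (ih j (by omega) hj2).sV u (by omega) hju h5
        rw [hj3] at this
        exact absurd this (by decide)
      · by_cases h6 : c < j + 2 ^ (u + 1)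
        · have := hju.add.gap hbu (by omega)
          omega
        · have := (ih j (by omega) hj2).sX u (by omega) hju (by omega)
          rw [hj3] at this
          exact absurd this (by decide)
    · -- same level: too far
      have e1 : HH (u + 1) (x + 2 ^ u) := hxv.add
      have e2 : HH (u + 1) (j + 2 ^ u) := hju.add
      have := e1.gap e2 (by omega)
      omega

/-- something is waiting strictly between the parent time and the next cell of the level -/
theorem hasW {l : ℤ} {n : ℕ} {c : ℤ}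
    (ih : ∀ x, l ≤ x → x ≤ c → Y.StatAt n x c) {x : ℤ} (hx : l ≤ x)
    {v : ℕ} (hv : v ≤ n) (hxv : Lv v x) (h1 : x + 2 ^ v ≤ c) (h2 : c + 1 < x + 2 ^ (v + 1)) :
    Y.Wb x c := by
  have hP := two_pow_pos' v
  have hS := two_pow_succ' v
  have hx' := hxv.add
  obtain ⟨w, hw, hb⟩ := near_level (hx'.mono (by omega : v ≤ v + 1))
    (by omega : x + 2 ^ v < c + 1) (by omega)
  have hgap := (hx'.mono (by omega : w ≤ v + 1)).gap hb.hh (by omega)
  have hwv := two_pow_lt_succ hw
  have hSw := two_pow_succ' w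
  have hPw := two_pow_pos' w
  refine ⟨c + 1 - 2 ^ (w + 1), by omega, by omega, ?_⟩
  exact (ih _ (by omega) (by omega)).sW w (by omega) (Lv_sub_iff.2 hb) (by omega) (by omega)

theorem status_step (R : Y.Rules) {l r : ℤ} {n : ℕ} (hs : Y.Sg l r n) {c : ℤ}
    (hc : c + 1 ≤ r) (ih : ∀ x, l ≤ x → x ≤ c → Y.StatAt n x c) {x : ℤ} (hx : l ≤ x)
    (hxc : x ≤ c) : Y.StatAt n x (c + 1) := by
  -- a visible cell stays visible
  have stayV : ∀ v ≤ n, HH v x → c + 1 < x + 2 ^ v → Y.stat x c = .V →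
      Y.stat x (c + 1) = .V := by
    intro v hv hxv hlt hst
    apply R.stat_V x c hxc hst
    by_cases hlf : Y.lf (c + 1)
    · exact Or.inl hlf
    · obtain ⟨w, -, -, -, h⟩ := hasVL hs hc ih hx hxc hv hxv hlt hlf
      exact Or.inr ⟨_, h⟩
  constructor
  · -- sV
    intro v hv hxv hlt
    exact stayV v hv hxv.hh hlt ((ih x hx hxc).sV v hv hxv (by omega))
  · -- sW
    intro v hv hxv h1 h2
    have hP := two_pow_pos' v
    have hS := two_pow_succ' v
    by_cases hc1 : c < x + 2 ^ v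
    · -- the cell is popped now
      have hb : c + 1 = x + 2 ^ v := by omega
      apply R.stat_VW x c hxc ((ih x hx hxc).sV v hv hxv hc1)
      · rw [hs.leaf _ (by omega) hc, not_not, hb]
        exact hxv.add.mono (by omega)
      · exact noVL hs hc ih hx hv hxv hb
    · -- it stays waiting
      apply R.stat_W x c hxc ((ih x hx hxc).sW v hv hxv (by omega) (by omega))
      exact hasW ih hx hv hxv (by omega) (by omega)
  · -- sX
    intro v hv hxv h1
    have hP := two_pow_pos' v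
    have hS := two_pow_succ' v
    by_cases hc1 : x + 2 ^ (v + 1) ≤ c
    · exact R.stat_X x c hxc ((ih x hx hxc).sX v hv hxv hc1)
    · have hb : c + 1 = x + 2 ^ (v + 1) := by omega
      apply R.stat_WX x c hxc ((ih x hx hxc).sW v hv hxv (by omega) (by omega))
      exact noW hc ih hx hv hxv hb
  · -- sH
    intro hxh hlt
    exact stayV n le_rfl (hxh.mono (by omega)) hlt ((ih x hx hxc).sH hxh (by omega))

theorem status_self (R : Y.Rules) {n : ℕ} (x : ℤ) : Y.StatAt n x x := by
  constructor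
  · exact fun v _ _ _ => R.stat_self x
  · intro v _ _ h
    have := two_pow_pos' v
    omega
  · intro v _ _ h
    have := two_pow_pos' (v + 1)
    omega
  · exact fun _ _ => R.stat_self x

/-- closed form of the statuses in a structured window -/
theorem status (R : Y.Rules) {l r : ℤ} {n : ℕ} (hs : Y.Sg l r n) (k : ℕ) :
    ∀ c : ℤ, c = l + k → c ≤ r → ∀ x, l ≤ x → x ≤ c → Y.StatAt n x c := by
  induction k with
  | zero =>
    intro c hc _ x h1 h2
    obtain rfl : c = x := by simp at hc; omega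
    exact status_self R c
  | succ k ih =>
    intro c hc hr x h1 h2
    rcases eq_or_lt_of_le h2 with rfl | hlt
    · exact status_self R x
    · have := status_step R hs (c := c - 1) (by omega)
        (fun x hx1 hx2 => ih (c - 1) (by push_cast at hc; omega) (by omega) x hx1 hx2) h1
        (by omega : x ≤ c - 1)
      simpa using this

theorem status' (R : Y.Rules) {l r : ℤ} {n : ℕ} (hs : Y.Sg l r n) {x c : ℤ}
    (h1 : l ≤ x) (h2 : x ≤ c) (h3 : c ≤ r) : Y.StatAt n x c :=
  status R hs (c - l).toNat c (by omega) h3 x h1 h2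

end Sys

end Pool.Agent.Helper76.Med
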